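import Pool.Agent.H.MP_42e49e_nt.Core3

/-!
# The covering theorem with explicit parameters, second form

The sifting by the primes `q ≤ W ^ 2` in the progressions is an assumption on the parameters.
-/

set_option autoImplicit false

open Finset

namespace Pool.MP42e49e.KN

open Pool.Agent.H.MP_3e6494_nt (prm mem_prm)

/-- parameters of the theorem -/
structure ParS (x y W Z P0 k1 : ℕ) (δ κ : ℝ) : Prop where
  hδ0 : 0 < δ
  hδ1 : δ ≤ 1 / 8
  hκ0 : 0 < κ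
  hκ1 : κ ≤ 1
  hW : 1 ≤ W
  hWZ : W ^ 2 ≤ Z
  hZP : Z ≤ P0
  hPx : P0 ≤ x
  hxy : x ≤ y
  hk1 : 1 ≤ k1
  S1 : ∀ (b : ℕ → ℕ) (d c : ℕ), 0 < d → d ≤ P0 → (∀ q ∈ lS W, Nat.Coprime d q) →
    |((sv b (lS W) (cls y d c)).card : ℝ) - (y : ℝ) / d * PP (lS W)| ≤
      δ * ((y : ℝ) / d * PP (lS W))
  H3 : κ * rs (lL W Z) ≤ δ / 16
  H3' : rs2 (lL W Z) ≤ δ / 16
  H4 : 16 * k1 * (1 / (W : ℝ) ^ 2 + P0 / y) ≤ κ * (PP (lS W) * PP (lL W Z))

variable {x y W Z P0 k1 : ℕ} {δ κ E0 : ℝ} {u : ℕ → ℕ} {N3 τ3 : ℕ → ℝ}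

/-- the first stage -/
theorem stage_one (h : ParS x y W Z P0 k1 δ κ) (b : ℕ → ℕ) {d : ℕ} (c : ℕ) (hd : 0 < d)
    (hdP : d ≤ P0) (hdc : ∀ q ∈ lS W, Nat.Coprime d q) :
    (1 - δ) * (y / d) * PP (lS W) ≤ (sv b (lS W) (cls y d c)).card ∧
    ((sv b (lS W) (cls y d c)).card : ℝ) ≤ (1 + δ) * (y / d) * PP (lS W) := by
  have h1 := abs_le.1 (h.S1 b d c hd hdP hdc)
  have e1 : (1 - δ) * (y / d) * PP (lS W) = (y : ℝ) / d * PP (lS W) -
      δ * ((y : ℝ) / d * PP (lS W)) := by ring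
  have e2 : (1 + δ) * (y / d) * PP (lS W) = (y : ℝ) / d * PP (lS W) +
      δ * ((y : ℝ) / d * PP (lS W)) := by ring
  rw [e1, e2]
  constructor <;> linarith [h1.1, h1.2]

theorem par_pos (h : ParS x y W Z P0 k1 δ κ) :
    (0 : ℝ) < y ∧ (0 : ℝ) < W ∧ (1 : ℝ) ≤ P0 ∧ 1 ≤ P0 := by
  have h1 := h.hZP
  have h2 := h.hPx
  have h3 := h.hxy
  have h4 := h.hWZ
  have h5 := h.hW
  have h6 : 1 ≤ W ^ 2 := Nat.one_le_pow _ _ h5
  refine ⟨?_, ?_, ?_, ?_⟩
  · exact_mod_cast (show 0 < y by omega)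
  · exact_mod_cast (show 0 < W by omega)
  · exact_mod_cast (show 1 ≤ P0 by omega)
  · omega

theorem event_one (h : ParS x y W Z P0 k1 δ κ) (B m1 : ℕ) :
    (cnt (fun s => (s : ℝ) < (1 - δ) * ((1 - δ) * ((y : ℝ) / (1 : ℕ)) * PP (lS W)) * PP (lL W Z))
      (lL W Z) (sv (bb W B m1) (lS W) (cls y 1 0)) : ℝ) ≤
      (lL W Z).prod * Real.exp (-(k1 * δ / 2)) := by
  obtain ⟨hy, hW, hP, hP'⟩ := par_pos h
  have hδ0 := h.hδ0
  have hδ1 := h.hδ1
  have hS := PPS_pos (W := W)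
  have hL := PPL_pos (W := W) (Z := Z)
  have hs := (stage_one h (bb W B m1) (d := 1) 0 Nat.one_pos hP'
    (fun q _ => Nat.coprime_one_left q)).1
  have hN : 0 < (1 - δ) * ((y : ℝ) / (1 : ℕ)) * PP (lS W) := by
    have : 0 < 1 - δ := by linarith
    positivity
  have h1 := lt' (κ := κ) (β := δ) (a := 1 - δ) (N := (1 - δ) * ((y : ℝ) / (1 : ℕ)) * PP (lS W))
    (K := (y : ℝ) / (1 : ℕ) / (W : ℝ) ^ 2 + 1) (k := k1) (l := lL W Z)
    (T := sv (bb W B m1) (lS W) (cls y 1 0)) h.hκ0.le h.hκ1 h.hk1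
    (fun q hq => (mem_lL.1 hq).1.two_le) (pairwise_toList fun p hp => (mem_pw.1 hp).1)
    hN hs (by linarith) (Real.one_sub_le_exp_neg δ)
    (fun q hq c => sv_filter_le (cls_filter_le Nat.one_pos (by positivity)
      (by
        have := (mem_lL.1 hq).2.1
        exact_mod_cast this.le) (Nat.coprime_one_left q) y 0 c))
    (by
      have h2 := mul_le_mul_of_nonneg_left h.H4 hy.le
      have e : (y : ℝ) * (16 * k1 * (1 / (W : ℝ) ^ 2 + P0 / y)) =
          16 * (k1 * ((y : ℝ) / (W : ℝ) ^ 2 + P0)) := by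
        field_simp
      rw [e] at h2
      have h3 : (k1 : ℝ) * ((y : ℝ) / (W : ℝ) ^ 2 + 1) ≤ k1 * ((y : ℝ) / (W : ℝ) ^ 2 + P0) :=
        mul_le_mul_of_nonneg_left (by linarith) (Nat.cast_nonneg k1)
      have hκ0 := h.hκ0
      have h4 : 0 < κ * (y * (PP (lS W) * PP (lL W Z))) := by positivity
      have h5 : (1 / 2 : ℝ) ≤ (1 - δ) ^ 2 := by nlinarith
      have h6 := mul_le_mul_of_nonneg_right h5 h4.le
      rw [Nat.cast_one, div_one]
      nlinarith)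
  refine h1.trans ?_
  refine mul_le_mul_of_nonneg_left ?_ (Nat.cast_nonneg _)
  apply Real.exp_le_exp.2
  have h2 := h.H3
  have hk : (0 : ℝ) ≤ k1 := Nat.cast_nonneg k1
  have h3 : (k1 : ℝ) * (δ / 2) ≤ k1 * (δ - κ * rs (lL W Z)) :=
    mul_le_mul_of_nonneg_left (by linarith) hk
  linarith

theorem event_two (h : ParS x y W Z P0 k1 δ κ) {p : ℕ} (hp : p.Prime) (hZ : Z < p)
    (hpP : p ≤ P0) (c B m1 : ℕ) :
    (cnt (fun s => (1 + δ) * ((1 + δ) * ((y : ℝ) / p) * PP (lS W)) * PP (lL W Z) < (s : ℝ))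
      (lL W Z) (sv (bb W B m1) (lS W) (cls y p c)) : ℝ) ≤
      (lL W Z).prod * Real.exp (-(k1 * δ / 4)) := by
  obtain ⟨hy, hW, hP, hP'⟩ := par_pos h
  have hδ0 := h.hδ0
  have hδ1 := h.hδ1
  have hS := PPS_pos (W := W)
  have hL := PPL_pos (W := W) (Z := Z)
  have hp0 : (0 : ℝ) < p := by exact_mod_cast hp.pos
  have hs := (stage_one h (bb W B m1) (d := p) c hp.pos hpP
    (fun q hq => (Nat.coprime_primes hp (mem_lS.1 hq).1).2 (by
      have h1 := (mem_lS.1 hq).2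
      have h2 := h.hWZ
      omega))).2
  have hN : 0 < (1 + δ) * ((y : ℝ) / p) * PP (lS W) := by positivity
  have h1 := ut (κ := κ) (β := δ / 2) (a := 1 + δ) (N := (1 + δ) * ((y : ℝ) / p) * PP (lS W))
    (K := (y : ℝ) / p / (W : ℝ) ^ 2 + 1) (k := k1) (l := lL W Z)
    (T := sv (bb W B m1) (lS W) (cls y p c)) h.hκ0.le h.hκ1
    (fun q hq => (mem_lL.1 hq).1.two_le) (pairwise_toList fun p hp => (mem_pw.1 hp).1)
    hN hs (exp_half_le hδ0 (by linarith))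
    (fun q hq c' => sv_filter_le (cls_filter_le hp.pos (by positivity)
      (by
        have := (mem_lL.1 hq).2.1
        exact_mod_cast this.le) ((Nat.coprime_primes hp (mem_lL.1 hq).1).2 (by
          have := (mem_lL.1 hq).2.2
          omega)) y c c'))
    (by
      have h2 := mul_le_mul_of_nonneg_left h.H4 (by positivity : 0 ≤ (y : ℝ) / p)
      have e : (y : ℝ) / p * (16 * k1 * (1 / (W : ℝ) ^ 2 + P0 / y)) =
          16 * (k1 * ((y : ℝ) / p / (W : ℝ) ^ 2 + P0 / p)) := by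
        field_simp
      rw [e] at h2
      have h4 : (1 : ℝ) ≤ (P0 : ℝ) / p := by
        rw [one_le_div hp0]
        exact_mod_cast hpP
      have h3 : (k1 : ℝ) * ((y : ℝ) / p / (W : ℝ) ^ 2 + 1) ≤
          k1 * ((y : ℝ) / p / (W : ℝ) ^ 2 + P0 / p) :=
        mul_le_mul_of_nonneg_left (by linarith) (Nat.cast_nonneg k1)
      have hκ0 := h.hκ0
      have h5 : 0 < κ * (((y : ℝ) / p) * (PP (lS W) * PP (lL W Z))) := by positivity
      have h6 : (1 : ℝ) ≤ (1 + δ) ^ 2 := by nlinarith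
      have h7 := mul_le_mul_of_nonneg_right h6 h5.le
      have h8 : 0 ≤ (k1 : ℝ) * ((y : ℝ) / p / (W : ℝ) ^ 2 + 1) := by positivity
      nlinarith)
  refine h1.trans ?_
  refine mul_le_mul_of_nonneg_left ?_ (Nat.cast_nonneg _)
  apply Real.exp_le_exp.2
  have h2 := h.H3
  have h2' := h.H3'
  have hk : (0 : ℝ) ≤ k1 := Nat.cast_nonneg k1
  have h3 : (k1 : ℝ) * (δ / 4) ≤ k1 * (δ / 2 - rs2 (lL W Z) - κ * rs (lL W Z)) :=
    mul_le_mul_of_nonneg_left (by linarith) hk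
  linarith

theorem event_three (h : ParS x y W Z P0 k1 δ κ) (h3 : Par3 x y W Z P0 δ E0 u N3 τ3) {p : ℕ}
    (hp : p ∈ pw P0 x) (c B m1 : ℕ) :
    (cnt (fun s => τ3 p < (s : ℝ))
      (lL W Z) (sv (bb W B m1) (prm (u p)).toList (cls y p c)) : ℝ) ≤
      (lL W Z).prod * Real.exp (-(E0 + u p * Real.log 4)) := by
  obtain ⟨hy, hW, hP, hP'⟩ := par_pos h
  have hp' := mem_pw.1 hp
  have hp0 : (0 : ℝ) < p := by exact_mod_cast hp'.1.pos
  rcases h3.U34 p hp with hdet | ⟨hU3, hU4⟩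
  · rw [cnt_eq_zero ((h3.U2 p hp _ c).trans hdet), Nat.cast_zero]
    positivity
  have h1 := exp_tail (K := (y : ℝ) / p / (W : ℝ) ^ 2 + 1) (N := N3 p) (τ := τ3 p) (l := lL W Z)
    (T := sv (bb W B m1) (prm (u p)).toList (cls y p c)) (by positivity)
    (fun q hq => (mem_lL.1 hq).1.two_le) (pairwise_toList fun p hp => (mem_pw.1 hp).1)
    (h3.U2 p hp _ c)
    (fun q hq c' => sv_filter_le (cls_filter_le hp'.1.pos (by positivity)
      (by
        have := (mem_lL.1 hq).2.1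
        exact_mod_cast this.le) ((Nat.coprime_primes hp'.1 (mem_lL.1 hq).1).2 (by
          have := (mem_lL.1 hq).2.2
          have := h.hZP
          omega)) y c c'))
    hU3
  refine h1.trans ?_
  refine mul_le_mul_of_nonneg_left ?_ (Nat.cast_nonneg _)
  apply Real.exp_le_exp.2
  linarith

open Classical in
theorem bad_count (h : ParS x y W Z P0 k1 δ κ) (h3 : Par3 x y W Z P0 δ E0 u N3 τ3) :
    (((range (∏ p ∈ pw W Z, p)).filter (Bad x y W Z P0 δ u τ3)).card : ℝ) ≤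
      ((∏ p ∈ pw W Z, p : ℕ) : ℝ) * (((4 ^ W : ℕ) : ℝ) * Real.exp (-(k1 * δ / 2)) +
        ((x * x * 4 ^ W : ℕ) : ℝ) * Real.exp (-(k1 * δ / 4)) +
        ((x * x : ℕ) : ℝ) * Real.exp (-E0)) := by
  have hM := prod_eq h.hW h.hWZ
  have hM1 : 0 < ∏ p ∈ pw W (W ^ 2), p := prod_pos' W (W ^ 2)
  have hM2 : 0 < (lL W Z).prod := by
    rw [lL_prod]
    exact prod_pos' _ _
  have hdv : ∀ q ∈ lS W, W < q → q ∣ ∏ p ∈ pw W (W ^ 2), p := fun q hq hWq =>
    dvd_prod_of_mem (fun p => p) (mem_pw.2 ⟨(mem_lS.1 hq).1, hWq, (mem_lS.1 hq).2⟩)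
  obtain ⟨M, hMdef⟩ : ∃ M, M = ∏ p ∈ pw W Z, p := ⟨_, rfl⟩
  rw [← hMdef] at hM ⊢
  have b1 : ∀ B : ℕ, (((range M).filter fun m =>
      ((srv (lL W Z) m (sv (bb W B m) (lS W) (cls y 1 0))).card : ℝ) <
        (1 - δ) * ((1 - δ) * ((y : ℝ) / (1 : ℕ)) * PP (lS W)) * PP (lL W Z)).card : ℝ) ≤
      (M : ℝ) * Real.exp (-(k1 * δ / 2)) := by
    intro B
    have := two_stage_le (fun s => (s : ℝ) <
      (1 - δ) * ((1 - δ) * ((y : ℝ) / (1 : ℕ)) * PP (lS W)) * PP (lL W Z)) hM1 hM2 cop_prod hdv B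
      (cls y 1 0) (fun m1 => event_one h B m1)
    rw [hM] at this
    convert this
  have b2 : ∀ p ∈ pw Z P0, ∀ c B : ℕ, (((range M).filter fun m =>
      (1 + δ) * ((1 + δ) * ((y : ℝ) / p) * PP (lS W)) * PP (lL W Z) <
      ((srv (lL W Z) m (sv (bb W B m) (lS W) (cls y p c))).card : ℝ)).card : ℝ) ≤
      (M : ℝ) * Real.exp (-(k1 * δ / 4)) := by
    intro p hp c B
    rw [mem_pw] at hp
    have := two_stage_le (fun s =>
      (1 + δ) * ((1 + δ) * ((y : ℝ) / p) * PP (lS W)) * PP (lL W Z) < (s : ℝ)) hM1 hM2 cop_prod hdv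
      B (cls y p c) (fun m1 => event_two h hp.1 hp.2.1 hp.2.2 c B m1)
    rw [hM] at this
    convert this
  have b3 : ∀ p ∈ pw P0 x, ∀ c B : ℕ, (((range M).filter fun m => τ3 p <
      ((srv (lL W Z) m (sv (bb W B m) (prm (u p)).toList (cls y p c))).card : ℝ)).card : ℝ) ≤
      (M : ℝ) * Real.exp (-(E0 + u p * Real.log 4)) := by
    intro p hp c B
    have hdv' : ∀ q ∈ (prm (u p)).toList, W < q → q ∣ ∏ p ∈ pw W (W ^ 2), p := by
      intro q hq hWq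
      rw [mem_toList, mem_prm] at hq
      have := h3.U1 p hp
      omega
    have := two_stage_le (fun s => τ3 p < (s : ℝ)) hM1 hM2
      cop_prod hdv' B (cls y p c) (fun m1 => event_three h h3 hp c B m1)
    rw [hM] at this
    convert this
  have hsub : (range M).filter (Bad x y W Z P0 δ u τ3) ⊆
      ((range (4 ^ W)).biUnion fun B => (range M).filter fun m =>
        ((srv (lL W Z) m (sv (bb W B m) (lS W) (cls y 1 0))).card : ℝ) <
        (1 - δ) * ((1 - δ) * ((y : ℝ) / (1 : ℕ)) * PP (lS W)) * PP (lL W Z)) ∪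
      (((pw Z P0) ×ˢ (range x ×ˢ range (4 ^ W))).biUnion fun t => (range M).filter fun m =>
        (1 + δ) * ((1 + δ) * ((y : ℝ) / t.1) * PP (lS W)) * PP (lL W Z) <
        ((srv (lL W Z) m (sv (bb W t.2.2 m) (lS W) (cls y t.1 t.2.1))).card : ℝ)) ∪
      (((pw P0 x) ×ˢ range x).biUnion fun t => (range (4 ^ u t.1)).biUnion fun B =>
        (range M).filter fun m => τ3 t.1 <
        ((srv (lL W Z) m (sv (bb W B m) (prm (u t.1)).toList (cls y t.1 t.2))).card : ℝ)) := by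
    intro m hm
    rw [mem_filter] at hm
    obtain ⟨hm0, hm1⟩ := hm
    rw [mem_union, mem_union, mem_biUnion, mem_biUnion, mem_biUnion]
    rcases hm1 with ⟨B, hB, h1⟩ | ⟨p, hp, c, hc, B, hB, h1⟩ | ⟨p, hp, c, hc, B, hB, h1⟩
    · exact Or.inl (Or.inl ⟨B, mem_range.2 hB, mem_filter.2 ⟨hm0, h1⟩⟩)
    · exact Or.inl (Or.inr ⟨(p, c, B), mem_product.2 ⟨hp, mem_product.2
        ⟨mem_range.2 hc, mem_range.2 hB⟩⟩, mem_filter.2 ⟨hm0, h1⟩⟩)
    · exact Or.inr ⟨(p, c), mem_product.2 ⟨hp, mem_range.2 hc⟩, mem_biUnion.2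
        ⟨B, mem_range.2 hB, mem_filter.2 ⟨hm0, h1⟩⟩⟩
  have hc := (card_le_card hsub).trans ((card_union_le _ _).trans
    (Nat.add_le_add_right (card_union_le _ _) _))
  have hc1 := card_biUnion_le (s := range (4 ^ W)) (t := fun B => (range M).filter fun m =>
        ((srv (lL W Z) m (sv (bb W B m) (lS W) (cls y 1 0))).card : ℝ) <
        (1 - δ) * ((1 - δ) * ((y : ℝ) / (1 : ℕ)) * PP (lS W)) * PP (lL W Z))
  have hc2 := card_biUnion_le (s := (pw Z P0) ×ˢ (range x ×ˢ range (4 ^ W)))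
    (t := fun t => (range M).filter fun m =>
        (1 + δ) * ((1 + δ) * ((y : ℝ) / t.1) * PP (lS W)) * PP (lL W Z) <
        ((srv (lL W Z) m (sv (bb W t.2.2 m) (lS W) (cls y t.1 t.2.1))).card : ℝ))
  have hc3 := card_biUnion_le (s := (pw P0 x) ×ˢ range x) (t := fun t =>
        (range (4 ^ u t.1)).biUnion fun B => (range M).filter fun m => τ3 t.1 <
        ((srv (lL W Z) m (sv (bb W B m) (prm (u t.1)).toList (cls y t.1 t.2))).card : ℝ))
  have hcR := (Nat.cast_le (α := ℝ)).2 (hc.trans (add_le_add (add_le_add hc1 hc2) hc3))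
  refine hcR.trans ?_
  rw [Nat.cast_add, Nat.cast_add, Nat.cast_sum, Nat.cast_sum, Nat.cast_sum, mul_add, mul_add]
  refine add_le_add (add_le_add ?_ ?_) ?_
  · refine (sum_le_sum fun B _ => b1 B).trans ?_
    rw [sum_const, nsmul_eq_mul]
    exact mul_exp_le (Real.exp_pos _).le (by rw [card_range]) M
  · refine (sum_le_sum fun t ht => b2 t.1 (mem_product.1 ht).1 t.2.1 t.2.2).trans ?_
    rw [sum_const, nsmul_eq_mul]
    refine mul_exp_le (Real.exp_pos _).le ?_ M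
    rw [card_product, card_product, card_range, card_range, ← mul_assoc]
    exact Nat.mul_le_mul_right _ (Nat.mul_le_mul_right _ ((card_pw_le Z P0).trans h.hPx))
  · have b4 : ∀ t ∈ (pw P0 x) ×ˢ range x, (((range (4 ^ u t.1)).biUnion fun B =>
        (range M).filter fun m => τ3 t.1 <
        ((srv (lL W Z) m (sv (bb W B m) (prm (u t.1)).toList (cls y t.1 t.2))).card : ℝ)).card :
          ℝ) ≤ (M : ℝ) * Real.exp (-E0) := by
      intro t ht
      have hp := (mem_product.1 ht).1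
      have e1 := (Nat.cast_le (α := ℝ)).2 (card_biUnion_le (s := range (4 ^ u t.1))
        (t := fun B => (range M).filter fun m => τ3 t.1 <
        ((srv (lL W Z) m (sv (bb W B m) (prm (u t.1)).toList (cls y t.1 t.2))).card : ℝ)))
      rw [Nat.cast_sum] at e1
      refine e1.trans ((sum_le_sum fun B _ => b3 t.1 hp t.2 B).trans (le_of_eq ?_))
      rw [sum_const, nsmul_eq_mul, card_range, ← four_pow_mul (u t.1) E0]
      ring
    refine (sum_le_sum b4).trans ?_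
    rw [sum_const, nsmul_eq_mul]
    refine mul_exp_le (Real.exp_pos _).le ?_ M
    rw [card_product, card_range]
    exact Nat.mul_le_mul_right _ (card_pw_le P0 x)

theorem cov_bad (h : ParS x y W Z P0 k1 δ κ) (hh : Par3 x y W Z P0 δ E0 u N3 τ3) {m : ℕ}
    (hm : Cov x y W Z m) : Bad x y W Z P0 δ u τ3 m := by
  by_contra hbad
  obtain ⟨a, ha⟩ := hm
  obtain ⟨B, hB, hBp⟩ := exists_class W a
  unfold Bad at hbad
  push Not at hbad
  obtain ⟨h1, h2, h3⟩ := hbad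
  obtain ⟨hy, hW, hP, hP'⟩ := par_pos h
  have hS := PPS_pos (W := W)
  have hL := PPL_pos (W := W) (Z := Z)
  obtain ⟨U, hU⟩ : ∃ U, U = srv (lL W Z) m (sv (bb W B m) (lS W) (cls y 1 0)) := ⟨_, rfl⟩
  have hU1 := h1 B hB
  rw [← hU] at hU1
  have hWW : W ≤ W ^ 2 := by
    have := h.hW
    nlinarith
  -- every element of `U` is covered by a large prime
  have hcov : ∀ n ∈ U, ∃ p ∈ pw Z x, (p : ℤ) ∣ n - a p := by
    intro n hn
    rw [hU, mem_srv, mem_sv, mem_cls] at hn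
    obtain ⟨⟨⟨hn1, -⟩, hn2⟩, hn3⟩ := hn
    have hcop : Nat.Coprime (m + n) (∏ p ∈ pw W Z, p) := by
      refine Nat.Coprime.prod_right fun q hq => ?_
      rw [mem_pw] at hq
      rw [Nat.coprime_comm]
      refine (Nat.Prime.coprime_iff_not_dvd hq.1).2 ?_
      rcases le_or_gt q (W ^ 2) with h4 | h4
      · have h5 := hn2 q (mem_lS.2 ⟨hq.1, h4⟩)
        unfold bb at h5
        rwa [if_neg (by omega)] at h5
      · exact hn3 q (mem_lL.2 ⟨hq.1, h4, hq.2.2⟩)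
    obtain ⟨p, hp, hpx, hpQ, hdvd⟩ := ha n hn1 hcop
    refine ⟨p, ?_, hdvd⟩
    rw [mem_pw]
    refine ⟨hp, ?_, hpx⟩
    by_contra h4
    have h5 : p ≤ W := by
      by_contra h6
      exact hpQ (mem_pw.2 ⟨hp, by omega, by omega⟩)
    have h6 := hn2 p (mem_lS.2 ⟨hp, h5.trans hWW⟩)
    unfold bb at h6
    rw [if_pos h5] at h6
    exact h6 ((hBp p hp h5 n).2 hdvd)
  have hsub : U ⊆ (pw Z x).biUnion fun p => U.filter fun n : ℕ => (p : ℤ) ∣ (n : ℤ) - a p := by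
    intro n hn
    obtain ⟨p, hp, hd⟩ := hcov n hn
    exact mem_biUnion.2 ⟨p, hp, mem_filter.2 ⟨hn, hd⟩⟩
  have hcard := (card_le_card hsub).trans card_biUnion_le
  have hcardR : (U.card : ℝ) ≤ ∑ p ∈ pw Z x,
      ((U.filter fun n : ℕ => (p : ℤ) ∣ (n : ℤ) - a p).card : ℝ) := by
    exact_mod_cast hcard
  have hsplit : pw Z x = pw Z P0 ∪ pw P0 x := by
    ext p
    rw [mem_union, mem_pw, mem_pw, mem_pw]
    have := h.hZP
    have := h.hPx
    constructor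
    · rintro ⟨h4, h5, h6⟩
      rcases le_or_gt p P0 with h7 | h7
      · exact Or.inl ⟨h4, h5, h7⟩
      · exact Or.inr ⟨h4, h7, h6⟩
    · rintro (⟨h4, h5, h6⟩ | ⟨h4, h5, h6⟩)
      · exact ⟨h4, h5, by omega⟩
      · exact ⟨h4, by omega, h6⟩
  have hdisj : Disjoint (pw Z P0) (pw P0 x) := by
    rw [disjoint_left]
    intro p h4 h5
    rw [mem_pw] at h4 h5
    omega
  rw [hsplit, sum_union hdisj] at hcardR
  have s1 : ∑ p ∈ pw Z P0, ((U.filter fun n : ℕ => (p : ℤ) ∣ (n : ℤ) - a p).card : ℝ) ≤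
      (1 + δ) ^ 2 * y * PP (lS W) * PP (lL W Z) * (FF P0 - FF Z) := by
    rw [← sum_pw h.hZP, mul_sum]
    refine sum_le_sum fun p hp => ?_
    have hp' := mem_pw.1 hp
    obtain ⟨c, hc, hcd⟩ := exists_class_one hp'.1.pos (a p)
    have hcx : c < x := by
      have := h.hPx
      omega
    have h4 := h2 p hp c hcx B hB
    have h5 : (U.filter fun n : ℕ => (p : ℤ) ∣ (n : ℤ) - a p) ⊆
        srv (lL W Z) m (sv (bb W B m) (lS W) (cls y p c)) := by
      intro n hn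
      rw [mem_filter, hU, mem_srv, mem_sv, mem_cls] at hn
      obtain ⟨⟨⟨⟨hn1, -⟩, hn2⟩, hn3⟩, hn4⟩ := hn
      rw [mem_srv, mem_sv, mem_cls]
      exact ⟨⟨⟨hn1, (hcd n).2 hn4⟩, hn2⟩, hn3⟩
    have h6 : ((U.filter fun n : ℕ => (p : ℤ) ∣ (n : ℤ) - a p).card : ℝ) ≤
        ((srv (lL W Z) m (sv (bb W B m) (lS W) (cls y p c))).card : ℝ) := by
      exact_mod_cast card_le_card h5
    refine (h6.trans h4).trans (le_of_eq ?_)
    ring
  have s2 : ∑ p ∈ pw P0 x, ((U.filter fun n : ℕ => (p : ℤ) ∣ (n : ℤ) - a p).card : ℝ) ≤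
      ∑ p ∈ pw P0 x, τ3 p := by
    refine sum_le_sum fun p hp => ?_
    have hp' := mem_pw.1 hp
    obtain ⟨c, hc, hcd⟩ := exists_class_one hp'.1.pos (a p)
    obtain ⟨B', hB', hBp'⟩ := exists_class (u p) a
    have hcx : c < x := by
      have := hp'.2.2
      omega
    have h4 := h3 p hp c hcx B' hB'
    have h5 : (U.filter fun n : ℕ => (p : ℤ) ∣ (n : ℤ) - a p) ⊆
        srv (lL W Z) m (sv (bb W B' m) (prm (u p)).toList (cls y p c)) := by
      intro n hn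
      rw [mem_filter, hU, mem_srv, mem_sv, mem_cls] at hn
      obtain ⟨⟨⟨⟨hn1, -⟩, hn2⟩, hn3⟩, hn4⟩ := hn
      rw [mem_srv, mem_sv, mem_cls]
      refine ⟨⟨⟨hn1, (hcd n).2 hn4⟩, ?_⟩, hn3⟩
      intro q hq
      rw [mem_toList, mem_prm] at hq
      have hqW : q ≤ W := hq.2.trans (hh.U1 p hp)
      have h6 := hn2 q (mem_lS.2 ⟨hq.1, hqW.trans hWW⟩)
      unfold bb at h6 ⊢
      rw [if_pos hqW] at h6 ⊢
      rw [hBp' q hq.1 hq.2 n]
      rwa [hBp q hq.1 hqW n] at h6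
    have h6 : ((U.filter fun n : ℕ => (p : ℤ) ∣ (n : ℤ) - a p).card : ℝ) ≤
        ((srv (lL W Z) m (sv (bb W B' m) (prm (u p)).toList (cls y p c))).card : ℝ) := by
      exact_mod_cast card_le_card h5
    exact h6.trans h4
  have h8 := hh.U5
  have e1 : (1 - δ) * ((1 - δ) * ((y : ℝ) / (1 : ℕ)) * PP (lS W)) * PP (lL W Z) =
      (1 - δ) ^ 2 * y * PP (lS W) * PP (lL W Z) := by
    rw [Nat.cast_one, div_one]
    ring
  rw [e1] at hU1
  linarith

/-- **The covering theorem, explicit parameters.** -/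
theorem core (h : ParS x y W Z P0 k1 δ κ) (h3 : Par3 x y W Z P0 δ E0 u N3 τ3) :
    (({m | m < ∏ p ∈ pw W Z, p ∧ Cov x y W Z m} : Set ℕ).ncard : ℝ) ≤
      ((∏ p ∈ pw W Z, p : ℕ) : ℝ) * (((4 ^ W : ℕ) : ℝ) * Real.exp (-(k1 * δ / 2)) +
        ((x * x * 4 ^ W : ℕ) : ℝ) * Real.exp (-(k1 * δ / 4)) +
        ((x * x : ℕ) : ℝ) * Real.exp (-E0)) := by
  classical
  refine le_trans ?_ (bad_count h h3)
  have h1 : ({m | m < ∏ p ∈ pw W Z, p ∧ Cov x y W Z m} : Set ℕ) ⊆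
      (((range (∏ p ∈ pw W Z, p)).filter (Bad x y W Z P0 δ u τ3) : Finset ℕ) : Set ℕ) := by
    rintro m ⟨h2, h4⟩
    rw [mem_coe, mem_filter, mem_range]
    exact ⟨h2, cov_bad h h3 h4⟩
  have h2 := Set.ncard_le_ncard h1 (finite_toSet _)
  rw [Set.ncard_coe_finset] at h2
  exact_mod_cast h2

end Pool.MP42e49e.KN
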