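import Pool.Agent.H.MP_0c96e5_nt.KPar

/-!
# The third event, and the final count
-/

set_option autoImplicit false

open Finset Filter

namespace Pool.MP42e49e.KN

open Pool.Agent.H.MP_3e6494_nt (prm mem_prm)
open Pool.MP42e49e.R (floor_bounds FF_nonneg log4_le exp_neg_le_inv card_pw_log)

variable {θ δ β ε K K1 L l q : ℝ} {R x y W Z P0 : ℕ}

theorem Kg.xR (h : Kg θ δ β ε K K1 L l q R x y W Z P0) : (0 : ℝ) < x := by
  rw [h.x_eq]
  exact Real.exp_pos _

theorem Kg.yR (h : Kg θ δ β ε K K1 L l q R x y W Z P0) : (0 : ℝ) < y := by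
  have h1 := h.xR
  have h2 : (x : ℝ) ≤ y := by exact_mod_cast h.x_le_y
  linarith

theorem Kg.y_ge (h : Kg θ δ β ε K K1 L l q R x y W Z P0) : x * Real.exp (14 * q) ≤ y := by
  refine le_trans ?_ h.hy1
  apply mul_le_mul_of_nonneg_left _ h.xR.le
  apply Real.exp_le_exp.2
  rw [h.hq]
  have h2 := mul_le_mul_of_nonneg_right h.hβε h.L_pos.le
  linarith

theorem Kg.sx (h : Kg θ δ β ε K K1 L l q R x y W Z P0) {p : ℕ} (hp : p ∈ pw P0 x) :
    14 * q ≤ Real.log ((y : ℝ) / p) := by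
  have hp' := mem_pw.1 hp
  have hp0 : (0 : ℝ) < p := by exact_mod_cast hp'.1.pos
  have h1 : (p : ℝ) ≤ x := by exact_mod_cast hp'.2.2
  have h2 := h.yR
  rw [Real.le_log_iff_exp_le (by positivity), le_div_iff₀ hp0]
  calc Real.exp (14 * q) * p ≤ Real.exp (14 * q) * x :=
        mul_le_mul_of_nonneg_left h1 (Real.exp_pos _).le
    _ = x * Real.exp (14 * q) := mul_comm _ _
    _ ≤ y := h.y_ge

/-- Mertens on a window close to the end -/
theorem Kg.win (h : Kg θ δ β ε K K1 L l q R x y W Z P0) {v : ℕ} {D : ℝ} (hv : 2 ≤ v)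
    (hvx : v ≤ x) (hD0 : 0 ≤ D) (hD : D ≤ L / 2) (hlog : L - D ≤ Real.log v) :
    FF x - FF v ≤ (2 * D + 24) / L := by
  have hL := h.L_ge
  have hL0 : 0 < L := by linarith
  have h1 := (window hv hvx).1
  rw [← h.hL, ← h.hl] at h1
  have hlv : L / 2 ≤ Real.log v := by linarith
  have hlv0 : 0 < Real.log v := by linarith
  have h2 : 12 / Real.log v ≤ 24 / L := by
    rw [div_le_div_iff₀ hlv0 hL0]
    linarith
  have h3 : l - Real.log (Real.log v) ≤ 2 * D / L := by
    have h4 : Real.log (L - D) ≤ Real.log (Real.log v) :=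
      Real.log_le_log (by linarith) hlog
    have h5 : Real.log (L - D) = l + Real.log (1 - D / L) := by
      have e : L - D = L * (1 - D / L) := by field_simp
      have e2 : D / L ≤ 1 / 2 := by
        rw [div_le_iff₀ hL0]
        linarith
      rw [e, Real.log_mul hL0.ne' (by linarith), h.hl]
    have e2 : D / L ≤ 1 / 2 := by
      rw [div_le_iff₀ hL0]
      linarith
    have e3 : 0 ≤ D / L := by positivity
    have h6 := Real.one_sub_inv_le_log_of_pos (show 0 < 1 - D / L by linarith)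
    have h7 : (1 - D / L)⁻¹ ≤ 1 + 2 * (D / L) := by
      rw [inv_le_iff_one_le_mul₀ (by linarith)]
      nlinarith
    have h8 : 2 * D / L = 2 * (D / L) := by ring
    linarith
  have h9 : (2 * D + 24) / L = 2 * D / L + 24 / L := by ring
  linarith

theorem Kg.mertens (h : Kg θ δ β ε K K1 L l q R x y W Z P0) : FF P0 - FF Z ≤ 1 - 15 * δ := by
  have hZ := h.Z_facts
  have hP := h.P_facts
  have hL := h.L_ge
  have hθ := h.theta_ge
  have hL0 : 0 < L := by linarith
  have h1 := (window hZ.2.2.2.2 h.Z_le_P).1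
  have hθL : 300 ≤ θ * L := by nlinarith
  have hlogZ : 0 < θ * L - 1 := by linarith
  have hlogZ' : 0 < Real.log Z := by linarith
  have hlogP0 : 0 < Real.log P0 := by
    have := h.lq_le2
    linarith
  have h2 : Real.log (Real.log P0) ≤ l := by
    rw [h.hl]
    apply Real.log_le_log hlogP0
    have := h.K1q_ge
    have := h.q_ge
    linarith
  have h3 : Real.log (θ * L - 1) ≤ Real.log (Real.log Z) := Real.log_le_log hlogZ hZ.2.2.1
  have h4 : Real.log θ + l - 2 / (θ * L) ≤ Real.log (θ * L - 1) := by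
    have e1 : θ * L - 1 = θ * L * (1 - 1 / (θ * L)) := by field_simp
    have hθL0 : 0 < θ * L := by linarith
    have e2 : 1 / (θ * L) ≤ 1 / 300 := one_div_le_one_div_of_le (by norm_num) hθL
    rw [e1, Real.log_mul hθL0.ne' (by linarith), Real.log_mul (by linarith) hL0.ne', ← h.hl]
    have h5 := Real.one_sub_inv_le_log_of_pos (show 0 < 1 - 1 / (θ * L) by linarith)
    have h6 : -(2 / (θ * L)) ≤ 1 - (1 - 1 / (θ * L))⁻¹ := by
      have h7 : (1 - 1 / (θ * L))⁻¹ ≤ 1 + 2 * (1 / (θ * L)) := by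
        rw [inv_le_iff_one_le_mul₀ (by linarith)]
        have : 0 ≤ 1 / (θ * L) := by positivity
        nlinarith
      have h8 : 2 / (θ * L) = 2 * (1 / (θ * L)) := by ring
      linarith
    linarith
  have h5 : 12 / Real.log Z ≤ 24 / (θ * L) := by
    rw [div_le_div_iff₀ hlogZ' (by linarith)]
    linarith
  have h6 : 2 / (θ * L) + 24 / (θ * L) ≤ δ := by
    rw [← add_div, div_le_iff₀ (by linarith)]
    have h7 := h.Kδ.1
    have h8 : (1 : ℝ) ≤ Real.exp 22 := Real.one_le_exp (by norm_num)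
    have h9 := h.hKl
    have h10 := h.l_le
    have h11 := h.hδ0
    have h12 : K * δ ≤ L * δ := mul_le_mul_of_nonneg_right (by linarith) h11.le
    have h13 : L * δ / 3 ≤ δ * (θ * L) := by
      have : 0 ≤ L * δ := by positivity
      nlinarith
    linarith
  have h7 := h.hδ
  linarith

theorem exp22 : Real.exp (-22) * Real.exp 22 = 1 := by
  rw [← Real.exp_add]
  norm_num

/-- bound of the first stage -/
noncomputable def N3 (q : ℝ) (y p : ℕ) : ℝ := 3 * ((y : ℝ) / p / q)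

/-- bound of the second stage -/
noncomputable def τ3 (q : ℝ) (y W Z p : ℕ) : ℝ :=
  2 * Real.exp 1 * PP (lL W Z) * N3 q y p + 11 * (2 * Real.exp q + 2 * W)

theorem Kg.big (h : Kg θ δ β ε K K1 L l q R x y W Z P0) :
    20480 * Real.exp 22 * L ^ 5 ≤ W ∧ 20480 * L ≤ L * (L * δ) ∧ 20480 * Real.exp 22 ≤ L * δ := by
  have hl := h.l_ge
  have hL := h.L_ge
  have hL0 : 0 < L := by linarith
  have hδ0 := h.hδ0
  have hδ1 := h.hδ1
  have he : (1 : ℝ) ≤ Real.exp 22 := Real.one_le_exp (by norm_num)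
  have hK : 20480 * Real.exp 22 ≤ K := by
    have h1 : K * δ ≤ K * 1 := mul_le_mul_of_nonneg_left (by linarith) (by linarith [h.hK])
    linarith [h.hK2]
  have h1 : 20480 * Real.exp 22 ≤ L * δ :=
    h.hK2.trans (mul_le_mul_of_nonneg_right (by linarith [h.hKl, h.l_le]) hδ0.le)
  refine ⟨?_, ?_, h1⟩
  · have h1 : 20480 * Real.exp 22 * L ^ 5 ≤ K * L ^ 5 :=
      mul_le_mul_of_nonneg_right hK (by positivity)
    linarith [h.W_facts.2.2.2]
  · nlinarith

theorem Kg.tau1 (h : Kg θ δ β ε K K1 L l q R x y W Z P0) :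
    ∑ p ∈ pw P0 x, 2 * Real.exp 1 * PP (lL W Z) * N3 q y p ≤
      δ * (y * (PP (lS W) * PP (lL W Z))) := by
  have hl := h.l_ge
  have hL := h.L_ge
  have hL0 : 0 < L := by linarith
  have hq := h.q_ge
  have hq0 : 0 < q := by linarith
  have hy := h.yR
  have hV1 := PPL_pos (W := W) (Z := Z)
  have hδ0 := h.hδ0
  have hβ0 := h.hβ0
  have hP := h.P_facts
  have hK1q := h.K1q_ge
  have hlq2 := h.lq_le2
  have hK1 := h.K1_ge
  have he := Real.exp_pos 1
  have s2 : ∑ p ∈ pw P0 x, 1 / (p : ℝ) ≤ 3 * (K1 * q) / L := by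
    rw [sum_pw h.P_le_x]
    have h1 := h.win (v := P0) (D := K1 * q + 1) hP.2.2.2.2 h.P_le_x (by linarith)
      (by linarith) (by linarith)
    refine h1.trans ?_
    apply div_le_div_of_nonneg_right _ hL0.le
    linarith
  have s3 : ∑ p ∈ pw P0 x, N3 q y p ≤ 9 * (K1 * (y / L)) := by
    have e1 : ∀ p ∈ pw P0 x, N3 q y p = 3 * y / q * (1 / (p : ℝ)) := by
      intro p hp
      have hp0 : (0 : ℝ) < p := by exact_mod_cast (mem_pw.1 hp).1.pos
      unfold N3
      field_simp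
    rw [sum_congr rfl e1, ← mul_sum]
    refine (mul_le_mul_of_nonneg_left s2 (by positivity)).trans (le_of_eq ?_)
    field_simp
    ring
  rw [← mul_sum]
  have b1 : 2 * Real.exp 1 * PP (lL W Z) * ∑ p ∈ pw P0 x, N3 q y p ≤
      2 * Real.exp 1 * PP (lL W Z) * (9 * (K1 * (y / L))) :=
    mul_le_mul_of_nonneg_left s3 (by positivity)
  refine b1.trans ?_
  have hV := h.V2_ge'
  have a3 : δ * (y * (Real.exp (-21) / (2 * q) * PP (lL W Z))) ≤
      δ * (y * (PP (lS W) * PP (lL W Z))) := by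
    apply mul_le_mul_of_nonneg_left _ hδ0.le
    apply mul_le_mul_of_nonneg_left _ hy.le
    exact mul_le_mul_of_nonneg_right hV hV1.le
  refine le_trans ?_ a3
  have h21 : Real.exp (-21) * Real.exp 21 = 1 := by
    rw [← Real.exp_add]
    norm_num
  have h22 : Real.exp 22 = Real.exp 1 * Real.exp 21 := by
    rw [← Real.exp_add]
    norm_num
  have b5 : 36 * Real.exp 1 * (K1 * β) ≤ δ * Real.exp (-21) := by
    have c1 := h.hβ
    have c2 := mul_le_mul_of_nonneg_right c1 (Real.exp_pos (-21)).le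
    rw [h22] at c2
    have c3 : β * (K1 * (36 * (Real.exp 1 * Real.exp 21))) * Real.exp (-21) =
        36 * Real.exp 1 * (K1 * β) * (Real.exp (-21) * Real.exp 21) := by ring
    rw [c3, h21, mul_one] at c2
    exact c2
  have b6 : 18 * Real.exp 1 * (K1 / L) ≤ δ * (Real.exp (-21) / (2 * q)) := by
    rw [← mul_div_assoc δ, le_div_iff₀ (by positivity)]
    calc 18 * Real.exp 1 * (K1 / L) * (2 * q) = 36 * Real.exp 1 * (K1 * q / L) := by ring
      _ = 36 * Real.exp 1 * (K1 * β) := by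
          rw [h.hq]
          field_simp
      _ ≤ _ := b5
  have b7 := mul_le_mul_of_nonneg_right b6 (show 0 ≤ (y : ℝ) * PP (lL W Z) by positivity)
  calc 2 * Real.exp 1 * PP (lL W Z) * (9 * (K1 * (y / L))) =
      18 * Real.exp 1 * (K1 / L) * (y * PP (lL W Z)) := by ring
    _ ≤ δ * (Real.exp (-21) / (2 * q)) * (y * PP (lL W Z)) := b7
    _ = _ := by ring

theorem Kg.tau2 (h : Kg θ δ β ε K K1 L l q R x y W Z P0) :
    11 * (2 * Real.exp q + 2 * W) * (pw P0 x).card ≤ δ * (y * (PP (lS W) * PP (lL W Z))) := by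
  have hl := h.l_ge
  have hL := h.L_ge
  have hL0 : 0 < L := by linarith
  have hx := h.xR
  have hy := h.yR
  have hδ0 := h.hδ0
  have hW := h.W_facts
  have hn : ((pw P0 x).card : ℝ) ≤ x := by exact_mod_cast card_pw_le P0 x
  have b1 : 11 * (2 * Real.exp q + 2 * W) * ((pw P0 x).card : ℝ) ≤ 44 * Real.exp q * x := by
    have h1 : 11 * (2 * Real.exp q + 2 * (W : ℝ)) ≤ 44 * Real.exp q := by linarith [hW.1]
    exact mul_le_mul h1 hn (Nat.cast_nonneg _) (by positivity)
  refine b1.trans ?_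
  have hVV := h.VV
  have hyVV : δ * (y * (Real.exp (-22) / L)) ≤ δ * (y * (PP (lS W) * PP (lL W Z))) :=
    mul_le_mul_of_nonneg_left (mul_le_mul_of_nonneg_left hVV hy.le) hδ0.le
  refine le_trans ?_ hyVV
  have b2 : δ * (x * Real.exp (14 * q) * (Real.exp (-22) / L)) ≤ δ * (y * (Real.exp (-22) / L)) :=
    mul_le_mul_of_nonneg_left (mul_le_mul_of_nonneg_right h.y_ge (by positivity)) hδ0.le
  refine le_trans ?_ b2
  have b3 : 44 * L ≤ δ * Real.exp (13 * q) * Real.exp (-22) := by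
    have c1 : L ^ 2 * Real.exp (-22) ≤ Real.exp (13 * q) * Real.exp (-22) := by
      apply mul_le_mul_of_nonneg_right _ (Real.exp_pos _).le
      have e1 : L ^ 2 = Real.exp (2 * l) := by
        rw [← h.exp_l, ← Real.exp_nat_mul]
        norm_num
      rw [e1]
      apply Real.exp_le_exp.2
      linarith [h.hlq]
    have c2 := mul_le_mul_of_nonneg_left c1 hδ0.le
    have c3 := mul_le_mul_of_nonneg_right h.big.2.2
      (show 0 ≤ Real.exp (-22) * L by positivity)
    have c4 : 20480 * Real.exp 22 * (Real.exp (-22) * L) = 20480 * L *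
        (Real.exp (-22) * Real.exp 22) := by ring
    rw [c4, exp22, mul_one] at c3
    have c5 : L * δ * (Real.exp (-22) * L) = δ * (L ^ 2 * Real.exp (-22)) := by ring
    rw [c5] at c3
    linarith
  have b4 := mul_le_mul_of_nonneg_right b3 (show 0 ≤ x * Real.exp q / L by positivity)
  calc 44 * Real.exp q * x = 44 * L * (x * Real.exp q / L) := by field_simp
    _ ≤ δ * Real.exp (13 * q) * Real.exp (-22) * (x * Real.exp q / L) := b4
    _ = δ * (x * (Real.exp (13 * q) * Real.exp q) * (Real.exp (-22) / L)) := by ring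
    _ = _ := by
        rw [← Real.exp_add]
        congr 4
        ring

theorem Kg.tau_sum (h : Kg θ δ β ε K K1 L l q R x y W Z P0) :
    ∑ p ∈ pw P0 x, τ3 q y W Z p ≤ 2 * (δ * (y * (PP (lS W) * PP (lL W Z)))) := by
  unfold τ3
  rw [sum_add_distrib, sum_const, nsmul_eq_mul]
  have h1 := h.tau1
  have h2 := h.tau2
  linarith

theorem Kg.par3 (h : Kg θ δ β ε K K1 L l q R x y W Z P0) :
    Par3 x y W Z P0 δ (2 * Real.exp q) (fun _ => W) (fun p => N3 q y p)
      (fun p => τ3 q y W Z p) := by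
  have hl := h.l_ge
  have hL := h.L_ge
  have hL0 : 0 < L := by linarith
  have hy := h.yR
  have hV1 := PPL_pos (W := W) (Z := Z)
  have hV2 := PPS_pos (W := W)
  have hδ0 := h.hδ0
  have hδ1 := h.hδ1
  have he := Real.exp_pos 1
  have hW := h.W_facts
  have hq := h.q_ge
  have hq0 : 0 < q := by linarith
  have hW0 : (2 : ℝ) ≤ W := by exact_mod_cast hW.2.2.1
  have hbig := h.big
  refine ⟨fun p _ => le_rfl, ?_, ?_, ?_⟩
  · intro p hp b c'
    have hp' := mem_pw.1 hp
    have h5 := h.W2_le_Z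
    have h6 := h.Z_le_P
    have h7 : W ≤ W ^ 2 := by
      have := hW.2.2.1
      nlinarith
    have h8 := sel_small (t := q) hp'.1 (by exact_mod_cast hy) (by linarith) (h.sx hp)
      (by rw [← h.hW]; omega) b c'
    rw [← h.hW] at h8
    exact h8
  · intro p hp
    right
    show _ ≤ τ3 q y W Z p ∧ _ ≤ τ3 q y W Z p / _
    have hp' := mem_pw.1 hp
    have hp0 : (0 : ℝ) < p := by exact_mod_cast hp'.1.pos
    obtain ⟨X, hX⟩ : ∃ X : ℝ, X = (y : ℝ) / p := ⟨_, rfl⟩
    have hX0 : 0 < X := by rw [hX]; positivity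
    have hN : N3 q y p = 3 * (X / q) := by rw [hX]; rfl
    have hlog4 := log4_le
    have hlog40 : 0 ≤ Real.log 4 := Real.log_nonneg (by norm_num)
    have hE := Real.exp_pos q
    unfold τ3
    rw [hN, ← hX]
    constructor
    · have : 0 ≤ 11 * (2 * Real.exp q + 2 * (W : ℝ)) := by positivity
      linarith
    · have hK0 : 0 < 2 * Real.exp 1 * (X / (W : ℝ) ^ 2 + 1) := by positivity
      rw [le_div_iff₀ hK0]
      have he11 : 2 * Real.exp 1 ≤ 11 := by
        have := Real.exp_one_lt_d9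
        linarith
      have g1 : 2 * Real.exp q + W * Real.log 4 ≤ 2 * Real.exp q + 2 * W := by
        have : (W : ℝ) * Real.log 4 ≤ W * 2 := mul_le_mul_of_nonneg_left (by linarith) (by linarith)
        linarith
      have g2 : (2 * Real.exp q + 2 * W) * (2 * Real.exp 1) ≤ 11 * (2 * Real.exp q + 2 * W) := by
        have : (2 * Real.exp q + 2 * (W : ℝ)) * (2 * Real.exp 1) ≤
            (2 * Real.exp q + 2 * W) * 11 := mul_le_mul_of_nonneg_left he11 (by positivity)
        linarith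
      have g3 : (2 * Real.exp q + 2 * W) * (X / (W : ℝ) ^ 2) ≤ 3 * (PP (lL W Z) * (X / q)) := by
        have k1 : 2 * Real.exp q + 2 * (W : ℝ) ≤ 6 * W := by linarith [hW.2.1]
        have k2 : (2 * Real.exp q + 2 * W) * (X / (W : ℝ) ^ 2) ≤ 6 * W * (X / (W : ℝ) ^ 2) :=
          mul_le_mul_of_nonneg_right k1 (by positivity)
        refine k2.trans ?_
        have k3 : 6 * (W : ℝ) * (X / (W : ℝ) ^ 2) = X * (6 / W) := by
          field_simp
        have k4 : 3 * (PP (lL W Z) * (X / q)) = X * (3 * PP (lL W Z) / q) := by ring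
        rw [k3, k4]
        apply mul_le_mul_of_nonneg_left _ hX0.le
        rw [div_le_div_iff₀ (by linarith) hq0]
        have hV := h.V1_ge
        have k5 : Real.exp (-22) / L * W ≤ PP (lL W Z) * W :=
          mul_le_mul_of_nonneg_right hV (by linarith)
        have k6 : 2 * q ≤ Real.exp (-22) / L * W := by
          have k7 := mul_le_mul_of_nonneg_left hbig.1
            (show 0 ≤ Real.exp (-22) / L by positivity)
          have k8 : Real.exp (-22) / L * (20480 * Real.exp 22 * L ^ 5) =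
              20480 * L ^ 4 * (Real.exp (-22) * Real.exp 22) := by
            field_simp
          rw [k8, exp22, mul_one] at k7
          have k9 : L ≤ L ^ 4 := by
            calc L = L ^ 1 := (pow_one L).symm
              _ ≤ L ^ 4 := pow_le_pow_right₀ (by linarith) (by norm_num)
          have := h.q_le
          linarith
        linarith
      calc (2 * Real.exp q + W * Real.log 4) * (2 * Real.exp 1 * (X / (W : ℝ) ^ 2 + 1))
          ≤ (2 * Real.exp q + 2 * W) * (2 * Real.exp 1 * (X / (W : ℝ) ^ 2 + 1)) :=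
            mul_le_mul_of_nonneg_right g1 hK0.le
        _ = 2 * Real.exp 1 * ((2 * Real.exp q + 2 * W) * (X / (W : ℝ) ^ 2)) +
            (2 * Real.exp q + 2 * W) * (2 * Real.exp 1) := by ring
        _ ≤ 2 * Real.exp 1 * (3 * (PP (lL W Z) * (X / q))) + 11 * (2 * Real.exp q + 2 * W) :=
            add_le_add (mul_le_mul_of_nonneg_left g3 (by positivity)) g2
        _ = _ := by ring
  · have h1 := h.tau_sum
    have h2 := h.mertens
    obtain ⟨G, hG⟩ : ∃ G : ℝ, G = y * (PP (lS W) * PP (lL W Z)) := ⟨_, rfl⟩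
    have hG0 : 0 < G := by rw [hG]; positivity
    rw [← hG] at h1
    show (1 + δ) ^ 2 * y * PP (lS W) * PP (lL W Z) * (FF P0 - FF Z) +
      ∑ p ∈ pw P0 x, τ3 q y W Z p < (1 - δ) ^ 2 * y * PP (lS W) * PP (lL W Z)
    have e1 : (1 + δ) ^ 2 * y * PP (lS W) * PP (lL W Z) * (FF P0 - FF Z) =
        G * ((1 + δ) ^ 2 * (FF P0 - FF Z)) := by rw [hG]; ring
    have e2 : (1 - δ) ^ 2 * y * PP (lS W) * PP (lL W Z) = G * (1 - δ) ^ 2 := by rw [hG]; ring
    rw [e1, e2]
    have h3 : (1 + δ) ^ 2 * (FF P0 - FF Z) ≤ (1 + δ) ^ 2 * (1 - 15 * δ) :=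
      mul_le_mul_of_nonneg_left h2 (by positivity)
    have h4 : (1 + δ) ^ 2 * (1 - 15 * δ) + 4 * δ < (1 - δ) ^ 2 := by
      have h1 : 0 < δ ^ 3 := by positivity
      have h2 : 0 < δ ^ 2 := by positivity
      have h3 : (1 - δ) ^ 2 - ((1 + δ) ^ 2 * (1 - 15 * δ) + 4 * δ) =
          7 * δ + 30 * δ ^ 2 + 15 * δ ^ 3 := by
        ring
      linarith
    have h5 := mul_le_mul_of_nonneg_left h3 hG0.le
    have h6 := mul_lt_mul_of_pos_left h4 hG0
    rw [mul_add] at h6
    have h7 : G * (4 * δ) = 4 * (δ * G) := by ring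
    have h8 : 0 < δ * G := by positivity
    linarith

theorem Kg.sum_le (h : Kg θ δ β ε K K1 L l q R x y W Z P0) :
    ((4 ^ W : ℕ) : ℝ) * Real.exp (-(((W * ⌈L⌉₊ : ℕ) : ℝ) * δ / 2)) +
      ((x * x * 4 ^ W : ℕ) : ℝ) * Real.exp (-(((W * ⌈L⌉₊ : ℕ) : ℝ) * δ / 4)) +
      ((x * x : ℕ) : ℝ) * Real.exp (-(2 * Real.exp q)) ≤ Real.exp (-Real.exp q) := by
  have hl := h.l_ge
  have hL := h.L_ge
  have hδ0 := h.hδ0
  have hW := h.W_facts
  have hbig := h.big
  obtain ⟨F, hF⟩ : ∃ F : ℝ, F = Real.exp q := ⟨_, rfl⟩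
  have hF2 : F ≤ 2 * W := by
    rw [hF]
    exact hW.2.1
  have hF1 : (W : ℝ) ≤ F := by
    rw [hF]
    exact hW.1
  rw [← hF]
  obtain ⟨b3, b4, b5⟩ := hbig
  have hW0 : (2 : ℝ) ≤ W := by exact_mod_cast hW.2.2.1
  have hCL1 : L ≤ (⌈L⌉₊ : ℝ) := Nat.le_ceil _
  have hk : (W : ℝ) * L * δ ≤ ((W * ⌈L⌉₊ : ℕ) : ℝ) * δ := by
    rw [Nat.cast_mul]
    exact mul_le_mul_of_nonneg_right (mul_le_mul_of_nonneg_left hCL1 (by linarith)) hδ0.le
  have h4 : ((4 ^ W : ℕ) : ℝ) ≤ Real.exp (2 * W) := by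
    rw [Nat.cast_pow, mul_comm (2 : ℝ), Real.exp_nat_mul]
    refine pow_le_pow_left₀ (by norm_num) ?_ W
    have := Real.add_one_le_exp (1 : ℝ)
    have e2 : Real.exp 2 = Real.exp 1 * Real.exp 1 := by
      rw [← Real.exp_add]
      norm_num
    rw [e2]
    push_cast
    nlinarith
  have hxx : ((x * x : ℕ) : ℝ) = Real.exp (2 * L) := by
    rw [Nat.cast_mul, h.x_eq, ← Real.exp_add]
    congr 1
    ring
  have hLδ : 20480 ≤ L * δ := by
    have : (1 : ℝ) ≤ Real.exp 22 := Real.one_le_exp (by norm_num)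
    linarith
  have hWL : L ^ 2 + 2 * L + 2 ≤ W := by
    have h1 : L ^ 2 ≤ L ^ 5 := pow_le_pow_right₀ (by linarith) (by norm_num)
    have h2 : 20480 * L ^ 5 ≤ 20480 * Real.exp 22 * L ^ 5 := by
      apply mul_le_mul_of_nonneg_right _ (by positivity)
      have : (1 : ℝ) ≤ Real.exp 22 := Real.one_le_exp (by norm_num)
      linarith
    nlinarith
  have hL2 : 0 ≤ L ^ 2 := by positivity
  have hkey : 2 * (W : ℝ) + 2 * L + F + 2 ≤ W * L * δ / 4 := by
    have h1 : (W : ℝ) * 20480 ≤ W * (L * δ) := mul_le_mul_of_nonneg_left hLδ (by linarith)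
    linarith
  have hexp : Real.exp (-(F + 2)) * 3 ≤ Real.exp (-F) := by
    have h1 : (3 : ℝ) ≤ Real.exp 2 := by
      have := Real.add_one_le_exp (2 : ℝ)
      linarith
    have h2 : Real.exp (-F) = Real.exp (-(F + 2)) * Real.exp 2 := by
      rw [← Real.exp_add]
      congr 1
      ring
    rw [h2]
    exact mul_le_mul_of_nonneg_left h1 (Real.exp_pos _).le
  have hWLδ : 0 ≤ (W : ℝ) * L * δ := by positivity
  have t1 : ((4 ^ W : ℕ) : ℝ) * Real.exp (-(((W * ⌈L⌉₊ : ℕ) : ℝ) * δ / 2)) ≤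
      Real.exp (-(F + 2)) := by
    refine (mul_le_mul_of_nonneg_right h4 (Real.exp_pos _).le).trans ?_
    rw [← Real.exp_add]
    apply Real.exp_le_exp.2
    linarith
  have t2 : ((x * x * 4 ^ W : ℕ) : ℝ) * Real.exp (-(((W * ⌈L⌉₊ : ℕ) : ℝ) * δ / 4)) ≤
      Real.exp (-(F + 2)) := by
    rw [Nat.cast_mul (x * x), hxx]
    refine (mul_le_mul_of_nonneg_right (mul_le_mul_of_nonneg_left h4 (Real.exp_pos _).le)
      (Real.exp_pos _).le).trans ?_
    rw [← Real.exp_add, ← Real.exp_add]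
    apply Real.exp_le_exp.2
    linarith
  have t3 : ((x * x : ℕ) : ℝ) * Real.exp (-(2 * F)) ≤ Real.exp (-(F + 2)) := by
    rw [hxx, ← Real.exp_add]
    apply Real.exp_le_exp.2
    linarith
  linarith

theorem Kg.final (h : Kg θ δ β ε K K1 L l q R x y W Z P0) :
    (({m | m < ∏ p ∈ pw W Z, p ∧ Cov x y W Z m} : Set ℕ).ncard : ℝ) ≤
      ((∏ p ∈ pw W Z, p : ℕ) : ℝ) * Real.exp (-Real.exp q) :=
  (core h.par h.par3).trans (mul_le_mul_of_nonneg_left h.sum_le (Nat.cast_nonneg _))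

end Pool.MP42e49e.KN
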