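import Pool.Agent.H.MP_0c96e5_nt.KEnd

/-!
# The theorem
-/

set_option autoImplicit false

open Finset Filter

namespace Pool.MP42e49e.KN

open Pool.Agent.H.MP_3e6494_nt (prm mem_prm)

theorem exists_reg {θ ε : ℝ} (h0 : Real.exp (-1) < θ) (h1 : θ < 1) (hε : 0 < ε) :
    ∃ (δ β K K1 : ℝ) (R : ℕ), 0 < β ∧ β < θ ∧ ∀ᶠ x : ℕ in atTop, ∀ y : ℕ,
      x * Real.exp (ε * Real.log x) ≤ y →
      Kg θ δ β ε K K1 (Real.log x) (Real.log (Real.log x)) (β * Real.log x) R x y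
        ⌊Real.exp (β * Real.log x)⌋₊
        ⌊Real.exp (θ * Real.log x)⌋₊
        ⌊Real.exp (Real.log x - K1 * (β * Real.log x))⌋₊ := by
  have hθpos : 0 < θ := (Real.exp_pos _).trans h0
  have hθ3 : 1 / 3 < θ := by
    have := Real.exp_neg_one_gt_d9
    linarith
  have hlog1 : -1 < Real.log θ := by
    rw [Real.lt_log_iff_exp_lt hθpos]
    exact h0
  have hlog2 : Real.log θ < 0 := Real.log_neg hθpos h1
  obtain ⟨δ, hδ⟩ : ∃ δ : ℝ, δ = (1 + Real.log θ) / 16 := ⟨_, rfl⟩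
  have hδ0 : 0 < δ := by
    rw [hδ]
    linarith
  have hδ1 : δ ≤ 1 / 16 := by
    rw [hδ]
    linarith
  have he22 : (1 : ℝ) ≤ Real.exp 22 := Real.one_le_exp (by norm_num)
  obtain ⟨R, hR1, hR2⟩ : ∃ R : ℕ, 115 ≤ R ∧ 60 ≤ δ * 42 ^ R := by
    have h2 : Tendsto (fun n : ℕ => δ * (42 : ℝ) ^ n) atTop atTop :=
      (tendsto_pow_atTop_atTop_of_one_lt (by norm_num)).const_mul_atTop hδ0
    obtain ⟨R, h3, h4⟩ := ((eventually_ge_atTop 115).and (h2.eventually_ge_atTop 60)).exists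
    exact ⟨R, h3, h4⟩
  obtain ⟨K1, hK1⟩ : ∃ K1 : ℝ, K1 = 4 * R + 28 := ⟨_, rfl⟩
  have hK1' : 488 ≤ K1 := by
    have h2 : (115 : ℝ) ≤ R := by exact_mod_cast hR1
    rw [hK1]
    linarith
  have hK10 : 0 < K1 := by linarith
  obtain ⟨β, hβ⟩ : ∃ β : ℝ, β = min (min (δ / (K1 * (36 * Real.exp 22))) (ε / 14))
    ((1 - θ) / K1) := ⟨_, rfl⟩
  have hβ0 : 0 < β := by
    rw [hβ]
    exact lt_min (lt_min (by positivity) (by linarith)) (div_pos (by linarith) hK10)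
  have hβ1 : β * (K1 * (36 * Real.exp 22)) ≤ δ := by
    rw [← le_div_iff₀ (by positivity), hβ]
    exact (min_le_left _ _).trans (min_le_left _ _)
  have hβ2 : 14 * β ≤ ε := by
    have : β ≤ ε / 14 := by
      rw [hβ]
      exact (min_le_left _ _).trans (min_le_right _ _)
    linarith
  have hβ3 : K1 * β ≤ 1 - θ := by
    have : β ≤ (1 - θ) / K1 := by
      rw [hβ]
      exact min_le_right _ _
    rw [le_div_iff₀ hK10] at this
    linarith
  have hβθ : β < θ := by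
    have h2 : 488 * β ≤ K1 * β := mul_le_mul_of_nonneg_right hK1' hβ0.le
    linarith
  obtain ⟨K, hK⟩ : ∃ K : ℝ, K = 1000 + 20480 * Real.exp 22 / δ := ⟨_, rfl⟩
  have k1 : 0 ≤ 20480 * Real.exp 22 / δ := by positivity
  have hK2 : 20480 * Real.exp 22 ≤ K * δ := by
    rw [← div_le_iff₀ hδ0]
    linarith
  refine ⟨δ, β, K, K1, R, hβ0, hβθ, ?_⟩
  have tL : Tendsto (fun x : ℕ => Real.log (x : ℝ)) atTop atTop :=
    Real.tendsto_log_atTop.comp tendsto_natCast_atTop_atTop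
  have tl : Tendsto (fun x : ℕ => Real.log (Real.log (x : ℝ))) atTop atTop :=
    Real.tendsto_log_atTop.comp tL
  filter_upwards [eventually_ge_atTop 1, tl.eventually_ge_atTop K,
    tL.eventually (ev_log_pow (300 / β) 1)] with x hx e1 e2
  intro y hy1
  refine
    { hθ0 := h0
      hθ1 := h1
      hδ := by rw [hδ]; ring
      hδ0 := hδ0
      hδ1 := hδ1
      hR := hR1
      hR2 := hR2
      hK1R := hK1
      hβ0 := hβ0
      hβ := hβ1
      hβε := hβ2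
      hβθ := hβ3
      hx := hx
      hL := rfl
      hl := rfl
      hq := rfl
      hK := by linarith
      hK2 := hK2
      hKl := e1
      hlq := ?_
      hW := rfl
      hZ := rfl
      hP := rfl
      hy1 := hy1 }
  rw [pow_one, div_mul_eq_mul_div, div_le_iff₀ hβ0] at e2
  linarith

/-- a residue `a` such that some block of `y` integers, beginning after an integer congruent to
`a`, has no integer prime to the primorial -/
theorem cov_of_block {x y W Z a : ℕ} {m : ℤ} (hm : m ≡ a [ZMOD ((∏ p ∈ pw W Z, p : ℕ) : ℤ)])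
    (hb : ∀ n : ℤ, m < n → n ≤ m + y → ¬ IsCoprime n (primorial x : ℤ)) : Cov x y W Z a := by
  refine ⟨fun _ => -m, fun n hn hcop => ?_⟩
  rw [mem_Icc] at hn
  have h1 := hb (m + n) (by omega) (by omega)
  rw [Int.isCoprime_iff_nat_coprime, Int.natAbs_natCast] at h1
  obtain ⟨p, hp, hpn, hpx⟩ := Nat.Prime.not_coprime_iff_dvd.1 h1
  have hpx' : p ≤ x := by
    unfold primorial at hpx
    obtain ⟨r, hr, hpr⟩ := (Prime.dvd_finsetProd_iff hp.prime _).1 hpx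
    rw [mem_filter, mem_range] at hr
    have := (Nat.prime_dvd_prime_iff_eq hp hr.2).1 hpr
    omega
  have hdvd : (p : ℤ) ∣ m + n := Int.natCast_dvd.2 hpn
  refine ⟨p, hp, hpx', ?_, ?_⟩
  · intro hpQ
    have h2 : (p : ℤ) ∣ ((∏ p ∈ pw W Z, p : ℕ) : ℤ) := by
      exact_mod_cast dvd_prod_of_mem (fun p => p) hpQ
    have h3 : (p : ℤ) ∣ a - m := h2.trans hm.dvd
    have h4 : (p : ℤ) ∣ ((a + n : ℕ) : ℤ) := by
      have h5 := dvd_add h3 hdvd
      push_cast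
      have h6 : (a : ℤ) + n = a - m + (m + n) := by ring
      rwa [h6]
    have h5 : p ∣ a + n := by exact_mod_cast h4
    have h6 : p ∣ ∏ p ∈ pw W Z, p := dvd_prod_of_mem _ hpQ
    have h7 := Nat.dvd_gcd h5 h6
    rw [hcop] at h7
    exact hp.one_lt.ne' (Nat.dvd_one.1 h7)
  · have h6 : (n : ℤ) - -m = m + n := by ring
    rw [h6]
    exact hdvd

/-- **Kanold's bound `x ^ (2 - C)`, for almost all residues modulo the product of the primes in
`(x ^ β, x ^ θ]`.** -/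
theorem main {θ C : ℝ} (h0 : Real.exp (-1) < θ) (h1 : θ < 1) (hC : C < 1) :
    ∃ β x₀ : ℝ, 0 < β ∧ β < θ ∧ ∀ x y M : ℕ, x₀ ≤ x → (x : ℝ) ^ (2 - C) ≤ y →
      M = ∏ p ∈ (Finset.range (x + 1)).filter
        (fun p : ℕ => p.Prime ∧ (x : ℝ) ^ β < p ∧ (p : ℝ) ≤ (x : ℝ) ^ θ), p →
      (({a : ℕ | a < M ∧ ∃ m : ℤ, m ≡ a [ZMOD (M : ℤ)] ∧
        ∀ n : ℤ, m < n → n ≤ m + y → ¬ IsCoprime n (primorial x : ℤ)} : Set ℕ).ncard : ℝ) ≤
        Real.exp (-(x : ℝ) ^ β) * M := by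
  obtain ⟨δ, β, K, K1, R, hβ0, hβθ, hev⟩ := exists_reg h0 h1 (show 0 < 1 - C by linarith)
  obtain ⟨N, hN⟩ := eventually_atTop.1 (hev.and (eventually_ge_atTop 3))
  refine ⟨β, N, hβ0, hβθ, ?_⟩
  intro x y M hx hy hM
  obtain ⟨hreg, hx3⟩ := hN x (by exact_mod_cast hx)
  have hx0 : (3 : ℝ) ≤ x := by exact_mod_cast hx3
  have hxp : (0 : ℝ) < x := by linarith
  have hpow : ∀ a : ℝ, (x : ℝ) ^ a = Real.exp (a * Real.log x) := by
    intro a
    rw [Real.rpow_def_of_pos hxp, mul_comm]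
  have hy' : x * Real.exp ((1 - C) * Real.log x) ≤ y := by
    refine le_trans (le_of_eq ?_) hy
    rw [hpow]
    conv_lhs => rw [← Real.exp_log hxp, Real.log_exp]
    rw [← Real.exp_add]
    congr 1
    ring
  have hfin := (hreg y hy').final
  obtain ⟨W, hW⟩ : ∃ W : ℕ, W = ⌊Real.exp (β * Real.log x)⌋₊ := ⟨_, rfl⟩
  obtain ⟨Z, hZ⟩ : ∃ Z : ℕ, Z = ⌊Real.exp (θ * Real.log x)⌋₊ := ⟨_, rfl⟩
  rw [← hW, ← hZ] at hfin
  have hQeq : (Finset.range (x + 1)).filter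
      (fun p : ℕ => p.Prime ∧ (x : ℝ) ^ β < p ∧ (p : ℝ) ≤ (x : ℝ) ^ θ) = pw W Z := by
    ext p
    rw [mem_filter, mem_range, mem_pw, hW, hZ, Nat.floor_lt (Real.exp_pos _).le,
      Nat.le_floor_iff (Real.exp_pos _).le, hpow, hpow]
    constructor
    · rintro ⟨-, h2⟩
      exact h2
    · intro h2
      refine ⟨?_, h2⟩
      have h3 : (p : ℝ) ≤ x := by
        refine h2.2.2.trans ?_
        calc Real.exp (θ * Real.log x) ≤ Real.exp (1 * Real.log x) := by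
              apply Real.exp_le_exp.2
              exact mul_le_mul_of_nonneg_right h1.le (Real.log_nonneg (by linarith))
          _ = x := by rw [one_mul, Real.exp_log hxp]
      have h4 : p ≤ x := by exact_mod_cast h3
      omega
  rw [hQeq] at hM
  rw [← hM] at hfin
  have hsub : ({a : ℕ | a < M ∧ ∃ m : ℤ, m ≡ a [ZMOD (M : ℤ)] ∧
        ∀ n : ℤ, m < n → n ≤ m + y → ¬ IsCoprime n (primorial x : ℤ)} : Set ℕ) ⊆
      {m | m < M ∧ Cov x y W Z m} := by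
    rintro a ⟨ha, m, hm, hb⟩
    refine ⟨ha, cov_of_block ?_ hb⟩
    rw [← hM]
    exact hm
  have hfinite : ({m | m < M ∧ Cov x y W Z m} : Set ℕ).Finite :=
    (Set.finite_lt_nat _).subset fun m hm => hm.1
  have h5 : ((({a : ℕ | a < M ∧ ∃ m : ℤ, m ≡ a [ZMOD (M : ℤ)] ∧
        ∀ n : ℤ, m < n → n ≤ m + y → ¬ IsCoprime n (primorial x : ℤ)} : Set ℕ).ncard : ℕ) : ℝ) ≤
      (({m | m < M ∧ Cov x y W Z m} : Set ℕ).ncard : ℝ) := by
    exact_mod_cast Set.ncard_le_ncard hsub hfinite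
  refine (h5.trans hfin).trans (le_of_eq ?_)
  rw [mul_comm, hpow]

end Pool.MP42e49e.KN
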