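import Pool.Agent.H.MP_0c96e5_nt.KReg

/-!
# The parameters satisfy the conditions of the first two events
-/

set_option autoImplicit false

open Finset Filter

namespace Pool.MP42e49e.KN

open Pool.Agent.H.MP_3e6494_nt (prm mem_prm)
open Pool.MP42e49e.R (floor_bounds FF_nonneg log4_le exp_neg_le_inv card_pw_log)

variable {θ δ β ε K K1 L l q : ℝ} {R x y W Z P0 : ℕ}

theorem Kg.Kδ (h : Kg θ δ β ε K K1 L l q R x y W Z P0) :
    20480 * Real.exp 22 ≤ K * δ ∧ 1 / K ≤ δ / 4 := by
  have h5 := h.hK2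
  have h3 : (1 : ℝ) ≤ Real.exp 22 := Real.one_le_exp (by norm_num)
  have h4 := h.hK
  refine ⟨h5, ?_⟩
  rw [div_le_iff₀ (by linarith)]
  nlinarith

theorem Kg.small_exp (h : Kg θ δ β ε K K1 L l q R x y W Z P0) {t : ℝ} (ht : 22 + 2 * l ≤ t) :
    Real.exp (-t) ≤ δ / 2 * (Real.exp (-22) / L) := by
  have h1 := h.l_ge
  have h2 := h.hKl
  have h3 := h.hK
  have h6 : Real.exp (-22) / L = Real.exp (-22 - l) := by
    rw [Real.exp_sub, h.exp_l]
  have h7 : Real.exp (-l) ≤ 1 / K := by
    refine (exp_neg_le_inv (by linarith)).trans ?_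
    exact one_div_le_one_div_of_le (by linarith) h2
  have h8 := h.Kδ.2
  have h9 := h.hδ0
  rw [h6]
  calc Real.exp (-t) ≤ Real.exp (-l + (-22 - l)) := Real.exp_le_exp.2 (by linarith)
    _ = Real.exp (-l) * Real.exp (-22 - l) := Real.exp_add _ _
    _ ≤ δ / 2 * Real.exp (-22 - l) :=
        mul_le_mul_of_nonneg_right (by linarith) (Real.exp_pos _).le

theorem Kg.par (h : Kg θ δ β ε K K1 L l q R x y W Z P0) :
    ParS x y W Z P0 (W * ⌈L⌉₊) δ (δ / (32 * l)) := by
  have hl := h.l_ge
  have hL := h.L_ge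
  have hq := h.q_ge
  have hδ0 := h.hδ0
  have hδ1 := h.hδ1
  have hW := h.W_facts
  have hKδ := h.Kδ
  have hlq := h.hlq
  have hK1q := h.K1q_ge
  have hW0 : (2 : ℝ) ≤ W := by exact_mod_cast hW.2.2.1
  have hV2 := h.V2_ge
  have hVV := h.VV
  have hPy := h.Py
  have hPy0 : (0 : ℝ) ≤ (P0 : ℝ) / y := by positivity
  have hCL1 : L ≤ (⌈L⌉₊ : ℝ) := Nat.le_ceil _
  have hCL2 : (⌈L⌉₊ : ℝ) ≤ 2 * L := by
    have := (Nat.ceil_lt_add_one (show 0 ≤ L by linarith)).le
    linarith
  refine ⟨hδ0, by linarith, by positivity, ?_, by omega, h.W2_le_Z, h.Z_le_P, h.P_le_x,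
    h.x_le_y, ?_, ?_, ?_, h.rs2L_le, ?_⟩
  · rw [div_le_one (by linarith)]
    linarith
  · apply Nat.one_le_iff_ne_zero.2
    apply Nat.mul_ne_zero (by omega)
    have : (0 : ℝ) < (⌈L⌉₊ : ℝ) := by linarith
    have h2 : 0 < ⌈L⌉₊ := by exact_mod_cast this
    omega
  · -- S1
    intro b d c hd hdP hdc
    refine fund (L := L) (l := l) (q := q) (R := R) (P0 := P0) hl h.exp_l h.hlq
      (by linarith [h.q_le]) hW.1 hW.2.1 hδ0 ?_ h.hR h.hR2 ?_ b c hd hdP hdc
    · have h1 : K * δ ≤ l * δ := mul_le_mul_of_nonneg_right h.hKl hδ0.le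
      have h2 : (1 : ℝ) ≤ Real.exp 22 := Real.one_le_exp (by norm_num)
      linarith [hKδ.1]
    · rw [← h.hK1R]
      have h1 := h.P_facts.1
      have h2 : (x : ℝ) ≤ y := by exact_mod_cast h.x_le_y
      calc (P0 : ℝ) * Real.exp (K1 * q) ≤ Real.exp (L - K1 * q) * Real.exp (K1 * q) :=
            mul_le_mul_of_nonneg_right h1 (Real.exp_pos _).le
        _ = x := by
            rw [← Real.exp_add, h.x_eq]
            congr 1
            ring
        _ ≤ y := h2
  · -- H3
    have h1 := h.rsL_le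
    have h2 : δ / (32 * l) * rs (lL W Z) ≤ δ / (32 * l) * (2 * l) :=
      mul_le_mul_of_nonneg_left h1 (by positivity)
    have h3 : δ / (32 * l) * (2 * l) = δ / 16 := by
      field_simp
      norm_num
    linarith
  · -- H4
    have hRHS : δ / (32 * l) * (Real.exp (-22) / L) ≤
        δ / (32 * l) * (PP (lS W) * PP (lL W Z)) :=
      mul_le_mul_of_nonneg_left hVV (by positivity)
    refine le_trans ?_ hRHS
    have hE : Real.exp (-22) = 1 / Real.exp 22 := by
      rw [Real.exp_neg, inv_eq_one_div]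
    have hE0 : 0 < Real.exp 22 := Real.exp_pos _
    have hlL := h.l_le
    have hK := h.hK
    have hL0 : 0 < L := by linarith
    have hl0 : 0 < l := by linarith
    -- first part
    have a1 : 16 * ((W * ⌈L⌉₊ : ℕ) : ℝ) * (1 / (W : ℝ) ^ 2) ≤
        1 / 2 * (δ / (32 * l) * (Real.exp (-22) / L)) := by
      have b1 : 16 * ((W * ⌈L⌉₊ : ℕ) : ℝ) * (1 / (W : ℝ) ^ 2) = 16 * (⌈L⌉₊ : ℝ) / W := by
        push_cast
        field_simp
      have b2 : 16 * (⌈L⌉₊ : ℝ) / W ≤ 32 * L / (K * L ^ 5) := by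
        apply div_le_div₀ (by positivity) (by linarith) (by positivity) hW.2.2.2
      have b3 : 32 * L / (K * L ^ 5) ≤ 1 / 2 * (δ / (32 * l) * (Real.exp (-22) / L)) := by
        rw [hE, div_le_iff₀ (by positivity)]
        have e : 1 / 2 * (δ / (32 * l) * (1 / Real.exp 22 / L)) * (K * L ^ 5) =
            (K * δ) * L ^ 4 / (64 * l * Real.exp 22) := by
          field_simp
          norm_num
        rw [e, le_div_iff₀ (by positivity)]
        have c1 : l ≤ L := by linarith
        have c2 : 32 * L * (64 * l * Real.exp 22) ≤ 32 * L * (64 * L * Real.exp 22) := by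
          have : 64 * l * Real.exp 22 ≤ 64 * L * Real.exp 22 :=
            mul_le_mul_of_nonneg_right (by linarith) hE0.le
          exact mul_le_mul_of_nonneg_left this (by linarith)
        have c3 : (20480 * Real.exp 22) * L ^ 4 ≤ K * δ * L ^ 4 :=
          mul_le_mul_of_nonneg_right hKδ.1 (by positivity)
        have c4 : L ^ 2 ≤ L ^ 4 := pow_le_pow_right₀ (by linarith) (by norm_num)
        have c5 : Real.exp 22 * L ^ 2 ≤ Real.exp 22 * L ^ 4 := mul_le_mul_of_nonneg_left c4 hE0.le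
        nlinarith
      rw [b1]
      exact b2.trans b3
    have a2 : 16 * ((W * ⌈L⌉₊ : ℕ) : ℝ) * ((P0 : ℝ) / y) ≤
        1 / 2 * (δ / (32 * l) * (Real.exp (-22) / L)) := by
      have b1 : 16 * ((W * ⌈L⌉₊ : ℕ) : ℝ) * ((P0 : ℝ) / y) ≤
          16 * (Real.exp q * (2 * L)) * Real.exp (-(K1 * q)) := by
        apply mul_le_mul _ hPy hPy0 (by positivity)
        push_cast
        have : (W : ℝ) * ⌈L⌉₊ ≤ Real.exp q * (2 * L) :=
          mul_le_mul hW.1 hCL2 (Nat.cast_nonneg _) (Real.exp_pos _).le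
        linarith
      have b2 : 16 * (Real.exp q * (2 * L)) * Real.exp (-(K1 * q)) ≤
          32 * L * Real.exp (-(487 * q)) := by
        have e : 16 * (Real.exp q * (2 * L)) * Real.exp (-(K1 * q)) =
            32 * L * Real.exp (q + -(K1 * q)) := by
          rw [Real.exp_add]
          ring
        rw [e]
        apply mul_le_mul_of_nonneg_left _ (by linarith)
        apply Real.exp_le_exp.2
        linarith
      have b3 : Real.exp (-(487 * q)) ≤ δ / 2 * (Real.exp (-22) / L) * (1 / (64 * L ^ 3)) := by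
        have c1 := h.small_exp (t := 487 * q - 4 * l) (by linarith)
        have c2 : Real.exp (-(487 * q)) = Real.exp (-(487 * q - 4 * l)) *
            Real.exp (-(4 * l)) := by
          rw [← Real.exp_add]
          congr 1
          ring
        have c3 : Real.exp (-(4 * l)) = 1 / L ^ 4 := by
          rw [Real.exp_neg, show (4 : ℝ) * l = (4 : ℕ) * l by norm_num, Real.exp_nat_mul, h.exp_l,
            inv_eq_one_div]
        have c4 : 1 / L ^ 4 ≤ 1 / (64 * L ^ 3) := by
          apply one_div_le_one_div_of_le (by positivity)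
          have : 64 * L ^ 3 ≤ L * L ^ 3 := mul_le_mul_of_nonneg_right (by linarith) (by positivity)
          calc 64 * L ^ 3 ≤ L * L ^ 3 := this
            _ = L ^ 4 := by ring
        rw [c2, c3]
        exact mul_le_mul c1 c4 (by positivity) (by positivity)
      have b4 : 32 * L * (δ / 2 * (Real.exp (-22) / L) * (1 / (64 * L ^ 3))) ≤
          1 / 2 * (δ / (32 * l) * (Real.exp (-22) / L)) := by
        have e1 : 32 * L * (δ / 2 * (Real.exp (-22) / L) * (1 / (64 * L ^ 3))) =
            δ * (Real.exp (-22) / L) * (1 / (4 * L ^ 2)) := by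
          field_simp
          norm_num
        have e2 : 1 / 2 * (δ / (32 * l) * (Real.exp (-22) / L)) =
            δ * (Real.exp (-22) / L) * (1 / (64 * l)) := by
          field_simp
          norm_num
        rw [e1, e2]
        apply mul_le_mul_of_nonneg_left _ (by positivity)
        apply one_div_le_one_div_of_le (by positivity)
        nlinarith
      have b5 := mul_le_mul_of_nonneg_left b3 (by linarith : (0 : ℝ) ≤ 32 * L)
      linarith
    have a3 : 16 * ((W * ⌈L⌉₊ : ℕ) : ℝ) * (1 / (W : ℝ) ^ 2 + (P0 : ℝ) / y) =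
        16 * ((W * ⌈L⌉₊ : ℕ) : ℝ) * (1 / (W : ℝ) ^ 2) +
        16 * ((W * ⌈L⌉₊ : ℕ) : ℝ) * ((P0 : ℝ) / y) := by ring
    rw [a3]
    linarith

end Pool.MP42e49e.KN
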