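import Pool.Agent.H.MP_0c96e5_nt.KCore
import Pool.Agent.H.MP_42e49e_nt.Fund3
import Pool.Agent.H.MP_42e49e_nt.R2Sum

/-!
# The regime of the parameters
-/

set_option autoImplicit false

open Finset Filter

namespace Pool.MP42e49e.KN

open Pool.Agent.H.MP_3e6494_nt (prm mem_prm)
open Pool.MP42e49e.R (floor_bounds FF_nonneg log4_le exp_neg_le_inv card_pw_log)

/-- the regime -/
structure Kg (θ δ β ε K K1 L l q : ℝ) (R x y W Z P0 : ℕ) : Prop where
  hθ0 : Real.exp (-1) < θ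
  hθ1 : θ < 1
  hδ : 16 * δ = 1 + Real.log θ
  hδ0 : 0 < δ
  hδ1 : δ ≤ 1 / 16
  hR : 115 ≤ R
  hR2 : 60 ≤ δ * 42 ^ R
  hK1R : K1 = 4 * R + 28
  hβ0 : 0 < β
  hβ : β * (K1 * (36 * Real.exp 22)) ≤ δ
  hβε : 14 * β ≤ ε
  hβθ : K1 * β ≤ 1 - θ
  hx : 1 ≤ x
  hL : L = Real.log x
  hl : l = Real.log L
  hq : q = β * L
  hK : 1000 ≤ K
  hK2 : 20480 * Real.exp 22 ≤ K * δ
  hKl : K ≤ l
  hlq : 300 * l ≤ q
  hW : W = ⌊Real.exp q⌋₊
  hZ : Z = ⌊Real.exp (θ * L)⌋₊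
  hP : P0 = ⌊Real.exp (L - K1 * q)⌋₊
  hy1 : x * Real.exp (ε * L) ≤ y

variable {θ δ β ε K K1 L l q : ℝ} {R x y W Z P0 : ℕ}

theorem Kg.l_ge (h : Kg θ δ β ε K K1 L l q R x y W Z P0) : 1000 ≤ l := h.hK.trans h.hKl

theorem Kg.L_pos (h : Kg θ δ β ε K K1 L l q R x y W Z P0) : 0 < L := by
  by_contra h1
  have h2 : L = 0 ∨ L < 0 := by
    rcases lt_or_eq_of_le (not_lt.1 h1) with h3 | h3
    · exact Or.inr h3
    · exact Or.inl h3
  have h4 := h.l_ge
  rcases h2 with h2 | h2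
  · have h3 := h.hl
    rw [h2, Real.log_zero] at h3
    linarith
  · have h3 := h.hL
    have h5 : (1 : ℝ) ≤ x := by exact_mod_cast h.hx
    have h6 := Real.log_nonneg h5
    linarith

theorem Kg.exp_l (h : Kg θ δ β ε K K1 L l q R x y W Z P0) : Real.exp l = L := by
  rw [h.hl, Real.exp_log h.L_pos]

theorem Kg.l_le (h : Kg θ δ β ε K K1 L l q R x y W Z P0) : l + 1 ≤ L := by
  have := Real.add_one_le_exp l
  rwa [h.exp_l] at this

theorem Kg.x_eq (h : Kg θ δ β ε K K1 L l q R x y W Z P0) : (x : ℝ) = Real.exp L := by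
  have h5 : (1 : ℝ) ≤ x := by exact_mod_cast h.hx
  rw [h.hL, Real.exp_log (by linarith)]

theorem Kg.q_ge (h : Kg θ δ β ε K K1 L l q R x y W Z P0) : 300000 ≤ q := by
  linarith [h.l_ge, h.hlq]

theorem Kg.K1_ge (h : Kg θ δ β ε K K1 L l q R x y W Z P0) : 488 ≤ K1 := by
  rw [h.hK1R]
  have h1 : (115 : ℝ) ≤ R := by exact_mod_cast h.hR
  linarith

theorem Kg.β_le (h : Kg θ δ β ε K K1 L l q R x y W Z P0) :
    β ≤ 1 / 1000000 ∧ K1 * β ≤ 1 / 576 := by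
  have h1 := h.hβ
  have h2 : (1 : ℝ) ≤ Real.exp 22 := Real.one_le_exp (by norm_num)
  have h3 := h.hβ0
  have h4 := h.hδ1
  have h5 := h.K1_ge
  have h6 : 0 ≤ K1 * β := by positivity
  have h7 : K1 * β * 36 ≤ β * (K1 * (36 * Real.exp 22)) := by
    have : K1 * β * 36 * 1 ≤ K1 * β * 36 * Real.exp 22 :=
      mul_le_mul_of_nonneg_left h2 (by positivity)
    calc K1 * β * 36 = K1 * β * 36 * 1 := (mul_one _).symm
      _ ≤ _ := this
      _ = _ := by ring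
  have h8 : K1 * β ≤ 1 / 576 := by linarith
  have h10 : (23 : ℝ) ≤ Real.exp 22 := by
    have := Real.add_one_le_exp (22 : ℝ)
    linarith
  have h11 : K1 * β * 828 ≤ β * (K1 * (36 * Real.exp 22)) := by
    have : K1 * β * 36 * 23 ≤ K1 * β * 36 * Real.exp 22 :=
      mul_le_mul_of_nonneg_left h10 (by positivity)
    calc K1 * β * 828 = K1 * β * 36 * 23 := by ring
      _ ≤ _ := this
      _ = _ := by ring
  have h9 : 488 * β ≤ K1 * β := mul_le_mul_of_nonneg_right h5 h3.le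
  constructor
  · linarith
  · exact h8

theorem Kg.q_le (h : Kg θ δ β ε K K1 L l q R x y W Z P0) : q ≤ L / 1000000 := by
  have h2 := h.L_pos
  rw [h.hq]
  have h3 := mul_le_mul_of_nonneg_right h.β_le.1 h2.le
  linarith

theorem Kg.lq_le1 (h : Kg θ δ β ε K K1 L l q R x y W Z P0) : K1 * q ≤ (1 - θ) * L := by
  have h2 := h.L_pos
  rw [h.hq]
  have h5 := mul_le_mul_of_nonneg_right h.hβθ h2.le
  linarith

theorem Kg.lq_le2 (h : Kg θ δ β ε K K1 L l q R x y W Z P0) : K1 * q ≤ L / 8 := by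
  have h2 := h.L_pos
  rw [h.hq]
  have h5 := mul_le_mul_of_nonneg_right h.β_le.2 h2.le
  linarith

theorem Kg.K1q_ge (h : Kg θ δ β ε K K1 L l q R x y W Z P0) : 488 * q ≤ K1 * q := by
  have h1 := h.K1_ge
  have h2 := h.q_ge
  exact mul_le_mul_of_nonneg_right h1 (by linarith)

theorem Kg.W_facts (h : Kg θ δ β ε K K1 L l q R x y W Z P0) : (W : ℝ) ≤ Real.exp q ∧
    Real.exp q ≤ 2 * W ∧ 2 ≤ W ∧ K * L ^ 5 ≤ W := by
  have h1 := h.l_ge
  have h2 := h.q_ge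
  have h2' := h.hlq
  have h3 := floor_bounds (t := q) (by linarith)
  rw [← h.hW] at h3
  refine ⟨h3.1, h3.2.1, h3.2.2.2.2, ?_⟩
  have h4 : Real.exp (7 * l) ≤ Real.exp q := Real.exp_le_exp.2 (by linarith)
  have h5 : Real.exp (7 * l) = L ^ 7 := by
    rw [show (7 : ℝ) * l = (7 : ℕ) * l by norm_num, Real.exp_nat_mul, h.exp_l]
  rw [h5] at h4
  have h6 := h.l_le
  have h7 : K ≤ L := by linarith [h.hKl]
  have hL0 := h.L_pos
  have h8 : K * L ^ 5 ≤ L * L ^ 5 := mul_le_mul_of_nonneg_right h7 (by positivity)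
  have h9 : 2 * L ^ 6 ≤ L * L ^ 6 := mul_le_mul_of_nonneg_right (by linarith) (by positivity)
  have h10 : L * L ^ 5 = L ^ 6 := by ring
  have h11 : L * L ^ 6 = L ^ 7 := by ring
  linarith [h3.2.1]

theorem Kg.theta_ge (h : Kg θ δ β ε K K1 L l q R x y W Z P0) : 1 / 3 < θ := by
  have h1 := h.hθ0
  have := Real.exp_neg_one_gt_d9
  linarith

theorem Kg.L_ge (h : Kg θ δ β ε K K1 L l q R x y W Z P0) : 1000 ≤ L := by
  linarith [h.l_ge, h.l_le]

theorem Kg.Z_facts (h : Kg θ δ β ε K K1 L l q R x y W Z P0) : (Z : ℝ) ≤ Real.exp (θ * L) ∧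
    Real.exp (θ * L) ≤ 2 * Z ∧ θ * L - 1 ≤ Real.log Z ∧ Real.log Z ≤ θ * L ∧ 2 ≤ Z := by
  have h1 := h.theta_ge
  have h2 := h.L_ge
  have h3 := floor_bounds (t := θ * L) (by nlinarith)
  rw [← h.hZ] at h3
  exact h3

theorem Kg.P_facts (h : Kg θ δ β ε K K1 L l q R x y W Z P0) :
    (P0 : ℝ) ≤ Real.exp (L - K1 * q) ∧
    Real.exp (L - K1 * q) ≤ 2 * P0 ∧ L - K1 * q - 1 ≤ Real.log P0 ∧
    Real.log P0 ≤ L - K1 * q ∧ 2 ≤ P0 := by
  have h1 := h.lq_le2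
  have h2 := h.L_ge
  have h3 := floor_bounds (t := L - K1 * q) (by linarith)
  rw [← h.hP] at h3
  exact h3

theorem Kg.W2_le_Z (h : Kg θ δ β ε K K1 L l q R x y W Z P0) : W ^ 2 ≤ Z := by
  have h1 := h.W_facts.1
  have h2 := h.Z_facts.2.1
  have h3 := h.q_le
  have h4 := h.theta_ge
  have h5 := h.L_ge
  have h6 : ((W ^ 2 : ℕ) : ℝ) ≤ Real.exp (2 * q) := by
    rw [Nat.cast_pow, show (2 : ℝ) * q = (2 : ℕ) * q by norm_num, Real.exp_nat_mul]
    exact pow_le_pow_left₀ (Nat.cast_nonneg _) h1 2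
  have h7 : Real.exp (2 * q) * 2 ≤ Real.exp (θ * L) := by
    have h8 : (2 : ℝ) ≤ Real.exp 1 := by
      have := Real.add_one_le_exp (1 : ℝ)
      linarith
    calc Real.exp (2 * q) * 2 ≤ Real.exp (2 * q) * Real.exp 1 :=
          mul_le_mul_of_nonneg_left h8 (Real.exp_pos _).le
      _ = Real.exp (2 * q + 1) := by rw [Real.exp_add]
      _ ≤ Real.exp (θ * L) := Real.exp_le_exp.2 (by nlinarith)
  have h9 : ((W ^ 2 : ℕ) : ℝ) ≤ Z := by linarith
  exact_mod_cast h9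

theorem Kg.Z_le_P (h : Kg θ δ β ε K K1 L l q R x y W Z P0) : Z ≤ P0 := by
  rw [h.hZ, h.hP]
  apply Nat.floor_mono
  apply Real.exp_le_exp.2
  linarith [h.lq_le1]

theorem Kg.P_le_x (h : Kg θ δ β ε K K1 L l q R x y W Z P0) : P0 ≤ x := by
  have h1 := h.P_facts.1
  have h2 : Real.exp (L - K1 * q) ≤ Real.exp L := by
    apply Real.exp_le_exp.2
    have h4 := h.q_ge
    have := h.K1q_ge
    linarith
  rw [← h.x_eq] at h2
  exact_mod_cast h1.trans h2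

theorem Kg.x_le_y (h : Kg θ δ β ε K K1 L l q R x y W Z P0) : x ≤ y := by
  have h1 := h.hy1
  have h2 := h.L_ge
  have h3 : (0 : ℝ) ≤ x := Nat.cast_nonneg x
  have h4 : (x : ℝ) ≤ x * Real.exp (ε * L) := by
    apply le_mul_of_one_le_right h3
    apply Real.one_le_exp
    have h5 := h.hβε
    have h6 := h.hβ0
    exact mul_nonneg (by linarith) (by linarith)
  exact_mod_cast h4.trans h1

theorem rsS : rs (lS W) = FF (W ^ 2) := rs_toList _

theorem Kg.rsL (h : Kg θ δ β ε K K1 L l q R x y W Z P0) : rs (lL W Z) = FF Z - FF (W ^ 2) := by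
  unfold lL
  rw [rs_toList, sum_pw h.W2_le_Z]

theorem Kg.W2_ge (h : Kg θ δ β ε K K1 L l q R x y W Z P0) : 2 ≤ W ^ 2 := by
  have h1 := h.W_facts.2.2.1
  nlinarith

theorem Kg.logW2 (h : Kg θ δ β ε K K1 L l q R x y W Z P0) :
    Real.log ((W ^ 2 : ℕ) : ℝ) ≤ 2 * q := by
  have h1 := h.W_facts
  have h2 : (2 : ℝ) ≤ W := by exact_mod_cast h1.2.2.1
  have h3 := Real.log_le_log (by linarith) h1.1
  rw [Real.log_exp] at h3
  rw [Nat.cast_pow, Real.log_pow]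
  push_cast
  linarith

theorem Kg.FFW (h : Kg θ δ β ε K K1 L l q R x y W Z P0) :
    FF (W ^ 2) ≤ Real.log (2 * q) + 20 ∧ FF (W ^ 2) ≤ 2 * l := by
  have h1 := FF_le h.W2_ge
  have h2 := h.logW2
  have h3 : (2 : ℝ) ≤ ((W ^ 2 : ℕ) : ℝ) := by exact_mod_cast h.W2_ge
  have h4 : 0 < Real.log ((W ^ 2 : ℕ) : ℝ) := Real.log_pos (by linarith)
  have h5 := Real.log_le_log h4 h2
  refine ⟨by linarith, ?_⟩
  have h6 := h.q_le
  have h7 := h.l_ge
  have h8 := h.L_pos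
  have h9 : Real.log (2 * q) ≤ l := by
    rw [h.hl]
    exact Real.log_le_log (by linarith) (by linarith)
  linarith

theorem Kg.FFZ (h : Kg θ δ β ε K K1 L l q R x y W Z P0) : FF Z ≤ l + 20 := by
  have h1 := FF_le h.Z_facts.2.2.2.2
  have h3 : (2 : ℝ) ≤ (Z : ℝ) := by exact_mod_cast h.Z_facts.2.2.2.2
  have h4 : 0 < Real.log (Z : ℝ) := Real.log_pos (by linarith)
  have h5 : Real.log (Z : ℝ) ≤ L := by
    have := h.Z_facts.2.2.2.1
    have := h.hθ1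
    have := h.L_pos
    nlinarith
  have h6 := Real.log_le_log h4 h5
  rw [← h.hl] at h6
  linarith

theorem Kg.rsL_le (h : Kg θ δ β ε K K1 L l q R x y W Z P0) : rs (lL W Z) ≤ 2 * l := by
  rw [h.rsL]
  have h1 := h.FFZ
  have h2 := FF_nonneg (W ^ 2)
  have h3 := h.l_ge
  linarith

theorem Kg.rs2L_le (h : Kg θ δ β ε K K1 L l q R x y W Z P0) : rs2 (lL W Z) ≤ δ / 16 := by
  have hW := h.W_facts
  have h0 : (2 : ℝ) ≤ W := by exact_mod_cast hW.2.2.1
  have h1 := rs2_le (w := (W : ℝ) ^ 2) (by positivity) (lL W Z) (fun q hq => by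
    have := (mem_lL.1 hq).2.1
    have h2 : ((W ^ 2 + 1 : ℕ) : ℝ) ≤ q := by exact_mod_cast this
    push_cast at h2
    exact h2)
  refine h1.trans ?_
  have h2 := h.rsL_le
  have h3 := h.l_le
  have h4 := h.L_ge
  have h5 := hW.2.2.2
  have h6 := h.hK2
  have h7 := h.hδ0
  rw [div_le_iff₀ (by positivity)]
  have h8 : (32 : ℝ) ≤ K * δ := by
    have : (1 : ℝ) ≤ Real.exp 22 := Real.one_le_exp (by norm_num)
    nlinarith
  have hK := h.hK
  have h9 : K * L ≤ W := by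
    have h10 : L ≤ L ^ 5 := by
      calc L = L * 1 := (mul_one L).symm
        _ ≤ L * L ^ 4 := mul_le_mul_of_nonneg_left (one_le_pow₀ (by linarith)) (by linarith)
        _ = L ^ 5 := by ring
    have h11 : K * L ≤ K * L ^ 5 := mul_le_mul_of_nonneg_left h10 (by linarith)
    linarith
  have h12 : δ * (K * L) ≤ δ * W := mul_le_mul_of_nonneg_left h9 h7.le
  have h13 : 32 * L ≤ K * δ * L := mul_le_mul_of_nonneg_right h8 (by linarith)
  have h14 : δ * W ≤ δ * (W : ℝ) ^ 2 := mul_le_mul_of_nonneg_left (by nlinarith) h7.le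
  nlinarith

theorem Kg.VV (h : Kg θ δ β ε K K1 L l q R x y W Z P0) :
    Real.exp (-22) / L ≤ PP (lS W) * PP (lL W Z) := by
  have h1 := PP_ge (lS W) fun q hq => (mem_lS.1 hq).1.two_le
  have h2 := PP_ge (lL W Z) fun q hq => (mem_lL.1 hq).1.two_le
  have h3 : rs2 (lS W) ≤ 1 := rs2_prm _
  have h4 := h.rs2L_le
  have h5 := h.hδ1
  have h6 : Real.exp (-22) / L = Real.exp (-22 - l) := by
    rw [Real.exp_sub, h.exp_l]
  rw [h6]
  have h7 := rsS (W := W)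
  have h8 := h.rsL
  have h9 := h.FFZ
  calc Real.exp (-22 - l) ≤ Real.exp (-(rs (lS W) + rs2 (lS W)) + -(rs (lL W Z) + rs2 (lL W Z))) :=
        Real.exp_le_exp.2 (by linarith)
    _ = Real.exp (-(rs (lS W) + rs2 (lS W))) * Real.exp (-(rs (lL W Z) + rs2 (lL W Z))) :=
        Real.exp_add _ _
    _ ≤ _ := mul_le_mul h1 h2 (Real.exp_pos _).le PPS_pos.le

theorem V1_le : PP (lL W Z) ≤ 1 :=
  (PP_bound _ fun _ hq => (mem_lL.1 hq).1.pos).2

theorem V2_le : PP (lS W) ≤ 1 :=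
  (PP_bound _ fun _ hq => (mem_lS.1 hq).1.pos).2

theorem Kg.V2_ge (h : Kg θ δ β ε K K1 L l q R x y W Z P0) :
    Real.exp (-22) / L ≤ PP (lS W) := by
  have h1 := h.VV
  have h2 := V1_le (W := W) (Z := Z)
  have h3 := PPS_pos (W := W)
  nlinarith

theorem Kg.V1_ge (h : Kg θ δ β ε K K1 L l q R x y W Z P0) :
    Real.exp (-22) / L ≤ PP (lL W Z) := by
  have h1 := h.VV
  have h2 := V2_le (W := W)
  have h3 := PPL_pos (W := W) (Z := Z)
  nlinarith

theorem Kg.V2_ge' (h : Kg θ δ β ε K K1 L l q R x y W Z P0) :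
    Real.exp (-21) / (2 * q) ≤ PP (lS W) := by
  have h1 := PP_ge (lS W) fun q hq => (mem_lS.1 hq).1.two_le
  have h3 : rs2 (lS W) ≤ 1 := rs2_prm _
  have h7 := rsS (W := W)
  have h8 := h.FFW.1
  have h9 := h.q_ge
  have h10 := h.l_ge
  have hq : 0 < 2 * q := by linarith
  refine le_trans ?_ h1
  have h11 : Real.exp (-21) / (2 * q) = Real.exp (-21 - Real.log (2 * q)) := by
    rw [Real.exp_sub, Real.exp_log hq]
  rw [h11]
  exact Real.exp_le_exp.2 (by linarith)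

theorem Kg.Py (h : Kg θ δ β ε K K1 L l q R x y W Z P0) :
    (P0 : ℝ) / y ≤ Real.exp (-(K1 * q)) := by
  have h1 := h.P_facts.1
  have h2 : (x : ℝ) ≤ y := by exact_mod_cast h.x_le_y
  have h3 := h.x_eq
  have hx : (0 : ℝ) < x := by rw [h3]; exact Real.exp_pos _
  rw [div_le_iff₀ (by linarith)]
  calc (P0 : ℝ) ≤ Real.exp (L - K1 * q) := h1
    _ = Real.exp (-(K1 * q)) * x := by
        rw [h3, ← Real.exp_add]
        congr 1
        ring
    _ ≤ _ := mul_le_mul_of_nonneg_left h2 (Real.exp_pos _).le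

end Pool.MP42e49e.KN
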