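import Mathlib

/-!
# The functions of the linear sieve: existence

`Rs σ` solves `R s = 1 + σ ∫_1^(max s 2 - 1) R t / max t (1/2) dt`.
-/

set_option autoImplicit false

open MeasureTheory intervalIntegral

namespace Pool.LinSieve

/-- the weight `1 / t`, cut off at `1 / 2` -/
noncomputable def wt (t : ℝ) : ℝ := (max t (1 / 2))⁻¹

theorem wt_cont : Continuous wt := by
  unfold wt
  refine Continuous.inv₀ (continuous_id.max continuous_const) fun t => ?_
  have : (1 / 2 : ℝ) ≤ max t (1 / 2) := le_max_right _ _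
  intro h
  linarith

theorem wt_eq {t : ℝ} (h : 1 / 2 ≤ t) : wt t = t⁻¹ := by
  unfold wt
  rw [max_eq_left h]

theorem wt_pos (t : ℝ) : 0 < wt t := by
  unfold wt
  have : (1 / 2 : ℝ) ≤ max t (1 / 2) := le_max_right _ _
  positivity

/-- iterates -/
noncomputable def Rn (σ : ℝ) : ℕ → ℝ → ℝ
  | 0 => fun _ => 1
  | n + 1 => fun s => 1 + σ * ∫ t in (1 : ℝ)..(max s 2 - 1), Rn σ n t * wt t

theorem Rn_succ (σ : ℝ) (n : ℕ) (s : ℝ) :
    Rn σ (n + 1) s = 1 + σ * ∫ t in (1 : ℝ)..(max s 2 - 1), Rn σ n t * wt t := rfl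

theorem Rn_cont (σ : ℝ) (n : ℕ) : Continuous (Rn σ n) := by
  induction n with
  | zero => exact continuous_const
  | succ n ih =>
    have h1 : Continuous fun t => Rn σ n t * wt t := ih.mul wt_cont
    have h2 : Continuous fun s : ℝ => ∫ t in (1 : ℝ)..s, Rn σ n t * wt t :=
      intervalIntegral.continuous_primitive (fun a b => h1.intervalIntegrable a b) 1
    have h3 : Continuous fun s : ℝ => max s 2 - 1 := by fun_prop
    have h4 : Rn σ (n + 1) = fun s => 1 + σ * ∫ t in (1 : ℝ)..(max s 2 - 1), Rn σ n t * wt t := by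
      funext s
      rfl
    rw [h4]
    exact continuous_const.add (continuous_const.mul (h2.comp h3))

theorem Rn_step (σ : ℝ) (n : ℕ) : ∀ s : ℝ, s ≤ n + 2 → Rn σ (n + 1) s = Rn σ n s := by
  induction n with
  | zero =>
    intro s hs
    rw [Nat.cast_zero, zero_add] at hs
    rw [Rn_succ, max_eq_right hs]
    have : (2 : ℝ) - 1 = 1 := by norm_num
    rw [this, integral_same, mul_zero, add_zero]
    rfl
  | succ n ih =>
    intro s hs
    rw [Rn_succ σ (n + 1), Rn_succ σ n]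
    congr 2
    apply integral_congr
    intro t ht
    push_cast at hs
    have h1 : t ≤ n + 2 := by
      have h2 : (1 : ℝ) ≤ max s 2 - 1 := by
        have := le_max_right s 2
        linarith
      rw [Set.uIcc_of_le h2] at ht
      have h3 : max s 2 ≤ n + 1 + 2 := by
        apply max_le hs
        have : (0 : ℝ) ≤ n := Nat.cast_nonneg n
        linarith
      linarith [ht.2]
    show Rn σ (n + 1) t * wt t = Rn σ n t * wt t
    rw [ih t h1]

theorem Rn_stable (σ : ℝ) (n k : ℕ) {s : ℝ} (hs : s ≤ n + 2) : Rn σ (n + k) s = Rn σ n s := by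
  induction k with
  | zero => rfl
  | succ k ih =>
    rw [← ih, ← Nat.add_assoc]
    apply Rn_step
    push_cast
    have : (0 : ℝ) ≤ k := Nat.cast_nonneg k
    linarith

/-- the solution -/
noncomputable def Rs (σ s : ℝ) : ℝ := Rn σ ⌈s⌉₊ s

theorem Rs_eq (σ : ℝ) {n : ℕ} {s : ℝ} (hs : s ≤ n) : Rs σ s = Rn σ n s := by
  unfold Rs
  have h1 : ⌈s⌉₊ ≤ n := Nat.ceil_le.2 hs
  obtain ⟨k, rfl⟩ := Nat.exists_eq_add_of_le h1
  symm
  apply Rn_stable
  have := Nat.le_ceil s
  linarith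

theorem Rs_cont (σ : ℝ) : Continuous (Rs σ) := by
  rw [continuous_iff_continuousAt]
  intro s
  obtain ⟨n, hn⟩ := exists_nat_gt s
  have h1 : Rs σ =ᶠ[nhds s] Rn σ n := by
    filter_upwards [Iio_mem_nhds hn] with t ht
    exact Rs_eq σ (le_of_lt ht)
  exact (Rn_cont σ n).continuousAt.congr h1.symm

theorem Rs_int (σ s : ℝ) : Rs σ s = 1 + σ * ∫ t in (1 : ℝ)..(max s 2 - 1), Rs σ t * wt t := by
  obtain ⟨n, hn⟩ := exists_nat_gt (max s 2)
  have h1 : s ≤ ((n + 1 : ℕ) : ℝ) := by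
    push_cast
    have := le_max_left s 2
    linarith
  rw [Rs_eq σ h1, Rn_succ]
  congr 2
  apply integral_congr
  intro t ht
  have h2 : (1 : ℝ) ≤ max s 2 - 1 := by
    have := le_max_right s 2
    linarith
  rw [Set.uIcc_of_le h2] at ht
  show Rn σ n t * wt t = Rs σ t * wt t
  rw [Rs_eq σ (show t ≤ n by linarith [ht.2])]

theorem Rs_one (σ : ℝ) {s : ℝ} (h : s ≤ 2) : Rs σ s = 1 := by
  rw [Rs_int, max_eq_right h]
  have : (2 : ℝ) - 1 = 1 := by norm_num
  rw [this, integral_same, mul_zero, add_zero]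

theorem Rs_ii (σ a b : ℝ) : IntervalIntegrable (fun t => Rs σ t * wt t) volume a b :=
  ((Rs_cont σ).mul wt_cont).intervalIntegrable a b

/-- `(s - 1) r s = ∫_(s-1)^s r` -/
theorem r_avg {s : ℝ} (hs : 2 ≤ s) :
    (s - 1) * Rs (-1) s = ∫ t in (s - 1)..s, Rs (-1) t := by
  obtain ⟨g, hg⟩ : ∃ g : ℝ → ℝ, g = fun s => 1 + (-1) * ∫ t in (1 : ℝ)..(s - 1), Rs (-1) t * wt t :=
    ⟨_, rfl⟩
  have hgr : ∀ s, 2 ≤ s → g s = Rs (-1) s := by
    intro s hs
    rw [Rs_int, max_eq_left hs, hg]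
  have hcr := Rs_cont (-1)
  have hcw : Continuous fun t => Rs (-1) t * wt t := hcr.mul wt_cont
  have hgd : ∀ s, HasDerivAt g (-(Rs (-1) (s - 1) * wt (s - 1))) s := by
    intro s
    have h1 : HasDerivAt (fun u => ∫ t in (1 : ℝ)..u, Rs (-1) t * wt t)
        (Rs (-1) (s - 1) * wt (s - 1)) (s - 1) :=
      integral_hasDerivAt_right (hcw.intervalIntegrable _ _)
        (hcw.stronglyMeasurableAtFilter _ _) hcw.continuousAt
    have h2 : HasDerivAt (fun s : ℝ => s - 1) 1 s := (hasDerivAt_id s).sub_const 1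
    have h3 := h1.comp s h2
    have h4 := (h3.const_mul (-1)).const_add 1
    rw [hg]
    exact HasDerivAt.congr_deriv h4 (by ring)
  have hId : ∀ s, HasDerivAt (fun s => ∫ t in (s - 1)..s, Rs (-1) t)
      (Rs (-1) s - Rs (-1) (s - 1)) s := by
    intro s
    have e : (fun s : ℝ => ∫ t in (s - 1)..s, Rs (-1) t) =
        fun s => (∫ t in (0 : ℝ)..s, Rs (-1) t) - ∫ t in (0 : ℝ)..(s - 1), Rs (-1) t := by
      funext s
      rw [integral_interval_sub_left (hcr.intervalIntegrable _ _) (hcr.intervalIntegrable _ _)]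
    rw [e]
    have h1 : ∀ u, HasDerivAt (fun u => ∫ t in (0 : ℝ)..u, Rs (-1) t) (Rs (-1) u) u := fun u =>
      integral_hasDerivAt_right (hcr.intervalIntegrable _ _)
        (hcr.stronglyMeasurableAtFilter _ _) hcr.continuousAt
    have h2 : HasDerivAt (fun s : ℝ => s - 1) 1 s := (hasDerivAt_id s).sub_const 1
    have h3 := (h1 (s - 1)).comp s h2
    have h4 := (h1 s).sub h3
    exact HasDerivAt.congr_deriv h4 (by ring)
  obtain ⟨φ, hφ⟩ : ∃ φ : ℝ → ℝ, φ = fun s => (s - 1) * g s - ∫ t in (s - 1)..s, Rs (-1) t :=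
    ⟨_, rfl⟩
  have hφd : ∀ s, 2 ≤ s → HasDerivAt φ 0 s := by
    intro s hs
    have h1 : HasDerivAt (fun s : ℝ => s - 1) 1 s := (hasDerivAt_id s).sub_const 1
    have h2 := (h1.mul (hgd s)).sub (hId s)
    rw [hφ]
    refine HasDerivAt.congr_deriv h2 ?_
    rw [hgr s hs, wt_eq (by linarith)]
    have h3 : s - 1 ≠ 0 := by linarith
    field_simp
    ring
  have hconst := constant_of_has_deriv_right_zero (f := φ) (a := 2) (b := s)
    (fun t ht => (hφd t ht.1).continuousAt.continuousWithinAt)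
    (fun t ht => (hφd t ht.1).hasDerivWithinAt) s ⟨hs, le_rfl⟩
  have h2 : φ 2 = 0 := by
    rw [hφ]
    show (2 - 1) * g 2 - ∫ t in ((2 : ℝ) - 1)..2, Rs (-1) t = 0
    rw [hgr 2 le_rfl, Rs_one _ le_rfl]
    have h3 : ∫ t in ((2 : ℝ) - 1)..2, Rs (-1) t = ∫ t in ((2 : ℝ) - 1)..2, (1 : ℝ) := by
      apply integral_congr
      intro t ht
      rw [Set.uIcc_of_le (by norm_num)] at ht
      exact Rs_one _ ht.2
    rw [h3, intervalIntegral.integral_const]
    norm_num
  rw [h2, hφ] at hconst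
  have h4 : (s - 1) * g s - ∫ t in (s - 1)..s, Rs (-1) t = 0 := hconst
  rw [hgr s hs] at h4
  linarith

theorem r_pos (s : ℝ) : 0 < Rs (-1) s := by
  by_contra hneg
  have hcr := Rs_cont (-1)
  have hs2 : 2 ≤ s := by
    by_contra h1
    rw [Rs_one _ (le_of_lt (not_le.1 h1))] at hneg
    norm_num at hneg
  -- first zero
  obtain ⟨Z, hZ⟩ : ∃ Z : Set ℝ, Z = {t | t ∈ Set.Icc 2 s ∧ Rs (-1) t ≤ 0} := ⟨_, rfl⟩
  have hZc : IsCompact Z := by
    have h1 : Z = Set.Icc 2 s ∩ {t | Rs (-1) t ≤ 0} := by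
      rw [hZ]
      rfl
    rw [h1]
    exact isCompact_Icc.inter_right (isClosed_le hcr continuous_const)
  have hZn : Z.Nonempty := ⟨s, by
    rw [hZ]
    exact ⟨⟨hs2, le_rfl⟩, not_lt.1 hneg⟩⟩
  obtain ⟨z, hz⟩ := hZc.exists_isLeast hZn
  have hz1 := hz.1
  rw [hZ] at hz1
  obtain ⟨⟨hz2, hz3⟩, hz4⟩ := hz1
  have hpos : ∀ t, t < z → 0 < Rs (-1) t := by
    intro t ht
    by_contra h1
    rcases le_or_gt t 2 with h2 | h2
    · rw [Rs_one _ h2] at h1
      norm_num at h1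
    · have h3 : t ∈ Z := by
        rw [hZ]
        exact ⟨⟨h2.le, by linarith⟩, not_lt.1 h1⟩
      have := hz.2 h3
      linarith
  have h1 := r_avg hz2
  have h2 : 0 < ∫ t in (z - 1)..z, Rs (-1) t := by
    apply intervalIntegral_pos_of_pos_on (hcr.intervalIntegrable _ _) _ (by linarith)
    intro t ht
    exact hpos t ht.2
  have h3 : (z - 1) * Rs (-1) z ≤ 0 := mul_nonpos_of_nonneg_of_nonpos (by linarith) hz4
  linarith

end Pool.LinSieve
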