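import Pool.Agent.H.MP_0c96e5_nt.LinA

/-!
# The functions of the linear sieve: monotonicity
-/

set_option autoImplicit false

open MeasureTheory intervalIntegral

namespace Pool.LinSieve

theorem int_ge {g : ℝ → ℝ} (hg : Continuous g) {a b c : ℝ} (hab : a ≤ b)
    (h : ∀ t, a ≤ t → t ≤ b → c ≤ g t) : c * (b - a) ≤ ∫ t in a..b, g t := by
  have h1 := integral_mono_on (μ := volume) hab (continuous_const.intervalIntegrable a b)
    (hg.intervalIntegrable a b) (fun t ht => h t ht.1 ht.2 : ∀ t ∈ Set.Icc a b, (fun _ => c) t ≤ g t)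
  rw [intervalIntegral.integral_const] at h1
  rw [smul_eq_mul] at h1
  linarith

theorem int_le {g : ℝ → ℝ} (hg : Continuous g) {a b c : ℝ} (hab : a ≤ b)
    (h : ∀ t, a ≤ t → t ≤ b → g t ≤ c) : ∫ t in a..b, g t ≤ c * (b - a) := by
  have h1 := integral_mono_on (μ := volume) hab (hg.intervalIntegrable a b)
    (continuous_const.intervalIntegrable a b)
    (fun t ht => h t ht.1 ht.2 : ∀ t ∈ Set.Icc a b, g t ≤ (fun _ => c) t)
  rw [intervalIntegral.integral_const] at h1
  rw [smul_eq_mul] at h1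
  linarith

/-- `s F s` -/
noncomputable def La (s : ℝ) : ℝ := (Rs 1 s + Rs (-1) s) / 2

/-- `s f s` -/
noncomputable def Lb (s : ℝ) : ℝ := (Rs 1 s - Rs (-1) s) / 2

theorem La_cont : Continuous La := ((Rs_cont 1).add (Rs_cont (-1))).div_const 2

theorem Lb_cont : Continuous Lb := ((Rs_cont 1).sub (Rs_cont (-1))).div_const 2

theorem Lb_lt (s : ℝ) : Lb s < La s := by
  have := r_pos s
  unfold La Lb
  linarith

theorem Lb_zero {s : ℝ} (h : s ≤ 2) : Lb s = 0 := by
  unfold Lb
  rw [Rs_one _ h, Rs_one _ h]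
  norm_num

theorem Rs_sub (σ : ℝ) {s s' : ℝ} (h : 2 ≤ s) (h' : 2 ≤ s') :
    Rs σ s' - Rs σ s = σ * ∫ t in (s - 1)..(s' - 1), Rs σ t * wt t := by
  rw [Rs_int σ s, Rs_int σ s', max_eq_left h, max_eq_left h',
    ← integral_interval_sub_left (Rs_ii σ 1 (s' - 1)) (Rs_ii σ 1 (s - 1))]
  ring

theorem La_sub {s s' : ℝ} (h : 2 ≤ s) (h' : 2 ≤ s') :
    La s' - La s = ∫ t in (s - 1)..(s' - 1), Lb t * wt t := by
  have e : (fun t => Lb t * wt t) = fun t => (1 / 2) * (Rs 1 t * wt t) - (1 / 2) * (Rs (-1) t * wt t) := by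
    funext t
    unfold Lb
    ring
  rw [e, integral_sub ((Rs_ii 1 _ _).const_mul _) ((Rs_ii (-1) _ _).const_mul _),
    intervalIntegral.integral_const_mul, intervalIntegral.integral_const_mul]
  have h1 := Rs_sub 1 h h'
  have h2 := Rs_sub (-1) h h'
  unfold La
  linarith

theorem Lb_sub {s s' : ℝ} (h : 2 ≤ s) (h' : 2 ≤ s') :
    Lb s' - Lb s = ∫ t in (s - 1)..(s' - 1), La t * wt t := by
  have e : (fun t => La t * wt t) = fun t => (1 / 2) * (Rs 1 t * wt t) + (1 / 2) * (Rs (-1) t * wt t) := by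
    funext t
    unfold La
    ring
  rw [e, integral_add ((Rs_ii 1 _ _).const_mul _) ((Rs_ii (-1) _ _).const_mul _),
    intervalIntegral.integral_const_mul, intervalIntegral.integral_const_mul]
  have h1 := Rs_sub 1 h h'
  have h2 := Rs_sub (-1) h h'
  unfold Lb
  linarith

theorem La_one {s : ℝ} (h : s ≤ 3) : La s = 1 := by
  rcases le_or_gt s 2 with h1 | h1
  · unfold La
    rw [Rs_one _ h1, Rs_one _ h1]
    norm_num
  · have h2 := La_sub (le_refl 2) h1.le
    have h3 : La 2 = 1 := by
      unfold La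
      rw [Rs_one _ le_rfl, Rs_one _ le_rfl]
      norm_num
    have h4 : ∫ t in ((2 : ℝ) - 1)..(s - 1), Lb t * wt t = ∫ t in ((2 : ℝ) - 1)..(s - 1), (0 : ℝ) := by
      apply integral_congr
      intro t ht
      rw [Set.uIcc_of_le (by linarith)] at ht
      show Lb t * wt t = 0
      rw [Lb_zero (by linarith [ht.2]), zero_mul]
    rw [h4, intervalIntegral.integral_zero, h3] at h2
    linarith

/-- `F` -/
noncomputable def LF (s : ℝ) : ℝ := La s / s

/-- `f` -/
noncomputable def Lf (s : ℝ) : ℝ := Lb s / s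

theorem La_wt {t : ℝ} (h : 1 / 2 ≤ t) : La t * wt t = LF t := by
  rw [wt_eq h]
  rfl

theorem Lb_wt {t : ℝ} (h : 1 / 2 ≤ t) : Lb t * wt t = Lf t := by
  rw [wt_eq h]
  rfl

theorem Lf_lt {s : ℝ} (h : 0 < s) : Lf s < LF s := div_lt_div_of_pos_right (Lb_lt s) h

theorem Law_cont : Continuous fun t => La t * wt t := La_cont.mul wt_cont

theorem Lbw_cont : Continuous fun t => Lb t * wt t := Lb_cont.mul wt_cont

theorem mono_aux (n : ℕ) (hn : 2 ≤ n) :
    (∀ s s' : ℝ, 0 < s → s ≤ s' → s' ≤ n → LF s' ≤ LF s) ∧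
    (∀ s s' : ℝ, 0 < s → s ≤ s' → s' ≤ n → Lf s ≤ Lf s') := by
  induction n, hn using Nat.le_induction with
  | base =>
    constructor
    · intro s s' h1 h2 h3
      push_cast at h3
      unfold LF
      rw [La_one (by linarith), La_one (by linarith)]
      exact one_div_le_one_div_of_le h1 h2
    · intro s s' h1 h2 h3
      push_cast at h3
      unfold Lf
      rw [Lb_zero (by linarith), Lb_zero (by linarith), zero_div, zero_div]
  | succ n hn ih =>
    obtain ⟨ihF, ihf⟩ := ih
    have hnR : (2 : ℝ) ≤ n := by exact_mod_cast hn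
    -- `f n ≤ f s`
    have kf : ∀ s : ℝ, n ≤ s → s ≤ n + 1 → Lf n ≤ Lf s := by
      intro s h1 h2
      have h3 := Lb_sub hnR (by linarith : 2 ≤ s)
      have h4 : LF n * ((s - 1) - (n - 1)) ≤ ∫ t in ((n : ℝ) - 1)..(s - 1), La t * wt t := by
        apply int_ge Law_cont (by linarith)
        intro t ht1 ht2
        rw [La_wt (by linarith)]
        exact ihF t n (by linarith) (by linarith) le_rfl
      have h5 := Lf_lt (show (0 : ℝ) < n by linarith)
      have h6 : Lf n * (s - n) ≤ LF n * (s - n) := mul_le_mul_of_nonneg_right h5.le (by linarith)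
      have h7 : Lf n * n = Lb n := by
        unfold Lf
        field_simp
      have hs : 0 < s := by linarith
      show Lf n ≤ Lb s / s
      rw [le_div_iff₀ hs]
      have h8 : Lf n * s = Lf n * n + Lf n * (s - n) := by ring
      have h9 : (s - 1) - ((n : ℝ) - 1) = s - n := by ring
      rw [h9] at h4
      linarith
    have kF2 : ∀ s s' : ℝ, n ≤ s → s ≤ s' → s' ≤ n + 1 → LF s' ≤ LF s := by
      intro s s' h1 h2 h3
      have hs : 0 < s := by linarith
      have hs' : 0 < s' := by linarith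
      have h4 := La_sub (show 2 ≤ s by linarith) (by linarith : 2 ≤ s')
      have h5 : ∫ t in (s - 1)..(s' - 1), Lb t * wt t ≤ LF s * ((s' - 1) - (s - 1)) := by
        apply int_le Lbw_cont (by linarith)
        intro t ht1 ht2
        rw [Lb_wt (by linarith)]
        have h6 : Lf t ≤ Lf n := ihf t n (by linarith) (by linarith) le_rfl
        have h7 := kf s h1 (by linarith)
        have h8 := Lf_lt hs
        linarith
      have h7 : LF s * s = La s := by
        unfold LF
        field_simp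
      show La s' / s' ≤ LF s
      rw [div_le_iff₀ hs']
      have h8 : LF s * s' = LF s * s + LF s * ((s' - 1) - (s - 1)) := by ring
      linarith
    have kf2 : ∀ s s' : ℝ, n ≤ s → s ≤ s' → s' ≤ n + 1 → Lf s ≤ Lf s' := by
      intro s s' h1 h2 h3
      have hs : 0 < s := by linarith
      have hs' : 0 < s' := by linarith
      have h4 := Lb_sub (show 2 ≤ s by linarith) (by linarith : 2 ≤ s')
      have h5 : Lf s * ((s' - 1) - (s - 1)) ≤ ∫ t in (s - 1)..(s' - 1), La t * wt t := by
        apply int_ge Law_cont (by linarith)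
        intro t ht1 ht2
        rw [La_wt (by linarith)]
        have h6 : LF n ≤ LF t := ihF t n (by linarith) (by linarith) le_rfl
        have h7 := kF2 n s le_rfl h1 (by linarith)
        have h8 := Lf_lt hs
        linarith
      have h7 : Lf s * s = Lb s := by
        unfold Lf
        field_simp
      show Lf s ≤ Lb s' / s'
      rw [le_div_iff₀ hs']
      have h8 : Lf s * s' = Lf s * s + Lf s * ((s' - 1) - (s - 1)) := by ring
      linarith
    constructor
    · intro s s' h1 h2 h3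
      push_cast at h3
      rcases le_or_gt s' n with h4 | h4
      · exact ihF s s' h1 h2 h4
      · rcases le_or_gt s n with h5 | h5
        · exact (kF2 n s' le_rfl h4.le h3).trans (ihF s n h1 h5 le_rfl)
        · exact kF2 s s' h5.le h2 h3
    · intro s s' h1 h2 h3
      push_cast at h3
      rcases le_or_gt s' n with h4 | h4
      · exact ihf s s' h1 h2 h4
      · rcases le_or_gt s n with h5 | h5
        · exact (ihf s n h1 h5 le_rfl).trans (kf2 n s' le_rfl h4.le h3)
        · exact kf2 s s' h5.le h2 h3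

theorem LF_anti {s s' : ℝ} (h : 0 < s) (h' : s ≤ s') : LF s' ≤ LF s := by
  obtain ⟨n, hn⟩ := exists_nat_gt s'
  refine (mono_aux (n + 2) (by omega)).1 s s' h h' ?_
  push_cast
  linarith

theorem Lf_mono {s s' : ℝ} (h : 0 < s) (h' : s ≤ s') : Lf s ≤ Lf s' := by
  obtain ⟨n, hn⟩ := exists_nat_gt s'
  refine (mono_aux (n + 2) (by omega)).2 s s' h h' ?_
  push_cast
  linarith

theorem Lf_nonneg {s : ℝ} (h : 0 < s) : 0 ≤ Lf s := by
  rcases le_or_gt s 2 with h1 | h1
  · unfold Lf
    rw [Lb_zero h1, zero_div]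
  · have h2 := Lf_mono (show (0 : ℝ) < 2 by norm_num) h1.le
    have h3 : Lf 2 = 0 := by
      unfold Lf
      rw [Lb_zero le_rfl, zero_div]
    linarith

theorem LF_pos {s : ℝ} (h : 0 < s) : 0 < LF s := (Lf_nonneg h).trans_lt (Lf_lt h)

theorem LF_eq {s : ℝ} (h : s ≤ 3) : LF s = 1 / s := by
  unfold LF
  rw [La_one h]

theorem LF_le_one {s : ℝ} (h : 1 ≤ s) : LF s ≤ 1 := by
  have h1 := LF_anti (show (0 : ℝ) < 1 by norm_num) h
  rw [LF_eq (show (1 : ℝ) ≤ 3 by norm_num)] at h1
  linarith

theorem LF_le_two {s : ℝ} (h : 1 / 2 ≤ s) : LF s ≤ 2 := by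
  have h1 := LF_anti (show (0 : ℝ) < 1 / 2 by norm_num) h
  rw [LF_eq (show (1 / 2 : ℝ) ≤ 3 by norm_num)] at h1
  norm_num at h1
  exact h1

theorem Lf_strict {s s' : ℝ} (h : 2 ≤ s) (h' : s < s') : Lf s < Lf s' := by
  have hs : 0 < s := by linarith
  have hs' : 0 < s' := by linarith
  have h4 := Lb_sub (show 2 ≤ s by linarith) (by linarith : 2 ≤ s')
  have h5 : LF s' * ((s' - 1) - (s - 1)) ≤ ∫ t in (s - 1)..(s' - 1), La t * wt t := by
    apply int_ge Law_cont (by linarith)
    intro t ht1 ht2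
    rw [La_wt (by linarith)]
    exact LF_anti (by linarith) (by linarith)
  have h6 : Lf s < LF s' := (Lf_mono hs h'.le).trans_lt (Lf_lt hs')
  have h7 : Lf s * s = Lb s := by
    unfold Lf
    field_simp
  have h9 : Lf s * (s' - s) < LF s' * (s' - s) := mul_lt_mul_of_pos_right h6 (by linarith)
  show Lf s < Lb s' / s'
  rw [lt_div_iff₀ hs']
  have h8 : Lf s * s' = Lf s * s + Lf s * (s' - s) := by ring
  have h10 : (s' - 1) - (s - 1) = s' - s := by ring
  rw [h10] at h5
  linarith

theorem La_mono {s s' : ℝ} (h : 0 < s) (h' : s ≤ s') : La s ≤ La s' := by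
  rcases le_or_gt s' 3 with h1 | h1
  · rw [La_one h1, La_one (by linarith)]
  · have key : ∀ u : ℝ, 2 ≤ u → u ≤ s' → La u ≤ La s' := by
      intro u hu hu'
      have h2 := La_sub hu (show 2 ≤ s' by linarith)
      have h3 : 0 * ((s' - 1) - (u - 1)) ≤ ∫ t in (u - 1)..(s' - 1), Lb t * wt t := by
        apply int_ge Lbw_cont (by linarith)
        intro t ht1 ht2
        rw [Lb_wt (by linarith)]
        exact Lf_nonneg (by linarith)
      linarith
    rcases le_or_gt s 2 with h2 | h2
    · rw [La_one (by linarith), ← La_one (show (2 : ℝ) ≤ 3 by norm_num)]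
      exact key 2 le_rfl (by linarith)
    · exact key s h2.le h'

/-- Lipschitz bound for `F` -/
theorem LF_lip {s s' : ℝ} (h : 1 / 2 ≤ s) (h' : s ≤ s') : LF s ≤ LF s' + 4 * (s' - s) := by
  have hs : 0 < s := by linarith
  have hs' : 0 < s' := by linarith
  have h1 := La_mono hs h'
  have h2 : LF s * s = La s := by
    unfold LF
    field_simp
  have h3 : LF s' * s' = La s' := by
    unfold LF
    field_simp
  have h4 := LF_le_two h
  have h5 := LF_pos hs
  -- `LF s * s ≤ LF s' * s'`
  have h6 : (LF s - LF s') * s' ≤ LF s * (s' - s) := by nlinarith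
  have h7 : LF s * (s' - s) ≤ 2 * (s' - s) := mul_le_mul_of_nonneg_right h4 (by linarith)
  have h8 : 2 * (s' - s) ≤ 4 * (s' - s) * s' := by nlinarith
  by_contra h9
  push Not at h9
  have h10 : 4 * (s' - s) * s' < (LF s - LF s') * s' :=
    mul_lt_mul_of_pos_right (by linarith) hs'
  linarith

/-- Lipschitz bound for `f` -/
theorem Lf_lip {s s' : ℝ} (h : 2 ≤ s) (h' : s ≤ s') : Lf s' ≤ Lf s + (s' - s) := by
  have hs : 0 < s := by linarith
  have hs' : 0 < s' := by linarith
  have h1 := Lb_sub h (show 2 ≤ s' by linarith)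
  have h2 : ∫ t in (s - 1)..(s' - 1), La t * wt t ≤ 1 * ((s' - 1) - (s - 1)) := by
    apply int_le Law_cont (by linarith)
    intro t ht1 ht2
    rw [La_wt (by linarith)]
    exact LF_le_one (by linarith)
  have h3 : Lf s * s = Lb s := by
    unfold Lf
    field_simp
  have h4 := Lf_nonneg hs
  show Lb s' / s' ≤ Lf s + (s' - s)
  rw [div_le_iff₀ hs']
  have h5 : Lf s * s ≤ Lf s * s' := mul_le_mul_of_nonneg_left h' h4
  nlinarith

end Pool.LinSieve
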