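import Pool.Agent.H.MP_0c96e5_nt.LinB

/-!
# One block of the iteration: the numerical inequalities
-/

set_option autoImplicit false

open MeasureTheory intervalIntegral

namespace Pool.LinSieve

/-- upper bound function -/
noncomputable def Gp (v z : ℝ) : ℝ := LF (v / z) / z

/-- lower bound function -/
noncomputable def Gm (v z : ℝ) : ℝ := Lf (v / z) / z

/-- lower bound function, continued below `v = 2 z` -/
noncomputable def G1 (v z : ℝ) : ℝ := (∫ t in (1 : ℝ)..(v / z - 1), La t * wt t) / v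

theorem G1_eq {v z : ℝ} (hz : 0 < z) (hv : 2 * z ≤ v) : G1 v z = Gm v z := by
  have h1 : 2 ≤ v / z := by
    rw [le_div_iff₀ hz]
    exact hv
  have hv0 : 0 < v := by linarith
  have h2 := Lb_sub (le_refl 2) h1
  rw [Lb_zero le_rfl, sub_zero] at h2
  have h3 : (2 : ℝ) - 1 = 1 := by norm_num
  rw [h3] at h2
  unfold G1 Gm Lf
  rw [h2]
  field_simp

theorem Gm_zero {v z : ℝ} (hz : 0 < z) (hv : v ≤ 2 * z) : Gm v z = 0 := by
  unfold Gm Lf
  rw [Lb_zero (by rw [div_le_iff₀ hz]; exact hv), zero_div, zero_div]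

theorem Gp_nonneg {v z : ℝ} (hz : 0 < z) (hv : 0 < v) : 0 ≤ Gp v z :=
  div_nonneg (LF_pos (div_pos hv hz)).le hz.le

theorem Gm_nonneg {v z : ℝ} (hz : 0 < z) (hv : 0 < v) : 0 ≤ Gm v z :=
  div_nonneg (Lf_nonneg (div_pos hv hz)) hz.le

theorem Gp_anti {v v' z : ℝ} (hz : 0 < z) (hv : 0 < v) (h : v ≤ v') : Gp v' z ≤ Gp v z :=
  div_le_div_of_nonneg_right (LF_anti (div_pos hv hz) (div_le_div_of_nonneg_right h hz.le)) hz.le

theorem Gm_mono {v v' z : ℝ} (hz : 0 < z) (hv : 0 < v) (h : v ≤ v') : Gm v z ≤ Gm v' z :=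
  div_le_div_of_nonneg_right (Lf_mono (div_pos hv hz) (div_le_div_of_nonneg_right h hz.le)) hz.le

theorem minus_step {v z z' B err : ℝ} (hz : 0 < z) (hzz : z ≤ z') (hv : z' / 2 ≤ v - z')
    (herr : 0 ≤ err) (hB : B ≤ (z' - z) / z + err) :
    G1 v z' ≤ G1 v z - B * Gp (v - z') z + (6 * (z' - z) ^ 2 / z ^ 3 + 2 * err / z) := by
  have hz' : 0 < z' := by linarith
  have hv0 : 0 < v := by linarith
  obtain ⟨h, hh⟩ : ∃ h, h = z' - z := ⟨_, rfl⟩
  have hh0 : 0 ≤ h := by linarith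
  have hs' : 3 / 2 ≤ v / z' := by
    rw [le_div_iff₀ hz']
    linarith
  have hss : v / z' ≤ v / z := div_le_div_of_nonneg_left hv0.le hz hzz
  -- the integral
  have h1 : LF (v / z - 1) * ((v / z - 1) - (v / z' - 1)) ≤
      ∫ t in (v / z' - 1)..(v / z - 1), La t * wt t := by
    apply int_ge Law_cont (by linarith)
    intro t ht1 ht2
    rw [La_wt (by linarith)]
    exact LF_anti (by linarith) ht2
  have h2 : (∫ t in (1 : ℝ)..(v / z - 1), La t * wt t) - (∫ t in (1 : ℝ)..(v / z' - 1), La t * wt t) =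
      ∫ t in (v / z' - 1)..(v / z - 1), La t * wt t :=
    integral_interval_sub_left (Law_cont.intervalIntegrable _ _) (Law_cont.intervalIntegrable _ _)
  obtain ⟨F1, hF1⟩ : ∃ F1, F1 = LF (v / z - 1) := ⟨_, rfl⟩
  have hF1a : F1 ≤ 2 := by
    rw [hF1]
    exact LF_le_two (by linarith)
  have hF1b : 0 ≤ F1 := by
    rw [hF1]
    exact (LF_pos (by linarith)).le
  have h3 : F1 * (h / (z * z')) ≤ G1 v z - G1 v z' := by
    unfold G1
    rw [← sub_div, h2, le_div_iff₀ hv0]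
    refine le_trans (le_of_eq ?_) h1
    rw [← hF1, hh]
    field_simp
    ring
  -- the value of `F`
  have h4 : LF ((v - z') / z) ≤ F1 + 4 * (h / z) := by
    have h5 : (1 / 2 : ℝ) ≤ (v - z') / z := by
      rw [le_div_iff₀ hz]
      linarith
    have h6 : (v - z') / z ≤ v / z - 1 := by
      rw [div_le_iff₀ hz, sub_mul, div_mul_cancel₀ _ hz.ne']
      linarith
    have h7 := LF_lip h5 h6
    have h8 : v / z - 1 - (v - z') / z = h / z := by
      rw [hh]
      field_simp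
      ring
    rw [h8, ← hF1] at h7
    exact h7
  have h5 : 0 ≤ LF ((v - z') / z) := by
    apply (LF_pos _).le
    apply div_pos _ hz
    linarith
  have h6 : LF ((v - z') / z) ≤ 2 := by
    apply LF_le_two
    rw [le_div_iff₀ hz]
    linarith
  have h7 : B * Gp (v - z') z ≤ (h / z) * ((F1 + 4 * (h / z)) / z) + 2 * err / z := by
    have e1 : B * Gp (v - z') z ≤ (h / z + err) * Gp (v - z') z := by
      apply mul_le_mul_of_nonneg_right _ (Gp_nonneg hz (by linarith))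
      rw [hh]
      exact hB
    have e2 : (h / z + err) * Gp (v - z') z = (h / z) * Gp (v - z') z + err * Gp (v - z') z := by
      ring
    have e3 : (h / z) * Gp (v - z') z ≤ (h / z) * ((F1 + 4 * (h / z)) / z) :=
      mul_le_mul_of_nonneg_left (div_le_div_of_nonneg_right h4 hz.le) (by positivity)
    have e4 : err * Gp (v - z') z ≤ err * (2 / z) :=
      mul_le_mul_of_nonneg_left (div_le_div_of_nonneg_right h6 hz.le) herr
    have e5 : err * (2 / z) = 2 * err / z := by ring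
    linarith
  have h8 : (h / z) * ((F1 + 4 * (h / z)) / z) ≤ F1 * (h / (z * z')) + 6 * h ^ 2 / z ^ 3 := by
    have e1 : (h / z) * ((F1 + 4 * (h / z)) / z) = F1 * (h / z ^ 2) + 4 * h ^ 2 / z ^ 3 := by
      field_simp
    have e2 : F1 * (h / z ^ 2) = F1 * (h / (z * z')) + F1 * (h ^ 2 / (z ^ 2 * z')) := by
      rw [← mul_add]
      congr 1
      have : z' = z + h := by linarith
      rw [this]
      have h9 : z + h ≠ 0 := by linarith
      field_simp
    have e3 : F1 * (h ^ 2 / (z ^ 2 * z')) ≤ 2 * (h ^ 2 / z ^ 3) := by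
      apply mul_le_mul hF1a _ (by positivity) (by norm_num)
      apply div_le_div_of_nonneg_left (by positivity) (by positivity)
      have : z ^ 3 = z ^ 2 * z := by ring
      rw [this]
      exact mul_le_mul_of_nonneg_left hzz (by positivity)
    have e4 : 2 * (h ^ 2 / z ^ 3) + 4 * h ^ 2 / z ^ 3 = 6 * h ^ 2 / z ^ 3 := by ring
    linarith
  rw [← hh]
  linarith

theorem plus_step {v z z' B err : ℝ} (hz : 0 < z) (hzz : z ≤ z') (hv : 3 * z' ≤ v)
    (herr : 0 ≤ err) (hB : (z' - z) / z' - err ≤ B) :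
    Gp v z - B * Gm (v - z') z ≤ Gp v z' + ((z' - z) ^ 2 / z ^ 3 + err / z) := by
  have hz' : 0 < z' := by linarith
  have hv0 : 0 < v := by linarith
  obtain ⟨h, hh⟩ : ∃ h, h = z' - z := ⟨_, rfl⟩
  have hh0 : 0 ≤ h := by linarith
  have hs' : 3 ≤ v / z' := by
    rw [le_div_iff₀ hz']
    linarith
  have hss : v / z' ≤ v / z := div_le_div_of_nonneg_left hv0.le hz hzz
  have h1 : ∫ t in (v / z' - 1)..(v / z - 1), Lb t * wt t ≤
      Lf (v / z - 1) * ((v / z - 1) - (v / z' - 1)) := by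
    apply int_le Lbw_cont (by linarith)
    intro t ht1 ht2
    rw [Lb_wt (by linarith)]
    exact Lf_mono (by linarith) ht2
  have h2 := La_sub (show 2 ≤ v / z' by linarith) (show 2 ≤ v / z by linarith)
  obtain ⟨f1, hf1⟩ : ∃ f1, f1 = Lf ((v - z') / z) := ⟨_, rfl⟩
  have hs2 : 2 ≤ (v - z') / z := by
    rw [le_div_iff₀ hz]
    linarith
  have hf10 : 0 ≤ f1 := by
    rw [hf1]
    exact Lf_nonneg (by linarith)
  have hf11 : f1 ≤ 1 := by
    rw [hf1]
    exact (Lf_lt (by linarith)).le.trans (LF_le_one (by linarith))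
  have h4 : Lf (v / z - 1) ≤ f1 + h / z := by
    have h6 : (v - z') / z ≤ v / z - 1 := by
      rw [div_le_iff₀ hz, sub_mul, div_mul_cancel₀ _ hz.ne']
      linarith
    have h7 := Lf_lip hs2 h6
    have h8 : v / z - 1 - (v - z') / z = h / z := by
      rw [hh]
      field_simp
      ring
    rw [h8, ← hf1] at h7
    exact h7
  have h3 : Gp v z - Gp v z' ≤ (f1 + h / z) * (h / (z * z')) := by
    have e1 : Gp v z - Gp v z' = (La (v / z) - La (v / z')) / v := by
      unfold Gp LF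
      field_simp
    rw [e1, h2, div_le_iff₀ hv0]
    refine h1.trans ?_
    have e2 : (v / z - 1) - (v / z' - 1) = h / (z * z') * v := by
      rw [hh]
      field_simp
      ring
    rw [e2, ← mul_assoc]
    apply mul_le_mul_of_nonneg_right _ hv0.le
    exact mul_le_mul_of_nonneg_right h4 (by positivity)
  have h5 : (h / z' - err) * (f1 / z) ≤ B * Gm (v - z') z := by
    have e1 : Gm (v - z') z = f1 / z := by
      rw [hf1]
      rfl
    rw [e1]
    apply mul_le_mul_of_nonneg_right _ (by positivity)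
    rw [hh]
    exact hB
  have h6 : (f1 + h / z) * (h / (z * z')) - (h / z' - err) * (f1 / z) ≤ h ^ 2 / z ^ 3 + err / z := by
    have e1 : (f1 + h / z) * (h / (z * z')) - (h / z' - err) * (f1 / z) =
        h ^ 2 / (z ^ 2 * z') + err * f1 / z := by
      field_simp
      ring
    rw [e1]
    have e2 : h ^ 2 / (z ^ 2 * z') ≤ h ^ 2 / z ^ 3 := by
      apply div_le_div_of_nonneg_left (by positivity) (by positivity)
      have : z ^ 3 = z ^ 2 * z := by ring
      rw [this]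
      exact mul_le_mul_of_nonneg_left hzz (by positivity)
    have e3 : err * f1 / z ≤ err / z := by
      apply div_le_div_of_nonneg_right _ hz.le
      exact mul_le_of_le_one_right herr hf11
    linarith
  rw [← hh]
  linarith

theorem gap_step {v z z' : ℝ} (hz : 0 < z) (hzz : z ≤ z') (hv0 : 0 < v) (hv : v < 3 * z') :
    Gp v z ≤ Gp v z' + 3 * (z' - z) ^ 2 / z ^ 3 := by
  have hz' : 0 < z' := by linarith
  have e1 : Gp v z' = 1 / v := by
    unfold Gp LF
    rw [La_one (by rw [div_le_iff₀ hz']; exact hv.le)]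
    field_simp
  have e2 : Gp v z = La (v / z) / v := by
    unfold Gp LF
    field_simp
  have e3 : 0 ≤ 3 * (z' - z) ^ 2 / z ^ 3 := by positivity
  rw [e1, e2]
  rcases le_or_gt (v / z) 3 with h1 | h1
  · rw [La_one h1]
    linarith
  · have hv3 : 3 * z < v := by
      rwa [lt_div_iff₀ hz] at h1
    have h2 := La_sub (show (2 : ℝ) ≤ 3 by norm_num) (show 2 ≤ v / z by linarith)
    rw [La_one le_rfl] at h2
    have h3 : ∫ t in ((3 : ℝ) - 1)..(v / z - 1), Lb t * wt t ≤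
        (v / z - 3) * ((v / z - 1) - (3 - 1)) := by
      apply int_le Lbw_cont (by linarith)
      intro t ht1 ht2
      rw [Lb_wt (by linarith)]
      have h4 := Lf_lip (le_refl 2) (show (2 : ℝ) ≤ t by linarith)
      have h5 : Lf 2 = 0 := by
        unfold Lf
        rw [Lb_zero le_rfl, zero_div]
      linarith
    have h4 : v / z - 3 ≤ 3 * (z' - z) / z := by
      rw [div_sub' hz.ne', div_le_div_iff_of_pos_right hz]
      linarith
    have h5 : (v / z - 3) * ((v / z - 1) - (3 - 1)) = (v / z - 3) ^ 2 := by ring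
    have h6 : (v / z - 3) ^ 2 ≤ (3 * (z' - z) / z) ^ 2 :=
      pow_le_pow_left₀ (by linarith) h4 2
    have h7 : La (v / z) ≤ 1 + 9 * (z' - z) ^ 2 / z ^ 2 := by
      have : (3 * (z' - z) / z) ^ 2 = 9 * (z' - z) ^ 2 / z ^ 2 := by
        field_simp
        ring
      linarith
    have h8 : La (v / z) / v ≤ (1 + 9 * (z' - z) ^ 2 / z ^ 2) / v :=
      div_le_div_of_nonneg_right h7 hv0.le
    have h9 : (1 + 9 * (z' - z) ^ 2 / z ^ 2) / v = 1 / v + 9 * (z' - z) ^ 2 / z ^ 2 / v := by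
      ring
    have h10 : 9 * (z' - z) ^ 2 / z ^ 2 / v ≤ 9 * (z' - z) ^ 2 / z ^ 2 / (3 * z) :=
      div_le_div_of_nonneg_left (by positivity) (by positivity) hv3.le
    have h11 : 9 * (z' - z) ^ 2 / z ^ 2 / (3 * z) = 3 * (z' - z) ^ 2 / z ^ 3 := by
      field_simp
      ring
    linarith

/-- the conditions on one block of primes -/
structure Blk (A κ z z' B err : ℝ) : Prop where
  hA : 0 ≤ A
  hκ : 0 ≤ κ
  hz : 0 < z
  hzz : z ≤ z'
  hz1 : z' ≤ 1
  h16 : 16 * (z' - z) ≤ z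
  h24 : 24 * A * (z' - z) ≤ κ * z ^ 4
  he0 : 0 ≤ err
  he : err ≤ (z' - z) ^ 2
  hB0 : 0 ≤ B
  hB1 : B ≤ (z' - z) / z + err
  hB2 : (z' - z) / z' - err ≤ B

variable {A κ z z' B err : ℝ}

theorem Blk.aux (H : Blk A κ z z' B err) :
    A * (12 * (z' - z) ^ 2 / z ^ 3) ≤ κ * z * (z' - z) / 2 := by
  have h1 := H.h24
  have hz := H.hz
  have hh : 0 ≤ z' - z := by linarith [H.hzz]
  have e1 : A * (12 * (z' - z) ^ 2 / z ^ 3) = (24 * A * (z' - z)) * ((z' - z) / (2 * z ^ 3)) := by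
    field_simp
    ring
  have e2 : κ * z * (z' - z) / 2 = (κ * z ^ 4) * ((z' - z) / (2 * z ^ 3)) := by
    field_simp
  rw [e1, e2]
  exact mul_le_mul_of_nonneg_right h1 (by positivity)

theorem Blk.err_le (H : Blk A κ z z' B err) : 2 * err / z ≤ 2 * (z' - z) ^ 2 / z ^ 3 := by
  have hz := H.hz
  have hz1 : z ≤ 1 := H.hzz.trans H.hz1
  have h1 : z ^ 2 ≤ 1 := pow_le_one₀ hz.le hz1
  rw [div_le_div_iff₀ hz (by positivity)]
  have h2 : err * z ^ 2 ≤ (z' - z) ^ 2 * 1 := mul_le_mul H.he h1 (by positivity) (by positivity)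
  have h3 : 2 * err * z ^ 3 = 2 * z * (err * z ^ 2) := by ring
  have h4 : 2 * (z' - z) ^ 2 * z = 2 * z * ((z' - z) ^ 2 * 1) := by ring
  rw [h3, h4]
  exact mul_le_mul_of_nonneg_left h2 (by positivity)

theorem Blk.lower (H : Blk A κ z z' B err) {v : ℝ} (hv : z' / 2 ≤ v - z') :
    A * G1 v z' - κ * z' ^ 2 ≤
      A * G1 v z - κ * z ^ 2 - B * (A * Gp (v - z') z + κ * z ^ 2) := by
  have h1 := mul_le_mul_of_nonneg_left (minus_step H.hz H.hzz hv H.he0 H.hB1) H.hA
  have h2 := H.aux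
  have h3 := H.err_le
  have hz := H.hz
  have hκ := H.hκ
  have hA := H.hA
  obtain ⟨h, hh⟩ : ∃ h, h = z' - z := ⟨_, rfl⟩
  have hh0 : 0 ≤ h := by linarith [H.hzz]
  have h16 := H.h16
  have he := H.he
  have hB1 := H.hB1
  rw [← hh] at h1 h2 h3 h16 he hB1
  have hz1 : z ≤ 1 := H.hzz.trans H.hz1
  have h4 : A * (6 * h ^ 2 / z ^ 3 + 2 * err / z) ≤ κ * z * h / 2 := by
    have e1 : 6 * h ^ 2 / z ^ 3 + 2 * err / z ≤ 12 * h ^ 2 / z ^ 3 := by
      have e2 : 0 ≤ h ^ 2 / z ^ 3 := by positivity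
      have e3 : 6 * h ^ 2 / z ^ 3 = 6 * (h ^ 2 / z ^ 3) := by ring
      have e4 : 2 * h ^ 2 / z ^ 3 = 2 * (h ^ 2 / z ^ 3) := by ring
      have e5 : 12 * h ^ 2 / z ^ 3 = 12 * (h ^ 2 / z ^ 3) := by ring
      linarith
    exact (mul_le_mul_of_nonneg_left e1 hA).trans h2
  -- `κ z' ^ 2 - κ z ^ 2 - B κ z ^ 2 ≥ κ z h / 2`
  have h5 : B * (κ * z ^ 2) ≤ κ * z * h + κ * z * h / 2 := by
    have e1 : B * (κ * z ^ 2) ≤ (h / z + err) * (κ * z ^ 2) :=
      mul_le_mul_of_nonneg_right hB1 (by positivity)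
    have e2 : (h / z + err) * (κ * z ^ 2) = κ * z * h + κ * (err * z ^ 2) := by
      field_simp
    have e3 : err * z ^ 2 ≤ z * h / 2 := by
      have e4 : err * z ^ 2 ≤ h ^ 2 * 1 :=
        mul_le_mul he (pow_le_one₀ hz.le hz1) (by positivity) (by positivity)
      nlinarith
    have e4 : κ * (err * z ^ 2) ≤ κ * (z * h / 2) := mul_le_mul_of_nonneg_left e3 hκ
    linarith
  have h6 : κ * z' ^ 2 = κ * z ^ 2 + 2 * (κ * z * h) + κ * h ^ 2 := by
    have : z' = z + h := by linarith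
    rw [this]
    ring
  have h7 : 0 ≤ κ * h ^ 2 := by positivity
  have e1 : A * (G1 v z - B * Gp (v - z') z + (6 * h ^ 2 / z ^ 3 + 2 * err / z)) =
      A * G1 v z - B * (A * Gp (v - z') z) + A * (6 * h ^ 2 / z ^ 3 + 2 * err / z) := by ring
  rw [e1] at h1
  have e2 : B * (A * Gp (v - z') z + κ * z ^ 2) = B * (A * Gp (v - z') z) + B * (κ * z ^ 2) := by
    ring
  rw [e2]
  linarith

theorem Blk.B2 (H : Blk A κ z z' B err) : B ^ 2 ≤ 4 * (z' - z) ^ 2 / z ^ 2 := by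
  have hz := H.hz
  obtain ⟨h, hh⟩ : ∃ h, h = z' - z := ⟨_, rfl⟩
  have hh0 : 0 ≤ h := by linarith [H.hzz]
  have h16 := H.h16
  have he := H.he
  have hB1 := H.hB1
  rw [← hh] at h16 he hB1 ⊢
  have hz1 : z ≤ 1 := H.hzz.trans H.hz1
  have h1 : B ≤ 2 * h / z := by
    have e1 : err ≤ h / z := by
      rw [le_div_iff₀ hz]
      have : err * z ≤ h ^ 2 * 1 := mul_le_mul he hz1 hz.le (by positivity)
      nlinarith
    have e2 : 2 * h / z = h / z + h / z := by ring
    linarith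
  have h2 := pow_le_pow_left₀ H.hB0 h1 2
  have e1 : (2 * h / z) ^ 2 = 4 * h ^ 2 / z ^ 2 := by
    field_simp
    ring
  rwa [e1] at h2

theorem Blk.upper (H : Blk A κ z z' B err) {v : ℝ} (hv : 3 * z' ≤ v) :
    A * Gp v z + κ * z ^ 2 - B * (A * Gm (v - z') z - κ * z ^ 2) + B ^ 2 * (A / z + κ * z ^ 2) ≤
      A * Gp v z' + κ * z' ^ 2 := by
  have h1 := mul_le_mul_of_nonneg_left (plus_step H.hz H.hzz hv H.he0 H.hB2) H.hA
  have h2 := H.aux
  have h3 := H.err_le
  have hz := H.hz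
  have hκ := H.hκ
  have hA := H.hA
  have hB2 := H.B2
  obtain ⟨h, hh⟩ : ∃ h, h = z' - z := ⟨_, rfl⟩
  have hh0 : 0 ≤ h := by linarith [H.hzz]
  have h16 := H.h16
  have he := H.he
  have hB1 := H.hB1
  rw [← hh] at h1 h2 h3 h16 he hB1 hB2
  have hz1 : z ≤ 1 := H.hzz.trans H.hz1
  have e0 : 0 ≤ h ^ 2 / z ^ 3 := by positivity
  have h4 : A * (h ^ 2 / z ^ 3 + err / z) + B ^ 2 * (A / z) ≤ κ * z * h / 2 := by
    have e1 : B ^ 2 * (A / z) ≤ A * (4 * (h ^ 2 / z ^ 3)) := by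
      have e2 : B ^ 2 * (A / z) ≤ 4 * h ^ 2 / z ^ 2 * (A / z) :=
        mul_le_mul_of_nonneg_right hB2 (by positivity)
      have e3 : 4 * h ^ 2 / z ^ 2 * (A / z) = A * (4 * (h ^ 2 / z ^ 3)) := by
        field_simp
      linarith
    have e2 : A * (h ^ 2 / z ^ 3 + err / z) ≤ A * (2 * (h ^ 2 / z ^ 3)) := by
      apply mul_le_mul_of_nonneg_left _ hA
      have e3 : 2 * err / z = 2 * (err / z) := by ring
      have e4 : 2 * h ^ 2 / z ^ 3 = 2 * (h ^ 2 / z ^ 3) := by ring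
      linarith
    have e3 : A * (12 * h ^ 2 / z ^ 3) = A * (12 * (h ^ 2 / z ^ 3)) := by ring
    have e4 : 0 ≤ A * (h ^ 2 / z ^ 3) := by positivity
    rw [e3] at h2
    linarith
  have h5 : (B + B ^ 2) * (κ * z ^ 2) ≤ κ * z * h + κ * z * h / 2 := by
    have e1 : (B + B ^ 2) * (κ * z ^ 2) ≤ (h / z + err + 4 * h ^ 2 / z ^ 2) * (κ * z ^ 2) :=
      mul_le_mul_of_nonneg_right (by linarith) (by positivity)
    have e2 : (h / z + err + 4 * h ^ 2 / z ^ 2) * (κ * z ^ 2) =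
        κ * z * h + κ * (err * z ^ 2 + 4 * h ^ 2) := by
      field_simp
      ring
    have e3 : err * z ^ 2 + 4 * h ^ 2 ≤ z * h / 2 := by
      have e4 : err * z ^ 2 ≤ h ^ 2 * 1 :=
        mul_le_mul he (pow_le_one₀ hz.le hz1) (by positivity) (by positivity)
      nlinarith
    have e4 : κ * (err * z ^ 2 + 4 * h ^ 2) ≤ κ * (z * h / 2) := mul_le_mul_of_nonneg_left e3 hκ
    linarith
  have h6 : κ * z' ^ 2 = κ * z ^ 2 + 2 * (κ * z * h) + κ * h ^ 2 := by
    have : z' = z + h := by linarith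
    rw [this]
    ring
  have h7 : 0 ≤ κ * h ^ 2 := by positivity
  have e1 : A * (Gp v z - B * Gm (v - z') z) = A * Gp v z - B * (A * Gm (v - z') z) := by ring
  rw [e1] at h1
  have e2 : A * (Gp v z' + (h ^ 2 / z ^ 3 + err / z)) = A * Gp v z' +
      A * (h ^ 2 / z ^ 3 + err / z) := by ring
  rw [e2] at h1
  have e3 : A * Gp v z + κ * z ^ 2 - B * (A * Gm (v - z') z - κ * z ^ 2) +
      B ^ 2 * (A / z + κ * z ^ 2) = A * Gp v z - B * (A * Gm (v - z') z) + κ * z ^ 2 +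
      (B + B ^ 2) * (κ * z ^ 2) + B ^ 2 * (A / z) := by ring
  rw [e3]
  linarith

theorem Blk.gap (H : Blk A κ z z' B err) {v : ℝ} (hv0 : 0 < v) (hv : v < 3 * z') :
    A * Gp v z + κ * z ^ 2 ≤ A * Gp v z' + κ * z' ^ 2 := by
  have h1 := mul_le_mul_of_nonneg_left (gap_step H.hz H.hzz hv0 hv) H.hA
  have h2 := H.aux
  have hz := H.hz
  have hκ := H.hκ
  have hA := H.hA
  obtain ⟨h, hh⟩ : ∃ h, h = z' - z := ⟨_, rfl⟩
  have hh0 : 0 ≤ h := by linarith [H.hzz]
  rw [← hh] at h1 h2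
  have h4 : A * (3 * h ^ 2 / z ^ 3) ≤ κ * z * h / 2 := by
    have e1 : 3 * h ^ 2 / z ^ 3 ≤ 12 * h ^ 2 / z ^ 3 := by
      apply div_le_div_of_nonneg_right _ (by positivity)
      have : 0 ≤ h ^ 2 := by positivity
      linarith
    exact (mul_le_mul_of_nonneg_left e1 hA).trans h2
  have h6 : κ * z' ^ 2 = κ * z ^ 2 + 2 * (κ * z * h) + κ * h ^ 2 := by
    have : z' = z + h := by linarith
    rw [this]
    ring
  have h7 : 0 ≤ κ * h ^ 2 := by positivity
  have h8 : 0 ≤ κ * z * h := by positivity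
  rw [mul_add] at h1
  linarith

end Pool.LinSieve
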