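import Pool.Agent.H.MP_0c96e5_nt.LinC

/-!
# One block of the iteration: sets
-/

set_option autoImplicit false

open Finset

namespace Pool.LinSieve

/-- `n` is in the class of `a p` modulo `p` -/
def hit (a : ℕ → ℤ) (p n : ℕ) : Prop := (p : ℤ) ∣ (n : ℤ) - a p

open Classical in
/-- the elements of `T` in none of the classes modulo the elements of `Q` -/
noncomputable def Sf (a : ℕ → ℤ) (T Q : Finset ℕ) : Finset ℕ := T.filter fun n => ∀ p ∈ Q, ¬ hit a p n

open Classical in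
/-- the elements of `T` in the class modulo `p` -/
noncomputable def Tp (a : ℕ → ℤ) (T : Finset ℕ) (p : ℕ) : Finset ℕ := T.filter fun n => hit a p n

open Classical in
/-- the elements of `T` in the classes modulo all elements of `s` -/
noncomputable def Ts (a : ℕ → ℤ) (T s : Finset ℕ) : Finset ℕ := T.filter fun n => ∀ p ∈ s, hit a p n

/-- distribution of `T` in the intersections of classes, up to level `D` -/
def Dist (a : ℕ → ℤ) (δ : ℝ) (T : Finset ℕ) (X D : ℝ) (Q : Finset ℕ) : Prop :=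
  ∀ s ⊆ Q, ((∏ p ∈ s, p : ℕ) : ℝ) ≤ D →
    |((Ts a T s).card : ℝ) - X / ((∏ p ∈ s, p : ℕ) : ℝ)| ≤ δ * (X / ((∏ p ∈ s, p : ℕ) : ℝ))

variable {a : ℕ → ℤ} {δ : ℝ} {T P Q : Finset ℕ} {X D : ℝ}

theorem mem_Sf {n : ℕ} : n ∈ Sf a T Q ↔ n ∈ T ∧ ∀ p ∈ Q, ¬ hit a p n := by
  simp only [Sf, Finset.mem_filter]

theorem mem_Tp {n p : ℕ} : n ∈ Tp a T p ↔ n ∈ T ∧ hit a p n := by
  simp only [Tp, Finset.mem_filter]

theorem mem_Ts {n : ℕ} {s : Finset ℕ} : n ∈ Ts a T s ↔ n ∈ T ∧ ∀ p ∈ s, hit a p n := by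
  simp only [Ts, Finset.mem_filter]

theorem Dist.sub (h : Dist a δ T X D Q) {R : Finset ℕ} (hR : R ⊆ Q) : Dist a δ T X D R :=
  fun s hs => h s (hs.trans hR)

theorem Dist.tp (h : Dist a δ T X D Q) {R : Finset ℕ} {p : ℕ} (hp : 0 < p) (hpR : p ∉ R)
    (hR : insert p R ⊆ Q) : Dist a δ (Tp a T p) (X / p) (D / p) R := by
  intro s hs hsD
  have hp' : (0 : ℝ) < p := by exact_mod_cast hp
  have hps : p ∉ s := fun h1 => hpR (hs h1)
  have h1 : insert p s ⊆ Q := (insert_subset_insert p hs).trans hR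
  have h2 : ∏ q ∈ insert p s, q = p * ∏ q ∈ s, q := prod_insert hps
  have h3 : ((∏ q ∈ insert p s, q : ℕ) : ℝ) ≤ D := by
    rw [h2, Nat.cast_mul]
    rw [le_div_iff₀ hp'] at hsD
    linarith
  have h4 := h _ h1 h3
  have h5 : Ts a T (insert p s) = Ts a (Tp a T p) s := by
    ext n
    rw [mem_Ts, mem_Ts, mem_Tp, forall_mem_insert]
    tauto
  rw [h5, h2, Nat.cast_mul] at h4
  have h6 : X / p / ((∏ q ∈ s, q : ℕ) : ℝ) = X / (p * ((∏ q ∈ s, q : ℕ) : ℝ)) := by
    rw [div_div]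
  rw [h6]
  exact h4

theorem Sf_union_sub : Sf a T (Q ∪ P) ⊆ Sf a T Q := by
  intro n hn
  rw [mem_Sf] at hn ⊢
  exact ⟨hn.1, fun p hp => hn.2 p (mem_union_left _ hp)⟩

/-- lower bound -/
theorem buch_lower : ((Sf a T Q).card : ℝ) - ∑ p ∈ P, ((Sf a (Tp a T p) Q).card : ℝ) ≤
    ((Sf a T (Q ∪ P)).card : ℝ) := by
  have h1 : Sf a T Q ⊆ Sf a T (Q ∪ P) ∪ P.biUnion fun p => Sf a (Tp a T p) Q := by
    intro n hn
    rw [mem_union, mem_biUnion]
    by_cases h : ∃ p ∈ P, hit a p n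
    · obtain ⟨p, hp, hpn⟩ := h
      refine Or.inr ⟨p, hp, ?_⟩
      rw [mem_Sf] at hn
      rw [mem_Sf, mem_Tp]
      exact ⟨⟨hn.1, hpn⟩, hn.2⟩
    · push Not at h
      refine Or.inl ?_
      rw [mem_Sf] at hn ⊢
      refine ⟨hn.1, fun p hp => ?_⟩
      rw [mem_union] at hp
      rcases hp with hp | hp
      · exact hn.2 p hp
      · exact h p hp
  have h2 := (card_le_card h1).trans ((card_union_le _ _).trans
    (Nat.add_le_add_left card_biUnion_le _))
  have h3 := (Nat.cast_le (α := ℝ)).2 h2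
  push_cast at h3
  linarith

open Classical in
/-- indicator of a class -/
noncomputable def chi (a : ℕ → ℤ) (p n : ℕ) : ℝ := if hit a p n then 1 else 0

theorem chi_sq (p n : ℕ) : chi a p n * chi a p n = chi a p n := by
  unfold chi
  split_ifs <;> norm_num

theorem chi_nonneg (p n : ℕ) : 0 ≤ chi a p n := by
  unfold chi
  split_ifs <;> norm_num

theorem card_tp (p : ℕ) : ((Sf a (Tp a T p) Q).card : ℝ) = ∑ n ∈ Sf a T Q, chi a p n := by
  classical
  unfold chi
  rw [← sum_filter, sum_const, nsmul_eq_mul, mul_one]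
  congr 2
  ext n
  rw [mem_Sf, mem_Tp, mem_filter, mem_Sf]
  tauto

theorem card_tpp (p q : ℕ) : ((Sf a (Tp a (Tp a T p) q) Q).card : ℝ) =
    ∑ n ∈ Sf a T Q, chi a p n * chi a q n := by
  classical
  rw [card_tp]
  have h1 : Sf a (Tp a T p) Q = (Sf a T Q).filter fun n => hit a p n := by
    ext n
    rw [mem_Sf, mem_Tp, mem_filter, mem_Sf]
    tauto
  rw [h1, sum_filter]
  refine sum_congr rfl fun n _ => ?_
  unfold chi
  by_cases h : hit a p n
  · rw [if_pos h, if_pos h, one_mul]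
  · rw [if_neg h, if_neg h, zero_mul]

/-- upper bound -/
theorem buch_upper : ((Sf a T (Q ∪ P)).card : ℝ) ≤ ((Sf a T Q).card : ℝ) -
    ∑ p ∈ P, ((Sf a (Tp a T p) Q).card : ℝ) +
    ∑ t ∈ P.offDiag, ((Sf a (Tp a (Tp a T t.1) t.2) Q).card : ℝ) := by
  classical
  obtain ⟨k, hk⟩ : ∃ k : ℕ → ℝ, k = fun n => ∑ p ∈ P, chi a p n := ⟨_, rfl⟩
  have h1 : ((Sf a T (Q ∪ P)).card : ℝ) ≤ ∑ n ∈ Sf a T Q, (1 - k n) ^ 2 := by
    have h2 : ((Sf a T (Q ∪ P)).card : ℝ) = ∑ n ∈ Sf a T (Q ∪ P), (1 - k n) ^ 2 := by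
      have h3 : ∀ n ∈ Sf a T (Q ∪ P), (1 - k n) ^ 2 = 1 := by
        intro n hn
        rw [mem_Sf] at hn
        have h4 : k n = 0 := by
          rw [hk]
          refine sum_eq_zero fun p hp => ?_
          unfold chi
          rw [if_neg (hn.2 p (mem_union_right _ hp))]
        rw [h4]
        norm_num
      rw [sum_congr rfl h3, sum_const, nsmul_eq_mul, mul_one]
    rw [h2]
    exact sum_le_sum_of_subset_of_nonneg Sf_union_sub fun n _ _ => sq_nonneg _
  have h2 : ∀ n, (1 - k n) ^ 2 = 1 - k n + ∑ t ∈ P.offDiag, chi a t.1 n * chi a t.2 n := by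
    intro n
    have e1 : (k n) ^ 2 = ∑ t ∈ P ×ˢ P, chi a t.1 n * chi a t.2 n := by
      rw [hk, sq, sum_mul_sum, sum_product]
    have e2 : ∑ t ∈ P ×ˢ P, chi a t.1 n * chi a t.2 n =
        ∑ t ∈ P.diag, chi a t.1 n * chi a t.2 n + ∑ t ∈ P.offDiag, chi a t.1 n * chi a t.2 n := by
      rw [← diag_union_offDiag, sum_union (disjoint_diag_offDiag P)]
    have e3 : ∑ t ∈ P.diag, chi a t.1 n * chi a t.2 n = k n := by
      rw [sum_diag, hk]
      exact sum_congr rfl fun p _ => chi_sq p n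
    have e4 : (1 - k n) ^ 2 = 1 - 2 * k n + (k n) ^ 2 := by ring
    rw [e4, e1, e2, e3]
    ring
  have h3 : ∑ n ∈ Sf a T Q, (1 - k n) ^ 2 = ((Sf a T Q).card : ℝ) -
      ∑ p ∈ P, ((Sf a (Tp a T p) Q).card : ℝ) +
      ∑ t ∈ P.offDiag, ((Sf a (Tp a (Tp a T t.1) t.2) Q).card : ℝ) := by
    rw [sum_congr rfl fun n _ => h2 n, sum_add_distrib, sum_sub_distrib, sum_const, nsmul_eq_mul,
      mul_one, hk, sum_comm]
    rw [sum_congr rfl fun p _ => (card_tp (a := a) (T := T) (Q := Q) p).symm]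
    congr 1
    rw [sum_comm]
    exact sum_congr rfl fun t _ => (card_tpp (a := a) (T := T) (Q := Q) t.1 t.2).symm
  rw [← h3]
  exact h1

/-- the upper bounds, at one stage -/
def Up (a : ℕ → ℤ) (δ L A e z : ℝ) (Q : Finset ℕ) : Prop :=
  ∀ (T : Finset ℕ) (X D : ℝ), 0 ≤ X → 1 < D → Real.log D ≤ 2 * L → Dist a δ T X D Q →
    ((Sf a T Q).card : ℝ) ≤ X * (A * Gp (Real.log D / L) z + e)

/-- the lower bounds, at one stage -/
def Lo (a : ℕ → ℤ) (δ L A e z : ℝ) (Q : Finset ℕ) : Prop :=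
  ∀ (T : Finset ℕ) (X D : ℝ), 0 ≤ X → 1 < D → Real.log D ≤ 2 * L → Dist a δ T X D Q →
    X * (A * Gm (Real.log D / L) z - e) ≤ ((Sf a T Q).card : ℝ)

/-- the conditions on the block of primes -/
structure Bp (L z' B : ℝ) (P Q : Finset ℕ) : Prop where
  hL : 0 < L
  hP : ∀ p ∈ P, 2 ≤ p ∧ Real.log p / L ≤ z'
  hPQ : Disjoint P Q
  hB : B = ∑ p ∈ P, 1 / (p : ℝ)

variable {A κ z z' B err L : ℝ}

theorem Bp.log (H : Bp L z' B P Q) (hD : 1 < D) {p : ℕ} (hp : p ∈ P) :
    Real.log (D / p) / L = Real.log D / L - Real.log p / L ∧ 0 < (p : ℝ) ∧ 0 ≤ Real.log p / L := by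
  have h1 := H.hP p hp
  have h2 : (2 : ℝ) ≤ p := by exact_mod_cast h1.1
  have h3 : (0 : ℝ) < p := by linarith
  refine ⟨?_, h3, div_nonneg (Real.log_nonneg (by linarith)) H.hL.le⟩
  rw [Real.log_div (by linarith) h3.ne', sub_div]

theorem Bp.gt_one (H : Bp L z' B P Q) (hD : 1 < D) {p : ℕ} (hp : p ∈ P)
    (hv : z' < Real.log D / L) : 1 < D / p := by
  obtain ⟨h1, h2, h3⟩ := H.log hD hp
  have h4 := (H.hP p hp).2
  have h5 : 0 < Real.log (D / p) / L := by
    rw [h1]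
    linarith
  have h6 : 0 < Real.log (D / p) := by
    by_contra h7
    have := div_nonpos_of_nonpos_of_nonneg (not_lt.1 h7) H.hL.le
    linarith
  have h8 : 0 < D / p := by positivity
  exact (Real.log_pos_iff h8.le).1 h6

theorem Bp.log_le (H : Bp L z' B P Q) (hD : 1 < D) (hD2 : Real.log D ≤ 2 * L) {p : ℕ}
    (hp : p ∈ P) : Real.log (D / p) ≤ 2 * L := by
  obtain ⟨h1, h2, h3⟩ := H.log hD hp
  have h4 : Real.log (D / p) = Real.log D - Real.log p := by
    rw [Real.log_div (by linarith) h2.ne']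
  have h5 : (0 : ℝ) ≤ Real.log p := by
    apply Real.log_nonneg
    have := (H.hP p hp).1
    have : (2 : ℝ) ≤ p := by exact_mod_cast this
    linarith
  linarith

theorem Bp.notMem (H : Bp L z' B P Q) {p : ℕ} (hp : p ∈ P) : p ∉ Q :=
  Finset.disjoint_left.1 H.hPQ hp

theorem Bp.dist (H : Bp L z' B P Q) {p : ℕ} (hp : p ∈ P) (hD : Dist a δ T X D (Q ∪ P)) :
    Dist a δ (Tp a T p) (X / p) (D / p) Q := by
  refine hD.tp (by have := (H.hP p hp).1; omega) (H.notMem hp) ?_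
  intro q hq
  rw [mem_insert] at hq
  rw [mem_union]
  rcases hq with rfl | hq
  · exact Or.inr hp
  · exact Or.inl hq

theorem Bp.dist2 (H : Bp L z' B P Q) {p q : ℕ} (hp : p ∈ P) (hq : q ∈ P) (hpq : p ≠ q)
    (hD : Dist a δ T X D (Q ∪ P)) :
    Dist a δ (Tp a (Tp a T p) q) (X / p / q) (D / p / q) Q := by
  have h1 : Dist a δ (Tp a T p) (X / p) (D / p) (insert q Q) := by
    refine hD.tp (by have := (H.hP p hp).1; omega) ?_ ?_
    · rw [mem_insert]
      push Not
      exact ⟨hpq, H.notMem hp⟩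
    · intro r hr
      rw [mem_insert, mem_insert] at hr
      rw [mem_union]
      rcases hr with rfl | rfl | hr
      · exact Or.inr hp
      · exact Or.inr hq
      · exact Or.inl hr
  exact h1.tp (by have := (H.hP q hq).1; omega) (H.notMem hq) le_rfl

/-- the upper bound for the elements in a class, summed over the block -/
theorem sum_up (H : Bp L z' B P Q) (hz : 0 < z) (hA : 0 ≤ A)
    {e : ℝ} (hU : Up a δ L A e z Q) (hX : 0 ≤ X) (hD : 1 < D) (hD2 : Real.log D ≤ 2 * L)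
    (hd : Dist a δ T X D (Q ∪ P)) (hv : z' < Real.log D / L) :
    ∑ p ∈ P, ((Sf a (Tp a T p) Q).card : ℝ) ≤
      X * (B * (A * Gp (Real.log D / L - z') z + e)) := by
  have h1 : ∀ p ∈ P, ((Sf a (Tp a T p) Q).card : ℝ) ≤
      X * (A * Gp (Real.log D / L - z') z + e) * (1 / (p : ℝ)) := by
    intro p hp
    obtain ⟨h2, h3, h4⟩ := H.log hD hp
    have h5 := hU (Tp a T p) (X / p) (D / p) (by positivity) (H.gt_one hD hp hv)
      (H.log_le hD hD2 hp) (H.dist hp hd)
    refine h5.trans ?_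
    rw [h2]
    have h6 := (H.hP p hp).2
    have h7 : Gp (Real.log D / L - Real.log p / L) z ≤ Gp (Real.log D / L - z') z :=
      Gp_anti hz (by linarith) (by linarith)
    have h8 : A * Gp (Real.log D / L - Real.log p / L) z + e ≤
        A * Gp (Real.log D / L - z') z + e := by
      have := mul_le_mul_of_nonneg_left h7 hA
      linarith
    have h9 := mul_le_mul_of_nonneg_left h8 (show 0 ≤ X / p by positivity)
    refine h9.trans (le_of_eq ?_)
    ring
  refine (sum_le_sum h1).trans (le_of_eq ?_)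
  rw [← mul_sum, ← H.hB]
  ring

theorem step_lo (H : Bp L z' B P Q) (K : Blk A κ z z' B err) (hU : Up a δ L A (κ * z ^ 2) z Q)
    (hLo : Lo a δ L A (κ * z ^ 2) z Q) : Lo a δ L A (κ * z' ^ 2) z' (Q ∪ P) := by
  intro T X D hX hD hD2 hd
  have hz := K.hz
  have hz' : 0 < z' := by linarith [K.hzz]
  obtain ⟨v, hv⟩ : ∃ v, v = Real.log D / L := ⟨_, rfl⟩
  rw [← hv]
  rcases le_or_gt v (2 * z') with h1 | h1
  · rw [Gm_zero hz' h1, mul_zero, zero_sub]
    have h2 : 0 ≤ X * (κ * z' ^ 2) := by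
      have := K.hκ
      positivity
    have h3 : (0 : ℝ) ≤ ((Sf a T (Q ∪ P)).card : ℝ) := Nat.cast_nonneg _
    have h4 : X * -(κ * z' ^ 2) = -(X * (κ * z' ^ 2)) := by ring
    rw [h4]
    linarith
  · have h2 := hLo T X D hX hD hD2 (hd.sub subset_union_left)
    have h3 := sum_up H hz K.hA hU hX hD hD2 hd (by rw [← hv]; linarith)
    rw [← hv] at h2 h3
    have h4 := buch_lower (a := a) (T := T) (P := P) (Q := Q)
    have h5 := K.lower (v := v) (by linarith)
    have hzz := K.hzz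
    rw [G1_eq hz' h1.le, G1_eq hz (by linarith)] at h5
    have h6 := mul_le_mul_of_nonneg_left h5 hX
    have h7 : X * (A * Gm v z - κ * z ^ 2 - B * (A * Gp (v - z') z + κ * z ^ 2)) =
        X * (A * Gm v z - κ * z ^ 2) - X * (B * (A * Gp (v - z') z + κ * z ^ 2)) := by ring
    rw [h7] at h6
    linarith

theorem step_sp (H : Bp L z' B P Q) (K : Blk A κ z z' B err) (hU : Up a δ L A (κ * z ^ 2) z Q)
    {g : ℝ} (hX : 0 ≤ X) (hD : 1 < D) (hD2 : Real.log D ≤ 2 * L) (hd : Dist a δ T X D (Q ∪ P))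
    (hv : z' / 2 ≤ Real.log D / L - z')
    (hS : X * (A * G1 (Real.log D / L) z + g - κ * z ^ 2) ≤ ((Sf a T Q).card : ℝ)) :
    X * (A * G1 (Real.log D / L) z' + g - κ * z' ^ 2) ≤ ((Sf a T (Q ∪ P)).card : ℝ) := by
  have hz := K.hz
  have hz' : 0 < z' := by linarith [K.hzz]
  have h3 := sum_up H hz K.hA hU hX hD hD2 hd (by linarith)
  have h4 := buch_lower (a := a) (T := T) (P := P) (Q := Q)
  have h5 := K.lower hv
  obtain ⟨v, hv'⟩ : ∃ v, v = Real.log D / L := ⟨_, rfl⟩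
  rw [← hv'] at h3 h5 hS ⊢
  have h6 := mul_le_mul_of_nonneg_left h5 hX
  have h7 : X * (A * G1 v z - κ * z ^ 2 - B * (A * Gp (v - z') z + κ * z ^ 2)) =
      X * (A * G1 v z + g - κ * z ^ 2) - X * g - X * (B * (A * Gp (v - z') z + κ * z ^ 2)) := by
    ring
  have h8 : X * (A * G1 v z' - κ * z' ^ 2) = X * (A * G1 v z' + g - κ * z' ^ 2) - X * g := by ring
  rw [h7, h8] at h6
  linarith

theorem offDiag_le (H : Bp L z' B P Q) :
    ∑ t ∈ P.offDiag, 1 / ((t.1 : ℝ) * t.2) ≤ B ^ 2 := by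
  have h1 : ∑ t ∈ P.offDiag, 1 / ((t.1 : ℝ) * t.2) ≤ ∑ t ∈ P ×ˢ P, 1 / ((t.1 : ℝ) * t.2) := by
    apply sum_le_sum_of_subset_of_nonneg
    · intro t ht
      rw [mem_offDiag] at ht
      rw [mem_product]
      exact ⟨ht.1, ht.2.1⟩
    · intro t _ _
      positivity
  refine h1.trans (le_of_eq ?_)
  rw [H.hB, sq, sum_mul_sum, sum_product]
  refine sum_congr rfl fun p _ => sum_congr rfl fun q _ => ?_
  rw [one_div_mul_one_div]

theorem step_up (H : Bp L z' B P Q) (K : Blk A κ z z' B err) (hU : Up a δ L A (κ * z ^ 2) z Q)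
    (hLo : Lo a δ L A (κ * z ^ 2) z Q) : Up a δ L A (κ * z' ^ 2) z' (Q ∪ P) := by
  intro T X D hX hD hD2 hd
  have hz := K.hz
  have hA := K.hA
  have hκ := K.hκ
  have hz' : 0 < z' := by linarith [K.hzz]
  have hzz := K.hzz
  obtain ⟨v, hv⟩ : ∃ v, v = Real.log D / L := ⟨_, rfl⟩
  have hv0 : 0 < v := by
    rw [hv]
    exact div_pos (Real.log_pos hD) H.hL
  have h2 := hU T X D hX hD hD2 (hd.sub subset_union_left)
  rw [← hv] at h2 ⊢
  rcases lt_or_ge v (3 * z') with h1 | h1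
  · have h3 : ((Sf a T (Q ∪ P)).card : ℝ) ≤ ((Sf a T Q).card : ℝ) := by
      exact_mod_cast card_le_card Sf_union_sub
    exact (h3.trans h2).trans (mul_le_mul_of_nonneg_left (K.gap hv0 h1) hX)
  · have h4 := buch_upper (a := a) (T := T) (P := P) (Q := Q)
    have h5 := K.upper h1
    -- the first sum
    have s1 : X * (B * (A * Gm (v - z') z - κ * z ^ 2)) ≤
        ∑ p ∈ P, ((Sf a (Tp a T p) Q).card : ℝ) := by
      have e1 : ∀ p ∈ P, X * (A * Gm (v - z') z - κ * z ^ 2) * (1 / (p : ℝ)) ≤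
          ((Sf a (Tp a T p) Q).card : ℝ) := by
        intro p hp
        obtain ⟨h6, h7, h8⟩ := H.log hD hp
        have h9 := hLo (Tp a T p) (X / p) (D / p) (by positivity)
          (H.gt_one hD hp (by rw [← hv]; linarith)) (H.log_le hD hD2 hp) (H.dist hp hd)
        refine le_trans ?_ h9
        rw [h6, ← hv]
        have h10 := (H.hP p hp).2
        have h11 : Gm (v - z') z ≤ Gm (v - Real.log p / L) z :=
          Gm_mono hz (by linarith) (by linarith)
        have h12 : A * Gm (v - z') z - κ * z ^ 2 ≤ A * Gm (v - Real.log p / L) z - κ * z ^ 2 := by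
          have := mul_le_mul_of_nonneg_left h11 hA
          linarith
        refine le_trans (le_of_eq ?_)
          (mul_le_mul_of_nonneg_left h12 (show 0 ≤ X / p by positivity))
        ring
      refine le_trans (le_of_eq ?_) (sum_le_sum e1)
      rw [← mul_sum, ← H.hB]
      ring
    -- the second sum
    have s2 : ∑ t ∈ P.offDiag, ((Sf a (Tp a (Tp a T t.1) t.2) Q).card : ℝ) ≤
        X * (B ^ 2 * (A / z + κ * z ^ 2)) := by
      have e1 : ∀ t ∈ P.offDiag, ((Sf a (Tp a (Tp a T t.1) t.2) Q).card : ℝ) ≤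
          X * (A / z + κ * z ^ 2) * (1 / ((t.1 : ℝ) * t.2)) := by
        intro t ht
        rw [mem_offDiag] at ht
        obtain ⟨hp, hq, hpq⟩ := ht
        obtain ⟨h6, h7, h8⟩ := H.log hD hp
        have hD1 := H.gt_one hD hp (by rw [← hv]; linarith)
        obtain ⟨h6', h7', h8'⟩ := H.log hD1 hq
        have h10 := (H.hP _ hp).2
        have h10' := (H.hP _ hq).2
        have h12 : Real.log (D / t.1) / L = v - Real.log t.1 / L := by rw [h6, hv]
        have hD2' := H.gt_one hD1 hq (by rw [h12]; linarith)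
        have h9 := hU (Tp a (Tp a T t.1) t.2) (X / t.1 / t.2) (D / t.1 / t.2) (by positivity)
          hD2' (H.log_le hD1 (H.log_le hD hD2 hp) hq) (H.dist2 hp hq hpq hd)
        refine h9.trans ?_
        rw [h6', h12]
        have h13 : Gp (v - Real.log t.1 / L - Real.log t.2 / L) z ≤ 1 / z := by
          unfold Gp
          apply div_le_div_of_nonneg_right _ hz.le
          apply LF_le_one
          rw [le_div_iff₀ hz]
          linarith
        have h14 : A * Gp (v - Real.log t.1 / L - Real.log t.2 / L) z + κ * z ^ 2 ≤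
            A / z + κ * z ^ 2 := by
          have h15 := mul_le_mul_of_nonneg_left h13 hA
          have h16 : A * (1 / z) = A / z := by ring
          linarith
        refine (mul_le_mul_of_nonneg_left h14 (show 0 ≤ X / t.1 / t.2 by positivity)).trans
          (le_of_eq ?_)
        have h17 : (t.1 : ℝ) ≠ 0 := h7.ne'
        have h18 : (t.2 : ℝ) ≠ 0 := h7'.ne'
        field_simp
      refine (sum_le_sum e1).trans ?_
      rw [← mul_sum]
      have e2 : X * (B ^ 2 * (A / z + κ * z ^ 2)) = X * (A / z + κ * z ^ 2) * B ^ 2 := by ring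
      rw [e2]
      exact mul_le_mul_of_nonneg_left (offDiag_le H) (by positivity)
    have h6 := mul_le_mul_of_nonneg_left h5 hX
    have h7 : X * (A * Gp v z + κ * z ^ 2 - B * (A * Gm (v - z') z - κ * z ^ 2) +
        B ^ 2 * (A / z + κ * z ^ 2)) = X * (A * Gp v z + κ * z ^ 2) -
        X * (B * (A * Gm (v - z') z - κ * z ^ 2)) + X * (B ^ 2 * (A / z + κ * z ^ 2)) := by ring
    rw [h7] at h6
    linarith

end Pool.LinSieve
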