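import Pool.Agent.H.MP_0c96e5_nt.LinD
import Pool.Agent.H.MP_42e49e_nt.Core

/-!
# Iteration over the blocks of a stage
-/

set_option autoImplicit false

open Finset

namespace Pool.LinSieve

open Pool.MP42e49e (pw mem_pw sum_pw FF window)

variable {a : ℕ → ℤ} {δ L A κ h : ℝ} {Q0 : Finset ℕ} {w : ℕ → ℕ} {N : ℕ}

theorem blk_of {u u' : ℕ} (hL : 0 < L) (hA : 0 ≤ A) (hκ : 0 ≤ κ) (hu : 2 ≤ u) (huu : u ≤ u')
    (h1 : Real.log u' / L ≤ 1) (hh : 0 < h) (hi1 : h / 2 ≤ Real.log u' / L - Real.log u / L)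
    (hi2 : Real.log u' / L - Real.log u / L ≤ 2 * h) (h32 : 32 * h ≤ Real.log u / L)
    (h48 : 48 * A * h ≤ κ * (Real.log u / L) ^ 4) (herr : 12 / Real.log u ≤ h ^ 2 / 4) :
    Blk A κ (Real.log u / L) (Real.log u' / L) (FF u' - FF u) (12 / Real.log u) := by
  have hu1 : (2 : ℝ) ≤ u := by exact_mod_cast hu
  have hu2 : (u : ℝ) ≤ u' := by exact_mod_cast huu
  have hl : 0 < Real.log u := Real.log_pos (by linarith)
  have hl' : 0 < Real.log u' := Real.log_pos (by linarith)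
  obtain ⟨hw1, hw2⟩ := window hu huu
  obtain ⟨z, hz⟩ : ∃ z, z = Real.log u / L := ⟨_, rfl⟩
  obtain ⟨z', hz'⟩ : ∃ z', z' = Real.log u' / L := ⟨_, rfl⟩
  have hz0 : 0 < z := by rw [hz]; positivity
  have hz0' : 0 < z' := by rw [hz']; positivity
  have e1 : Real.log (Real.log u') - Real.log (Real.log u) = Real.log (z' / z) := by
    rw [← Real.log_div hl'.ne' hl.ne']
    congr 1
    rw [hz, hz']
    field_simp
  have e2 : Real.log (z' / z) ≤ (z' - z) / z := by
    have := Real.log_le_sub_one_of_pos (div_pos hz0' hz0)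
    have e3 : z' / z - 1 = (z' - z) / z := by field_simp
    linarith
  have e4 : (z' - z) / z' ≤ Real.log (z' / z) := by
    have := Real.one_sub_inv_le_log_of_pos (div_pos hz0' hz0)
    have e3 : 1 - (z' / z)⁻¹ = (z' - z) / z' := by field_simp
    linarith
  rw [e1] at hw1 hw2
  rw [← hz] at hi1 hi2 h32 h48 ⊢
  rw [← hz'] at h1 hi1 hi2 ⊢
  refine ⟨hA, hκ, hz0, by linarith, h1, by linarith, ?_, by positivity, ?_, ?_, by linarith,
    by linarith⟩
  · have : 24 * A * (z' - z) ≤ 24 * A * (2 * h) := mul_le_mul_of_nonneg_left hi2 (by positivity)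
    linarith
  · refine herr.trans ?_
    have : (h / 2) ^ 2 ≤ (z' - z) ^ 2 := pow_le_pow_left₀ (by positivity) hi1 2
    linarith
  · rw [← sum_pw huu]
    exact sum_nonneg fun p _ => by positivity

theorem bp_of {u u' : ℕ} {Q : Finset ℕ} (hL : 0 < L) (hu : 2 ≤ u) (huu : u ≤ u')
    (hQ : ∀ q ∈ Q, q ≤ u) : Bp L (Real.log u' / L) (FF u' - FF u) (pw u u') Q := by
  refine ⟨hL, ?_, ?_, (sum_pw huu).symm⟩
  · intro p hp
    have h1 := mem_pw.1 hp
    refine ⟨by omega, ?_⟩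
    apply div_le_div_of_nonneg_right _ hL.le
    apply Real.log_le_log
    · exact_mod_cast h1.1.pos
    · exact_mod_cast h1.2.2
  · rw [Finset.disjoint_left]
    intro p hp hpQ
    have h1 := mem_pw.1 hp
    have h2 := hQ p hpQ
    omega

/-- the data of a stage -/
structure Stage (w : ℕ → ℕ) (N : ℕ) (L A κ h : ℝ) (Q0 : Finset ℕ) : Prop where
  hL : 0 < L
  hA : 0 ≤ A
  hκ : 0 ≤ κ
  hh : 0 < h
  h2 : 2 ≤ w 0
  mono : ∀ i < N, w i ≤ w (i + 1)
  h1 : ∀ i ≤ N, Real.log (w i) / L ≤ 1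
  inc1 : ∀ i < N, h / 2 ≤ Real.log (w (i + 1)) / L - Real.log (w i) / L
  inc2 : ∀ i < N, Real.log (w (i + 1)) / L - Real.log (w i) / L ≤ 2 * h
  h32 : 32 * h ≤ Real.log (w 0) / L
  h48 : 48 * A * h ≤ κ * (Real.log (w 0) / L) ^ 4
  herr : 12 / Real.log (w 0) ≤ h ^ 2 / 4
  hQ0 : ∀ q ∈ Q0, q ≤ w 0

theorem Stage.ge (H : Stage w N L A κ h Q0) : ∀ i ≤ N, w 0 ≤ w i := by
  intro i
  induction i with
  | zero => intro _; exact le_rfl
  | succ i ih => intro hi; exact (ih (by omega)).trans (H.mono i (by omega))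

theorem Stage.log_ge (H : Stage w N L A κ h Q0) {i : ℕ} (hi : i ≤ N) :
    0 < Real.log (w 0) ∧ Real.log (w 0) ≤ Real.log (w i) := by
  have h1 : (2 : ℝ) ≤ w 0 := by exact_mod_cast H.h2
  have h2 : (w 0 : ℝ) ≤ w i := by exact_mod_cast H.ge i hi
  exact ⟨Real.log_pos (by linarith), Real.log_le_log (by linarith) h2⟩

theorem Stage.blk (H : Stage w N L A κ h Q0) {i : ℕ} (hi : i < N) :
    Blk A κ (Real.log (w i) / L) (Real.log (w (i + 1)) / L) (FF (w (i + 1)) - FF (w i))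
      (12 / Real.log (w i)) := by
  obtain ⟨h1, h2⟩ := H.log_ge hi.le
  have hL := H.hL
  have h3 : Real.log (w 0) / L ≤ Real.log (w i) / L := div_le_div_of_nonneg_right h2 hL.le
  have h4 : 0 < Real.log (w 0) / L := by positivity
  refine blk_of hL H.hA H.hκ (H.h2.trans (H.ge i hi.le)) (H.mono i hi) (H.h1 (i + 1) hi) H.hh
    (H.inc1 i hi) (H.inc2 i hi) (H.h32.trans h3) ?_ ?_
  · refine H.h48.trans ?_
    exact mul_le_mul_of_nonneg_left (pow_le_pow_left₀ h4.le h3 4) H.hκ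
  · refine le_trans ?_ H.herr
    exact div_le_div_of_nonneg_left (by norm_num) h1 h2

/-- the set of the sifting primes -/
noncomputable def Qi (w : ℕ → ℕ) (Q0 : Finset ℕ) (i : ℕ) : Finset ℕ := Q0 ∪ pw (w 0) (w i)

theorem Qi_zero : Qi w Q0 0 = Q0 := by
  unfold Qi
  have : pw (w 0) (w 0) = ∅ := by
    ext p
    rw [mem_pw]
    simp only [notMem_empty, iff_false]
    omega
  rw [this, union_empty]

theorem Stage.succ (H : Stage w N L A κ h Q0) {i : ℕ} (hi : i < N) :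
    Qi w Q0 (i + 1) = Qi w Q0 i ∪ pw (w i) (w (i + 1)) := by
  unfold Qi
  rw [union_assoc]
  congr 1
  ext p
  rw [mem_union, mem_pw, mem_pw, mem_pw]
  have h1 := H.ge i hi.le
  have h2 := H.mono i hi
  constructor
  · rintro ⟨h3, h4, h5⟩
    rcases le_or_gt p (w i) with h6 | h6
    · exact Or.inl ⟨h3, h4, h6⟩
    · exact Or.inr ⟨h3, h6, h5⟩
  · rintro (⟨h3, h4, h5⟩ | ⟨h3, h4, h5⟩)
    · exact ⟨h3, h4, by omega⟩
    · exact ⟨h3, by omega, h5⟩

theorem Stage.bp (H : Stage w N L A κ h Q0) {i : ℕ} (hi : i < N) :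
    Bp L (Real.log (w (i + 1)) / L) (FF (w (i + 1)) - FF (w i)) (pw (w i) (w (i + 1)))
      (Qi w Q0 i) := by
  refine bp_of H.hL (H.h2.trans (H.ge i hi.le)) (H.mono i hi) ?_
  intro q hq
  unfold Qi at hq
  rw [mem_union] at hq
  rcases hq with hq | hq
  · exact (H.hQ0 q hq).trans (H.ge i hi.le)
  · exact (mem_pw.1 hq).2.2

theorem Stage.iter (H : Stage w N L A κ h Q0)
    (hU : Up a δ L A (κ * (Real.log (w 0) / L) ^ 2) (Real.log (w 0) / L) Q0)
    (hLo : Lo a δ L A (κ * (Real.log (w 0) / L) ^ 2) (Real.log (w 0) / L) Q0) :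
    ∀ i ≤ N, Up a δ L A (κ * (Real.log (w i) / L) ^ 2) (Real.log (w i) / L) (Qi w Q0 i) ∧
      Lo a δ L A (κ * (Real.log (w i) / L) ^ 2) (Real.log (w i) / L) (Qi w Q0 i) := by
  intro i
  induction i with
  | zero =>
    intro _
    rw [Qi_zero]
    exact ⟨hU, hLo⟩
  | succ i ih =>
    intro hi
    obtain ⟨h1, h2⟩ := ih (by omega)
    rw [H.succ (show i < N by omega)]
    exact ⟨step_up (H.bp hi) (H.blk hi) h1 h2, step_lo (H.bp hi) (H.blk hi) h1 h2⟩

theorem Stage.special (H : Stage w N L A κ h Q0)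
    (hU : Up a δ L A (κ * (Real.log (w 0) / L) ^ 2) (Real.log (w 0) / L) Q0)
    (hLo : Lo a δ L A (κ * (Real.log (w 0) / L) ^ 2) (Real.log (w 0) / L) Q0)
    {T : Finset ℕ} {X D g : ℝ} (hX : 0 ≤ X) (hD : 1 < D) (hD2 : Real.log D ≤ 2 * L)
    (hd : Dist a δ T X D (Qi w Q0 N)) (hv : 3 / 2 ≤ Real.log D / L)
    (hS : X * (A * G1 (Real.log D / L) (Real.log (w 0) / L) + g -
      κ * (Real.log (w 0) / L) ^ 2) ≤ ((Sf a T Q0).card : ℝ)) :
    ∀ i ≤ N, X * (A * G1 (Real.log D / L) (Real.log (w i) / L) + g -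
      κ * (Real.log (w i) / L) ^ 2) ≤ ((Sf a T (Qi w Q0 i)).card : ℝ) := by
  intro i
  induction i with
  | zero =>
    intro _
    rw [Qi_zero]
    exact hS
  | succ i ih =>
    intro hi
    have h1 := ih (by omega)
    obtain ⟨h2, -⟩ := H.iter hU hLo i (by omega)
    rw [H.succ (show i < N by omega)]
    refine step_sp (H.bp hi) (H.blk hi) h2 hX hD hD2 ?_ ?_ h1
    · rw [← H.succ (show i < N by omega)]
      apply hd.sub
      unfold Qi
      apply union_subset_union le_rfl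
      intro p hp
      rw [mem_pw] at hp ⊢
      refine ⟨hp.1, hp.2.1, hp.2.2.trans ?_⟩
      -- monotone
      have hmono : ∀ j, i + 1 + j ≤ N → w (i + 1) ≤ w (i + 1 + j) := by
        intro j
        induction j with
        | zero => intro _; exact le_rfl
        | succ j ihj => intro hj; exact (ihj (by omega)).trans (H.mono _ (by omega))
      have := hmono (N - (i + 1)) (by omega)
      have e : i + 1 + (N - (i + 1)) = N := by omega
      rwa [e] at this
    · have := H.h1 (i + 1) hi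
      linarith

end Pool.LinSieve
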