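import Pool.Agent.H.MP_0c96e5_nt.LinE

/-!
# The linear sieve with missing primes: the lower bound
-/

set_option autoImplicit false

open Finset MeasureTheory intervalIntegral

namespace Pool.LinSieve

open Pool.MP42e49e (pw mem_pw sum_pw FF window)

variable {a : ℕ → ℤ} {δ L A κ : ℝ}

theorem Sf_empty {T : Finset ℕ} : Sf a T ∅ = T := by
  ext n
  rw [mem_Sf]
  simp

theorem Ts_empty {T : Finset ℕ} : Ts a T ∅ = T := by
  ext n
  rw [mem_Ts]
  simp

theorem base {z e : ℝ} (hL : 0 < L) (hz : 0 < z) (hA : A = z / LF (2 / z)) (he : δ ≤ e) :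
    Up a δ L A e z ∅ ∧ Lo a δ L A e z ∅ := by
  have h2 : 0 < LF (2 / z) := LF_pos (by positivity)
  have key : ∀ (T : Finset ℕ) (X D : ℝ), 1 < D → Dist a δ T X D ∅ →
      |((Sf a T ∅).card : ℝ) - X| ≤ δ * X := by
    intro T X D hD hd
    have h3 := hd ∅ le_rfl (by simpa using hD.le)
    rw [Ts_empty, prod_empty, Nat.cast_one, div_one] at h3
    rw [Sf_empty]
    exact h3
  constructor
  · intro T X D hX hD hD2 hd
    have h3 := (abs_le.1 (key T X D hD hd)).2
    have hv0 : 0 < Real.log D / L := div_pos (Real.log_pos hD) hL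
    have hv2 : Real.log D / L ≤ 2 := by
      rw [div_le_iff₀ hL]
      exact hD2
    have h4 : 1 ≤ A * Gp (Real.log D / L) z := by
      have h5 : A * Gp (Real.log D / L) z = LF (Real.log D / L / z) / LF (2 / z) := by
        unfold Gp
        rw [hA]
        field_simp
      rw [h5, one_le_div h2]
      exact LF_anti (div_pos hv0 hz) (div_le_div_of_nonneg_right hv2 hz.le)
    have h5 : X * (1 + δ) ≤ X * (A * Gp (Real.log D / L) z + e) :=
      mul_le_mul_of_nonneg_left (by linarith) hX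
    linarith
  · intro T X D hX hD hD2 hd
    have h3 := (abs_le.1 (key T X D hD hd)).1
    have hv0 : 0 < Real.log D / L := div_pos (Real.log_pos hD) hL
    have hv2 : Real.log D / L ≤ 2 := by
      rw [div_le_iff₀ hL]
      exact hD2
    have h4 : A * Gm (Real.log D / L) z ≤ 1 := by
      have h5 : A * Gm (Real.log D / L) z = Lf (Real.log D / L / z) / LF (2 / z) := by
        unfold Gm
        rw [hA]
        field_simp
      rw [h5, div_le_one h2]
      have h6 : Lf (Real.log D / L / z) ≤ Lf (2 / z) :=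
        Lf_mono (div_pos hv0 hz) (div_le_div_of_nonneg_right hv2 hz.le)
      exact h6.trans (Lf_lt (by positivity)).le
    have h5 : X * (A * Gm (Real.log D / L) z - e) ≤ X * (1 - δ) :=
      mul_le_mul_of_nonneg_left (by linarith) hX
    linarith

/-- passing over a range of primes which do not sift -/
theorem skip {z z' : ℝ} {Q : Finset ℕ} (hL : 0 < L) (hA : 0 ≤ A) (hκ : 0 ≤ κ) (hz : 0 < z)
    (hzz : z ≤ z')
    (hU : Up a δ L A (κ * z ^ 2) z Q) (hLo : Lo a δ L A (κ * z ^ 2) z Q) :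
    Up a δ L (A * (z' / z)) (κ * z' ^ 2) z' Q ∧ Lo a δ L (A * (z' / z)) (κ * z' ^ 2) z' Q := by
  have hz' : 0 < z' := by linarith
  have hsq : κ * z ^ 2 ≤ κ * z' ^ 2 :=
    mul_le_mul_of_nonneg_left (pow_le_pow_left₀ hz.le hzz 2) hκ
  constructor
  · intro T X D hX hD hD2 hd
    refine (hU T X D hX hD hD2 hd).trans (mul_le_mul_of_nonneg_left ?_ hX)
    have hv0 : 0 < Real.log D / L := div_pos (Real.log_pos hD) hL
    have h1 : A * (z' / z) * Gp (Real.log D / L) z' = A * (LF (Real.log D / L / z') / z) := by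
      unfold Gp
      field_simp
    have h2 : A * Gp (Real.log D / L) z ≤ A * (LF (Real.log D / L / z') / z) := by
      apply mul_le_mul_of_nonneg_left _ hA
      apply div_le_div_of_nonneg_right _ hz.le
      exact LF_anti (div_pos hv0 hz') (div_le_div_of_nonneg_left hv0.le hz hzz)
    linarith
  · intro T X D hX hD hD2 hd
    refine le_trans (mul_le_mul_of_nonneg_left ?_ hX) (hLo T X D hX hD hD2 hd)
    have hv0 : 0 < Real.log D / L := div_pos (Real.log_pos hD) hL
    have h1 : A * (z' / z) * Gm (Real.log D / L) z' = A * (Lf (Real.log D / L / z') / z) := by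
      unfold Gm
      field_simp
    have h2 : A * (Lf (Real.log D / L / z') / z) ≤ A * Gm (Real.log D / L) z := by
      apply mul_le_mul_of_nonneg_left _ hA
      apply div_le_div_of_nonneg_right _ hz.le
      exact Lf_mono (div_pos hv0 hz') (div_le_div_of_nonneg_left hv0.le hz hzz)
    linarith

theorem G1_one {v : ℝ} (h1 : 3 / 2 ≤ v) (h2 : v ≤ 2) : -(2 * (2 - v)) ≤ G1 v 1 := by
  have hv : 0 < v := by linarith
  unfold G1
  rw [div_one, integral_symm, neg_div, neg_le_neg_iff, div_le_iff₀ hv]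
  have h3 : ∫ t in (v - 1)..1, La t * wt t ≤ 2 * (1 - (v - 1)) := by
    apply int_le Law_cont (by linarith)
    intro t ht1 ht2
    rw [La_wt (by linarith)]
    exact LF_le_two (by linarith)
  nlinarith

/-- **The linear sieve, with the primes of a range missing.** -/
theorem lin_main {w1 w2 : ℕ → ℕ} {N1 N2 : ℕ} {h1 h2 z0 zα zθ v : ℝ}
    (hz0 : z0 = Real.log (w1 0) / L) (hzα : zα = Real.log (w1 N1) / L)
    (hzθ : zθ = Real.log (w2 0) / L)
    (H1 : Stage w1 N1 L A κ h1 ∅) (H2 : Stage w2 N2 L (A * (zθ / zα)) κ h2 (pw (w1 0) (w1 N1)))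
    (hA : A = z0 / LF (2 / z0)) (hδ : δ ≤ κ * z0 ^ 2)
    (hαθ : zα ≤ zθ) (hx : Real.log (w2 N2) / L = 1)
    {T : Finset ℕ} {X D : ℝ} (hX : 0 < X) (hD : 1 < D) (hv : v = Real.log D / L)
    (hv1 : 3 / 2 ≤ v) (hv2 : v ≤ 2) (hvθ : 2 * zθ ≤ v)
    (hκ : κ < A / zα * (Lf (v / zα) - Lf (v / zθ) - 2 * (2 - v)))
    (hd : Dist a δ T X D (Qi w2 (pw (w1 0) (w1 N1)) N2)) :
    0 < (Sf a T (Qi w2 (pw (w1 0) (w1 N1)) N2)).card := by
  have hL := H1.hL
  obtain ⟨hl0, hl1⟩ := H1.log_ge (le_refl N1)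
  have hz0p : 0 < z0 := by
    rw [hz0]
    positivity
  have hzαp : 0 < zα := by
    rw [hzα]
    exact div_pos (by linarith) hL
  have hzθp : 0 < zθ := by linarith
  have hAp : 0 < A := by
    rw [hA]
    exact div_pos hz0p (LF_pos (by positivity))
  have hD2 : Real.log D ≤ 2 * L := by
    rw [hv, div_le_iff₀ hL] at hv2
    exact hv2
  obtain ⟨b1, b2⟩ := base (a := a) (δ := δ) (L := L) (A := A) (z := z0) (e := κ * z0 ^ 2) hL hz0p
    hA hδ
  rw [hz0] at b1 b2
  obtain ⟨c1, c2⟩ := H1.iter b1 b2 N1 le_rfl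
  rw [← hzα] at c1 c2
  have hQ1 : Qi w1 ∅ N1 = pw (w1 0) (w1 N1) := by
    unfold Qi
    rw [empty_union]
  rw [hQ1] at c1 c2
  obtain ⟨d1, d2⟩ := skip hL hAp.le H1.hκ hzαp hαθ c1 c2
  have hsub : pw (w1 0) (w1 N1) ⊆ Qi w2 (pw (w1 0) (w1 N1)) N2 := by
    unfold Qi
    exact subset_union_left
  have s0 := c2 T X D hX.le hD hD2 (hd.sub hsub)
  rw [← hv] at s0
  obtain ⟨g, hg⟩ : ∃ g, g = A * Gm v zα - A * (zθ / zα) * G1 v zθ := ⟨_, rfl⟩
  have hsq : κ * zα ^ 2 ≤ κ * zθ ^ 2 :=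
    mul_le_mul_of_nonneg_left (pow_le_pow_left₀ hzαp.le hαθ 2) H1.hκ
  have s1 : X * (A * (zθ / zα) * G1 (Real.log D / L) (Real.log (w2 0) / L) + g -
      κ * (Real.log (w2 0) / L) ^ 2) ≤ ((Sf a T (pw (w1 0) (w1 N1))).card : ℝ) := by
    rw [← hv, ← hzθ]
    refine le_trans (mul_le_mul_of_nonneg_left ?_ hX.le) s0
    rw [hg]
    linarith
  rw [hzθ] at d1 d2
  have s2 := H2.special (by rw [hzθ]; exact d1) (by rw [hzθ]; exact d2) hX.le hD hD2 hd
    (by rw [← hv]; exact hv1) s1 N2 le_rfl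
  rw [hx, ← hv] at s2
  have s3 : 0 < A * (zθ / zα) * G1 v 1 + g - κ * 1 ^ 2 := by
    have e1 := G1_one hv1 hv2
    have e2 : A * (zθ / zα) * -(2 * (2 - v)) ≤ A * (zθ / zα) * G1 v 1 :=
      mul_le_mul_of_nonneg_left e1 (by positivity)
    have e3 : A * (zθ / zα) ≤ A / zα := by
      have : zθ ≤ 1 := by linarith
      rw [← mul_div_assoc]
      apply div_le_div_of_nonneg_right _ hzαp.le
      exact mul_le_of_le_one_right hAp.le this
    have e4 : A * (zθ / zα) * (2 * (2 - v)) ≤ A / zα * (2 * (2 - v)) :=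
      mul_le_mul_of_nonneg_right e3 (by linarith)
    have e5 : g = A / zα * (Lf (v / zα) - Lf (v / zθ)) := by
      rw [hg, G1_eq hzθp hvθ]
      unfold Gm
      field_simp
    have e6 : A / zα * (Lf (v / zα) - Lf (v / zθ) - 2 * (2 - v)) =
        A / zα * (Lf (v / zα) - Lf (v / zθ)) - A / zα * (2 * (2 - v)) := by ring
    rw [e6] at hκ
    linarith
  have s4 : 0 < X * (A * (zθ / zα) * G1 v 1 + g - κ * 1 ^ 2) := mul_pos hX s3
  have s5 : (0 : ℝ) < ((Sf a T (Qi w2 (pw (w1 0) (w1 N1)) N2)).card : ℝ) := by linarith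
  exact_mod_cast s5

end Pool.LinSieve
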