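import Pool.Agent.H.MP_0c96e5_nt.LinF
import Pool.Agent.H.MP_42e49e_nt.Core3

/-!
# The random primes: distribution of the survivors in all progressions
-/

set_option autoImplicit false

open Finset

namespace Pool.LinSieve

open Pool.Agent.H.MP_3e6494_nt (prm mem_prm)
open Pool.MP42e49e

/-- the classes modulo a set of primes -/
theorem exists_class_set (a : ℕ → ℤ) {s : Finset ℕ} (hs : ∀ p ∈ s, p.Prime) :
    ∃ c, c < ∏ p ∈ s, p ∧ ∀ n : ℕ, ((∏ p ∈ s, p) ∣ c + n ↔ ∀ p ∈ s, (p : ℤ) ∣ (n : ℤ) - a p) := by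
  induction s using Finset.induction_on with
  | empty => exact ⟨0, by simp, fun n => by simp⟩
  | insert p s hps ih =>
    obtain ⟨c, hc1, hc2⟩ := ih fun q hq => hs q (mem_insert_of_mem hq)
    have hp := hs p (mem_insert_self p s)
    obtain ⟨c', hc1', hc2'⟩ := exists_class_one hp.pos (a p)
    have hco : Nat.Coprime p (∏ q ∈ s, q) := by
      refine Nat.Coprime.prod_right fun q hq => ?_
      refine (Nat.coprime_primes hp (hs q (mem_insert_of_mem hq))).2 ?_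
      rintro rfl
      exact hps hq
    have hE : (∏ q ∈ s, q) ≠ 0 := by omega
    refine ⟨Nat.chineseRemainder hco c' c, ?_, ?_⟩
    · rw [prod_insert hps]
      exact Nat.chineseRemainder_lt_mul hco c' c hp.ne_zero hE
    · intro n
      obtain ⟨h1, h2⟩ := (Nat.chineseRemainder hco c' c).2
      obtain ⟨k, hk⟩ : ∃ k : ℕ, k = (Nat.chineseRemainder hco c' c : ℕ) := ⟨_, rfl⟩
      rw [← hk] at h1 h2 ⊢
      rw [prod_insert hps, forall_mem_insert, ← hc2 n, ← hc2' n]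
      have e1 : p ∣ k + n ↔ p ∣ c' + n := by
        rw [← Nat.modEq_zero_iff_dvd, ← Nat.modEq_zero_iff_dvd]
        exact ⟨fun h => (h1.add_right n).symm.trans h, fun h => (h1.add_right n).trans h⟩
      have e2 : (∏ q ∈ s, q) ∣ k + n ↔ (∏ q ∈ s, q) ∣ c + n := by
        rw [← Nat.modEq_zero_iff_dvd, ← Nat.modEq_zero_iff_dvd]
        exact ⟨fun h => (h2.add_right n).symm.trans h, fun h => (h2.add_right n).trans h⟩
      rw [← e1, ← e2]
      constructor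
      · intro h
        exact ⟨(dvd_mul_right _ _).trans h, (dvd_mul_left _ _).trans h⟩
      · rintro ⟨h3, h4⟩
        exact hco.mul_dvd_of_dvd_of_dvd h3 h4

/-- random primes, as a list -/
noncomputable def lR (Wa Wt : ℕ) : List ℕ := (pw Wa Wt).toList

theorem mem_lR {Wa Wt q : ℕ} : q ∈ lR Wa Wt ↔ q.Prime ∧ Wa < q ∧ q ≤ Wt := by
  unfold lR
  rw [mem_toList, mem_pw]

theorem lR_prod {Wa Wt : ℕ} : (lR Wa Wt).prod = ∏ p ∈ pw Wa Wt, p := by
  unfold lR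
  rw [← Finset.prod_map_toList, List.map_id']

/-- parameters of the random stage -/
structure ParR (y W Wa Wt P0 k1 : ℕ) (δ κ : ℝ) : Prop where
  hδ0 : 0 < δ
  hδ1 : δ ≤ 1 / 8
  hκ0 : 0 < κ
  hκ1 : κ ≤ 1
  hW : 1 ≤ W
  hWa : W ^ 2 ≤ Wa
  hat : Wa ≤ Wt
  hP : 1 ≤ P0
  hy : 1 ≤ y
  hk1 : 1 ≤ k1
  S1 : ∀ (b : ℕ → ℕ) (d c : ℕ), 0 < d → d ≤ P0 → (∀ q ∈ lS W, Nat.Coprime d q) →
    |((sv b (lS W) (cls y d c)).card : ℝ) - (y : ℝ) / d * PP (lS W)| ≤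
      δ * ((y : ℝ) / d * PP (lS W))
  H3 : κ * rs (lR Wa Wt) ≤ δ / 16
  H3' : rs2 (lR Wa Wt) ≤ δ / 16
  H4 : 16 * k1 * (1 / (Wa : ℝ) + P0 / y) ≤ κ * (PP (lS W) * PP (lR Wa Wt))

variable {y W Wa Wt P0 k1 : ℕ} {δ κ : ℝ}

/-- the main term -/
noncomputable def XX (y W Wa Wt : ℕ) : ℝ := y * (PP (lS W) * PP (lR Wa Wt))

theorem PPR_pos : 0 < PP (lR Wa Wt) :=
  (Real.exp_pos _).trans_le (PP_ge _ fun _ hq => (mem_lR.1 hq).1.two_le)

theorem ev_lo (h : ParR y W Wa Wt P0 k1 δ κ) {e : ℕ} (he : 0 < e) (heP : e ≤ P0)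
    (heS : ∀ q ∈ lS W, Nat.Coprime e q) (heR : ∀ q ∈ lR Wa Wt, Nat.Coprime e q) (c B : ℕ) :
    (cnt (fun s => (s : ℝ) < (1 - δ) * ((1 - δ) * ((y : ℝ) / e * PP (lS W))) * PP (lR Wa Wt))
      (lR Wa Wt) (sv (fun _ => B) (lS W) (cls y e c)) : ℝ) ≤
      (lR Wa Wt).prod * Real.exp (-(k1 * δ / 4)) := by
  have hδ0 := h.hδ0
  have hδ1 := h.hδ1
  have hS := PPS_pos (W := W)
  have hL := PPR_pos (Wa := Wa) (Wt := Wt)
  have he0 : (0 : ℝ) < e := by exact_mod_cast he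
  have hy : (0 : ℝ) < y := by exact_mod_cast h.hy
  have hWa : (0 : ℝ) < Wa := by
    have h1 := h.hWa
    have h2 : 1 ≤ W ^ 2 := Nat.one_le_pow _ _ h.hW
    exact_mod_cast (show 0 < Wa by omega)
  have hs := (abs_le.1 (h.S1 (fun _ => B) e c he heP heS)).1
  have h1δ : 0 < 1 - δ := by linarith
  have hN : 0 < (1 - δ) * ((y : ℝ) / e * PP (lS W)) := by positivity
  have h1 := lt' (κ := κ) (β := δ) (a := 1 - δ) (N := (1 - δ) * ((y : ℝ) / e * PP (lS W)))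
    (K := (y : ℝ) / e / (Wa : ℝ) + 1) (k := k1) (l := lR Wa Wt)
    (T := sv (fun _ => B) (lS W) (cls y e c)) h.hκ0.le h.hκ1 h.hk1
    (fun q hq => (mem_lR.1 hq).1.two_le) (pairwise_toList fun p hp => (mem_pw.1 hp).1)
    hN (by linarith) h1δ (Real.one_sub_le_exp_neg δ)
    (fun q hq c' => sv_filter_le (cls_filter_le he hWa
      (by
        have := (mem_lR.1 hq).2.1
        exact_mod_cast this.le) (heR q hq) y c c'))
    (by
      have h2 := mul_le_mul_of_nonneg_left h.H4 (by positivity : 0 ≤ (y : ℝ) / e)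
      have e1 : (y : ℝ) / e * (16 * k1 * (1 / (Wa : ℝ) + P0 / y)) =
          16 * (k1 * ((y : ℝ) / e / (Wa : ℝ) + P0 / e)) := by
        field_simp
      rw [e1] at h2
      have h4 : (1 : ℝ) ≤ (P0 : ℝ) / e := by
        rw [one_le_div he0]
        exact_mod_cast heP
      have h3 : (k1 : ℝ) * ((y : ℝ) / e / (Wa : ℝ) + 1) ≤
          k1 * ((y : ℝ) / e / (Wa : ℝ) + P0 / e) :=
        mul_le_mul_of_nonneg_left (by linarith) (Nat.cast_nonneg k1)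
      have hκ0 := h.hκ0
      have h5 : 0 < κ * (((y : ℝ) / e) * (PP (lS W) * PP (lR Wa Wt))) := by positivity
      have h6 : (1 / 2 : ℝ) ≤ (1 - δ) ^ 2 := by nlinarith
      have h7 := mul_le_mul_of_nonneg_right h6 h5.le
      nlinarith)
  refine h1.trans ?_
  refine mul_le_mul_of_nonneg_left ?_ (Nat.cast_nonneg _)
  apply Real.exp_le_exp.2
  have h2 := h.H3
  have hk : (0 : ℝ) ≤ k1 := Nat.cast_nonneg k1
  have h3 : (k1 : ℝ) * (δ / 4) ≤ k1 * (δ - κ * rs (lR Wa Wt)) :=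
    mul_le_mul_of_nonneg_left (by linarith) hk
  linarith

theorem ev_up (h : ParR y W Wa Wt P0 k1 δ κ) {e : ℕ} (he : 0 < e) (heP : e ≤ P0)
    (heS : ∀ q ∈ lS W, Nat.Coprime e q) (heR : ∀ q ∈ lR Wa Wt, Nat.Coprime e q) (c B : ℕ) :
    (cnt (fun s => (1 + δ) * ((1 + δ) * ((y : ℝ) / e * PP (lS W))) * PP (lR Wa Wt) < (s : ℝ))
      (lR Wa Wt) (sv (fun _ => B) (lS W) (cls y e c)) : ℝ) ≤
      (lR Wa Wt).prod * Real.exp (-(k1 * δ / 4)) := by
  have hδ0 := h.hδ0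
  have hδ1 := h.hδ1
  have hS := PPS_pos (W := W)
  have hL := PPR_pos (Wa := Wa) (Wt := Wt)
  have he0 : (0 : ℝ) < e := by exact_mod_cast he
  have hy : (0 : ℝ) < y := by exact_mod_cast h.hy
  have hWa : (0 : ℝ) < Wa := by
    have h1 := h.hWa
    have h2 : 1 ≤ W ^ 2 := Nat.one_le_pow _ _ h.hW
    exact_mod_cast (show 0 < Wa by omega)
  have hs := (abs_le.1 (h.S1 (fun _ => B) e c he heP heS)).2
  have hN : 0 < (1 + δ) * ((y : ℝ) / e * PP (lS W)) := by positivity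
  have h1 := ut (κ := κ) (β := δ / 2) (a := 1 + δ) (N := (1 + δ) * ((y : ℝ) / e * PP (lS W)))
    (K := (y : ℝ) / e / (Wa : ℝ) + 1) (k := k1) (l := lR Wa Wt)
    (T := sv (fun _ => B) (lS W) (cls y e c)) h.hκ0.le h.hκ1
    (fun q hq => (mem_lR.1 hq).1.two_le) (pairwise_toList fun p hp => (mem_pw.1 hp).1)
    hN (by linarith) (exp_half_le hδ0 (by linarith))
    (fun q hq c' => sv_filter_le (cls_filter_le he hWa
      (by
        have := (mem_lR.1 hq).2.1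
        exact_mod_cast this.le) (heR q hq) y c c'))
    (by
      have h2 := mul_le_mul_of_nonneg_left h.H4 (by positivity : 0 ≤ (y : ℝ) / e)
      have e1 : (y : ℝ) / e * (16 * k1 * (1 / (Wa : ℝ) + P0 / y)) =
          16 * (k1 * ((y : ℝ) / e / (Wa : ℝ) + P0 / e)) := by
        field_simp
      rw [e1] at h2
      have h4 : (1 : ℝ) ≤ (P0 : ℝ) / e := by
        rw [one_le_div he0]
        exact_mod_cast heP
      have h3 : (k1 : ℝ) * ((y : ℝ) / e / (Wa : ℝ) + 1) ≤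
          k1 * ((y : ℝ) / e / (Wa : ℝ) + P0 / e) :=
        mul_le_mul_of_nonneg_left (by linarith) (Nat.cast_nonneg k1)
      have hκ0 := h.hκ0
      have h5 : 0 < κ * (((y : ℝ) / e) * (PP (lS W) * PP (lR Wa Wt))) := by positivity
      have h6 : (1 : ℝ) ≤ (1 + δ) ^ 2 := by nlinarith
      have h7 := mul_le_mul_of_nonneg_right h6 h5.le
      have h8 : 0 ≤ (k1 : ℝ) * ((y : ℝ) / e / (Wa : ℝ) + 1) := by positivity
      nlinarith)
  refine h1.trans ?_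
  refine mul_le_mul_of_nonneg_left ?_ (Nat.cast_nonneg _)
  apply Real.exp_le_exp.2
  have h2 := h.H3
  have h2' := h.H3'
  have hk : (0 : ℝ) ≤ k1 := Nat.cast_nonneg k1
  have h3 : (k1 : ℝ) * (δ / 4) ≤ k1 * (δ / 2 - rs2 (lR Wa Wt) - κ * rs (lR Wa Wt)) :=
    mul_le_mul_of_nonneg_left (by linarith) hk
  linarith

/-- the number of survivors, for the shift `m` -/
noncomputable def sR (y W Wa Wt m e c B : ℕ) : ℕ :=
  (srv (lR Wa Wt) m (sv (fun _ => B) (lS W) (cls y e c))).card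

/-- a bad shift -/
def BadR (y W Wa Wt P0 : ℕ) (δ : ℝ) (m : ℕ) : Prop :=
  ∃ e, 0 < e ∧ e ≤ P0 ∧ (∀ q ∈ lS W, Nat.Coprime e q) ∧ (∀ q ∈ lR Wa Wt, Nat.Coprime e q) ∧
    ∃ c < P0, ∃ B < 4 ^ W ^ 2,
      ((sR y W Wa Wt m e c B : ℝ) <
        (1 - δ) * ((1 - δ) * ((y : ℝ) / e * PP (lS W))) * PP (lR Wa Wt) ∨
      (1 + δ) * ((1 + δ) * ((y : ℝ) / e * PP (lS W))) * PP (lR Wa Wt) <
        (sR y W Wa Wt m e c B : ℝ))

theorem cnt_eq_card {F : ℕ → Prop} [DecidablePred F] {l : List ℕ} {T : Finset ℕ} :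
    cnt F l T = ((range l.prod).filter fun m => F (srv l m T).card).card := by
  unfold cnt
  rw [card_filter]

open Classical in
theorem bad_card (h : ParR y W Wa Wt P0 k1 δ κ) :
    (((range (∏ p ∈ pw Wa Wt, p)).filter (BadR y W Wa Wt P0 δ)).card : ℝ) ≤
      ((∏ p ∈ pw Wa Wt, p : ℕ) : ℝ) *
        (((P0 * P0 * 4 ^ W ^ 2 : ℕ) : ℝ) * (2 * Real.exp (-(k1 * δ / 4)))) := by
  obtain ⟨E, hE⟩ : ∃ E : Finset ℕ, E = (Icc 1 P0).filter fun e =>
      (∀ q ∈ lS W, Nat.Coprime e q) ∧ (∀ q ∈ lR Wa Wt, Nat.Coprime e q) := ⟨_, rfl⟩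
  obtain ⟨M, hM⟩ : ∃ M, M = (lR Wa Wt).prod := ⟨_, rfl⟩
  rw [← lR_prod, ← hM]
  obtain ⟨G, hG⟩ : ∃ G : ℕ × ℕ × ℕ → Finset ℕ, G = fun t => ((range M).filter fun m =>
      ((sR y W Wa Wt m t.1 t.2.1 t.2.2 : ℝ) <
        (1 - δ) * ((1 - δ) * ((y : ℝ) / t.1 * PP (lS W))) * PP (lR Wa Wt))) ∪
      ((range M).filter fun m => (1 + δ) * ((1 + δ) * ((y : ℝ) / t.1 * PP (lS W))) *
        PP (lR Wa Wt) < (sR y W Wa Wt m t.1 t.2.1 t.2.2 : ℝ)) := ⟨_, rfl⟩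
  have hsub : (range M).filter (BadR y W Wa Wt P0 δ) ⊆
      (E ×ˢ (range P0 ×ˢ range (4 ^ W ^ 2))).biUnion G := by
    intro m hm
    rw [mem_filter] at hm
    obtain ⟨hm0, e, he1, he2, he3, he4, c, hc, B, hB, hor⟩ := hm
    rw [mem_biUnion]
    refine ⟨(e, c, B), ?_, ?_⟩
    · rw [mem_product, mem_product, hE, mem_filter, mem_Icc, mem_range, mem_range]
      exact ⟨⟨⟨he1, he2⟩, he3, he4⟩, hc, hB⟩
    · rw [hG, mem_union, mem_filter, mem_filter]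
      rcases hor with h1 | h1
      · exact Or.inl ⟨hm0, h1⟩
      · exact Or.inr ⟨hm0, h1⟩
  have h1 := (card_le_card hsub).trans card_biUnion_le
  have h2 : ∀ t ∈ E ×ˢ (range P0 ×ˢ range (4 ^ W ^ 2)), ((G t).card : ℝ) ≤
      M * (2 * Real.exp (-(k1 * δ / 4))) := by
    intro t ht
    rw [mem_product, hE, mem_filter, mem_Icc] at ht
    obtain ⟨⟨⟨ht1, ht2⟩, ht3, ht4⟩, -⟩ := ht
    have e1 := ev_lo h (show 0 < t.1 by omega) ht2 ht3 ht4 t.2.1 t.2.2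
    have e2 := ev_up h (show 0 < t.1 by omega) ht2 ht3 ht4 t.2.1 t.2.2
    rw [cnt_eq_card, ← hM] at e1 e2
    have e3 : ((G t).card : ℝ) ≤ (((range M).filter fun m =>
      ((sR y W Wa Wt m t.1 t.2.1 t.2.2 : ℝ) <
        (1 - δ) * ((1 - δ) * ((y : ℝ) / t.1 * PP (lS W))) * PP (lR Wa Wt))).card : ℝ) +
      (((range M).filter fun m => (1 + δ) * ((1 + δ) * ((y : ℝ) / t.1 * PP (lS W))) *
        PP (lR Wa Wt) < (sR y W Wa Wt m t.1 t.2.1 t.2.2 : ℝ)).card : ℝ) := by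
      rw [hG]
      exact_mod_cast card_union_le _ _
    refine e3.trans ?_
    have e4 : (M : ℝ) * (2 * Real.exp (-(k1 * δ / 4))) = M * Real.exp (-(k1 * δ / 4)) +
        M * Real.exp (-(k1 * δ / 4)) := by ring
    rw [e4]
    refine add_le_add ((le_of_eq ?_).trans e1) ((le_of_eq ?_).trans e2)
    · unfold sR
      congr!
    · unfold sR
      congr!
  have h3 : (((range M).filter (BadR y W Wa Wt P0 δ)).card : ℝ) ≤
      ∑ t ∈ E ×ˢ (range P0 ×ˢ range (4 ^ W ^ 2)), ((G t).card : ℝ) := by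
    exact_mod_cast h1
  refine h3.trans ((sum_le_sum h2).trans ?_)
  rw [sum_const, nsmul_eq_mul]
  have h4 : (E ×ˢ (range P0 ×ˢ range (4 ^ W ^ 2))).card ≤ P0 * P0 * 4 ^ W ^ 2 := by
    rw [card_product, card_product, card_range, card_range, mul_assoc]
    apply Nat.mul_le_mul_right
    have h5 : E.card ≤ (Icc 1 P0).card := by
      rw [hE]
      exact card_filter_le _ _
    rwa [Nat.card_Icc, Nat.add_sub_cancel] at h5
  have h5 : (((E ×ˢ (range P0 ×ˢ range (4 ^ W ^ 2))).card : ℕ) : ℝ) ≤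
      ((P0 * P0 * 4 ^ W ^ 2 : ℕ) : ℝ) := by exact_mod_cast h4
  have h6 : (0 : ℝ) ≤ M * (2 * Real.exp (-(k1 * δ / 4))) := by positivity
  calc (((E ×ˢ (range P0 ×ˢ range (4 ^ W ^ 2))).card : ℕ) : ℝ) *
        (M * (2 * Real.exp (-(k1 * δ / 4))))
      ≤ ((P0 * P0 * 4 ^ W ^ 2 : ℕ) : ℝ) * (M * (2 * Real.exp (-(k1 * δ / 4)))) :=
        mul_le_mul_of_nonneg_right h5 h6
    _ = _ := by ring

/-- the survivors of the primes up to `W ^ 2` and of the random primes -/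
noncomputable def T0 (a : ℕ → ℤ) (y W Wa Wt m : ℕ) : Finset ℕ :=
  srv (lR Wa Wt) m (Sf a (Icc 1 y) (prm (W ^ 2)))

theorem dist_of_good {x : ℕ} (h : ParR y W Wa Wt P0 k1 δ κ) (a : ℕ → ℤ)
    {m : ℕ} (hm : ¬ BadR y W Wa Wt P0 δ m) :
    Dist a (3 * δ) (T0 a y W Wa Wt m) (XX y W Wa Wt) P0 (pw (W ^ 2) Wa ∪ pw Wt x) := by
  intro s hs hsP
  have hδ0 := h.hδ0
  have hδ1 := h.hδ1
  have hWa := h.hWa
  have hat := h.hat
  have hsp : ∀ p ∈ s, p.Prime ∧ W ^ 2 < p ∧ (p ≤ Wa ∨ Wt < p) := by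
    intro p hp
    have h1 := hs hp
    rw [mem_union, mem_pw, mem_pw] at h1
    rcases h1 with h1 | h1
    · exact ⟨h1.1, h1.2.1, Or.inl h1.2.2⟩
    · exact ⟨h1.1, by omega, Or.inr h1.2.1⟩
  obtain ⟨c, hc1, hc2⟩ := exists_class_set a (s := s) fun p hp => (hsp p hp).1
  obtain ⟨B, hB1, hB2⟩ := exists_class (W ^ 2) a
  obtain ⟨e, he⟩ : ∃ e, e = ∏ p ∈ s, p := ⟨_, rfl⟩
  rw [← he] at hc1 hc2 hsP ⊢
  have he0 : 0 < e := by omega
  have heP : e ≤ P0 := by exact_mod_cast hsP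
  have heS : ∀ q ∈ lS W, Nat.Coprime e q := by
    intro q hq
    rw [he]
    refine Nat.Coprime.prod_left fun p hp => ?_
    have h1 := hsp p hp
    have h2 := mem_lS.1 hq
    exact (Nat.coprime_primes h1.1 h2.1).2 (by omega)
  have heR : ∀ q ∈ lR Wa Wt, Nat.Coprime e q := by
    intro q hq
    rw [he]
    refine Nat.Coprime.prod_left fun p hp => ?_
    have h1 := hsp p hp
    have h2 := mem_lR.1 hq
    exact (Nat.coprime_primes h1.1 h2.1).2 (by omega)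
  have hset : Ts a (T0 a y W Wa Wt m) s =
      srv (lR Wa Wt) m (sv (fun _ => B) (lS W) (cls y e c)) := by
    ext n
    unfold T0
    rw [mem_Ts, mem_srv, mem_Sf, mem_srv, mem_sv, mem_cls, hc2 n]
    constructor
    · rintro ⟨⟨⟨h1, h2⟩, h3⟩, h4⟩
      refine ⟨⟨⟨h1, h4⟩, ?_⟩, h3⟩
      intro q hq
      have h5 := mem_lS.1 hq
      rw [hB2 q h5.1 h5.2 n]
      exact h2 q (mem_prm.2 h5)
    · rintro ⟨⟨⟨h1, h4⟩, h2⟩, h3⟩
      refine ⟨⟨⟨h1, ?_⟩, h3⟩, h4⟩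
      intro q hq
      have h5 := mem_prm.1 hq
      have h6 := h2 q (mem_lS.2 h5)
      rw [hB2 q h5.1 h5.2 n] at h6
      exact h6
  rw [hset]
  have hgood : ¬ ((sR y W Wa Wt m e c B : ℝ) <
        (1 - δ) * ((1 - δ) * ((y : ℝ) / e * PP (lS W))) * PP (lR Wa Wt) ∨
      (1 + δ) * ((1 + δ) * ((y : ℝ) / e * PP (lS W))) * PP (lR Wa Wt) <
        (sR y W Wa Wt m e c B : ℝ)) := fun hor =>
    hm ⟨e, he0, heP, heS, heR, c, by omega, B, hB1, hor⟩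
  push Not at hgood
  obtain ⟨g1, g2⟩ := hgood
  have hS := PPS_pos (W := W)
  have hL := PPR_pos (Wa := Wa) (Wt := Wt)
  have he0' : (0 : ℝ) < e := by exact_mod_cast he0
  have hy : (0 : ℝ) < y := by exact_mod_cast h.hy
  obtain ⟨Y, hY⟩ : ∃ Y : ℝ, Y = XX y W Wa Wt / e := ⟨_, rfl⟩
  have hY0 : 0 < Y := by
    rw [hY]
    unfold XX
    positivity
  have e1 : (1 - δ) * ((1 - δ) * ((y : ℝ) / e * PP (lS W))) * PP (lR Wa Wt) = (1 - δ) ^ 2 * Y := by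
    rw [hY]
    unfold XX
    ring
  have e2 : (1 + δ) * ((1 + δ) * ((y : ℝ) / e * PP (lS W))) * PP (lR Wa Wt) = (1 + δ) ^ 2 * Y := by
    rw [hY]
    unfold XX
    ring
  rw [e1] at g1
  rw [e2] at g2
  unfold sR at g1 g2
  rw [← hY, abs_le]
  have e3 : (1 - 3 * δ) * Y ≤ (1 - δ) ^ 2 * Y := mul_le_mul_of_nonneg_right (by nlinarith) hY0.le
  have e4 : (1 + δ) ^ 2 * Y ≤ (1 + 3 * δ) * Y := mul_le_mul_of_nonneg_right (by nlinarith) hY0.le
  constructor <;> linarith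

end Pool.LinSieve
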