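import Pool.Agent.H.MP_0c96e5_nt.LinG
import Pool.Agent.H.MP_0c96e5_nt.KReg

/-!
# The parameters
-/

set_option autoImplicit false

open Finset

namespace Pool.LinSieve

open Pool.Agent.H.MP_3e6494_nt (prm mem_prm)
open Pool.MP42e49e
open Pool.MP42e49e.R (floor_bounds FF_nonneg exp_neg_le_inv)

/-- the parameters -/
structure Lg (α θ γ η β δ L l : ℝ) (R N x y W Wa Wt P0 : ℕ) : Prop where
  hα : 0 < α
  hαθ : α < θ
  hθ : θ < 1
  hγ : 0 < γ
  hγ2 : 3 * γ ≤ Lf (2 / α) - Lf (2 / θ)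
  hη0 : 0 < η
  hη1 : η ≤ 1 / 8
  hη2 : 2 * η * (1 / α + 2) ≤ γ
  hη3 : η ≤ 1 - θ
  hβ0 : 0 < β
  hβα : 4 * β ≤ α
  hβη : (4 * R + 28) * β ≤ η / 2
  hδ0 : 0 < δ
  hδ : 3 * δ ≤ γ * β ^ 3
  hδ1 : δ ≤ 1 / 8
  hR : 115 ≤ R
  hR2 : 60 ≤ δ * 42 ^ R
  hN : 1 ≤ N
  hN1 : 64 / (N : ℝ) ≤ β
  hN2 : 96 / (Lf 4 * α) / N ≤ γ * β ^ 5
  hx : 1 ≤ x
  hL : L = Real.log x
  hl : l = Real.log L
  hl1 : 1000 ≤ l
  hl2 : 2 ≤ δ * l
  hlq : 300 * l ≤ β * L
  hL1 : 4 / L ≤ (α - 2 * β) / N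
  hL2 : 4 / L ≤ (1 - θ) / N
  hL3 : 48 / (β * L) ≤ ((α - 2 * β) / N) ^ 2
  hL4 : 48 / (β * L) ≤ ((1 - θ) / N) ^ 2
  hL5 : 4 / (L * θ ^ 2) ≤ γ
  hL6 : 4 / L ≤ β
  hW : W = ⌊Real.exp (β * L)⌋₊
  hWa : Wa = ⌊Real.exp (α * L)⌋₊
  hWt : Wt = ⌊Real.exp (θ * L)⌋₊
  hP : P0 = ⌊Real.exp ((2 - η) * L)⌋₊
  hy : Real.exp ((2 - η / 2) * L) ≤ y

variable {α θ γ η β δ L l : ℝ} {R N x y W Wa Wt P0 : ℕ}

theorem Lg.L_pos (h : Lg α θ γ η β δ L l R N x y W Wa Wt P0) : 0 < L := by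
  by_contra h1
  have h2 : β * L ≤ 0 := mul_nonpos_of_nonneg_of_nonpos h.hβ0.le (not_lt.1 h1)
  linarith [h.hlq, h.hl1]

theorem Lg.exp_l (h : Lg α θ γ η β δ L l R N x y W Wa Wt P0) : Real.exp l = L := by
  rw [h.hl, Real.exp_log h.L_pos]

theorem Lg.l_le (h : Lg α θ γ η β δ L l R N x y W Wa Wt P0) : l + 1 ≤ L := by
  have := Real.add_one_le_exp l
  rwa [h.exp_l] at this

theorem Lg.x_eq (h : Lg α θ γ η β δ L l R N x y W Wa Wt P0) : (x : ℝ) = Real.exp L := by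
  have h5 : (1 : ℝ) ≤ x := by exact_mod_cast h.hx
  rw [h.hL, Real.exp_log (by linarith)]

theorem Lg.β_le (h : Lg α θ γ η β δ L l R N x y W Wa Wt P0) : 488 * β ≤ 1 / 16 := by
  have h1 := h.hβη
  have h2 : (115 : ℝ) ≤ R := by exact_mod_cast h.hR
  have h3 := h.hη1
  have h4 := h.hβ0
  have h5 : 488 * β ≤ (4 * R + 28) * β := mul_le_mul_of_nonneg_right (by linarith) h4.le
  linarith

theorem Lg.W_facts (h : Lg α θ γ η β δ L l R N x y W Wa Wt P0) :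
    (W : ℝ) ≤ Real.exp (β * L) ∧ Real.exp (β * L) ≤ 2 * W ∧ β * L - 1 ≤ Real.log W ∧
    Real.log W ≤ β * L ∧ 2 ≤ W := by
  have h3 := floor_bounds (t := β * L) (by linarith [h.hlq, h.hl1])
  rw [← h.hW] at h3
  exact h3

theorem Lg.αL (h : Lg α θ γ η β δ L l R N x y W Wa Wt P0) : 4 * (β * L) ≤ α * L := by
  have := mul_le_mul_of_nonneg_right h.hβα h.L_pos.le
  linarith

theorem Lg.Wa_facts (h : Lg α θ γ η β δ L l R N x y W Wa Wt P0) :
    (Wa : ℝ) ≤ Real.exp (α * L) ∧ Real.exp (α * L) ≤ 2 * Wa ∧ α * L - 1 ≤ Real.log Wa ∧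
    Real.log Wa ≤ α * L ∧ 2 ≤ Wa := by
  have h3 := floor_bounds (t := α * L) (by linarith [h.αL, h.hlq, h.hl1])
  rw [← h.hWa] at h3
  exact h3

theorem Lg.Wt_facts (h : Lg α θ γ η β δ L l R N x y W Wa Wt P0) :
    (Wt : ℝ) ≤ Real.exp (θ * L) ∧ Real.exp (θ * L) ≤ 2 * Wt ∧ θ * L - 1 ≤ Real.log Wt ∧
    Real.log Wt ≤ θ * L ∧ 2 ≤ Wt := by
  have h4 : α * L ≤ θ * L := mul_le_mul_of_nonneg_right h.hαθ.le h.L_pos.le
  have h3 := floor_bounds (t := θ * L) (by linarith [h.αL, h.hlq, h.hl1])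
  rw [← h.hWt] at h3
  exact h3

theorem Lg.P_facts (h : Lg α θ γ η β δ L l R N x y W Wa Wt P0) :
    (P0 : ℝ) ≤ Real.exp ((2 - η) * L) ∧ Real.exp ((2 - η) * L) ≤ 2 * P0 ∧
    (2 - η) * L - 1 ≤ Real.log P0 ∧ Real.log P0 ≤ (2 - η) * L ∧ 2 ≤ P0 := by
  have h5 : L ≤ (2 - η) * L := by
    have := mul_le_mul_of_nonneg_right (show 1 ≤ 2 - η by linarith [h.hη1]) h.L_pos.le
    linarith
  have h3 := floor_bounds (t := (2 - η) * L) (by linarith [h.l_le, h.hl1])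
  rw [← h.hP] at h3
  exact h3

theorem Lg.W2_le (h : Lg α θ γ η β δ L l R N x y W Wa Wt P0) :
    ((W ^ 2 : ℕ) : ℝ) ≤ Real.exp (2 * (β * L)) := by
  rw [Nat.cast_pow, show (2 : ℝ) * (β * L) = (2 : ℕ) * (β * L) by norm_num, Real.exp_nat_mul]
  exact pow_le_pow_left₀ (Nat.cast_nonneg _) h.W_facts.1 2

theorem Lg.W2_le_Wa (h : Lg α θ γ η β δ L l R N x y W Wa Wt P0) : W ^ 2 ≤ Wa := by
  have h1 := h.W2_le
  have h2 := h.αL
  have h3 := h.hlq
  have h4 := h.hl1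
  have h5 : ((W ^ 2 : ℕ) : ℝ) ≤ Real.exp (α * L) :=
    h1.trans (Real.exp_le_exp.2 (by linarith))
  rw [h.hWa]
  exact Nat.le_floor h5

theorem Lg.Wa_le_Wt (h : Lg α θ γ η β δ L l R N x y W Wa Wt P0) : Wa ≤ Wt := by
  rw [h.hWa, h.hWt]
  apply Nat.floor_mono
  exact Real.exp_le_exp.2 (mul_le_mul_of_nonneg_right h.hαθ.le h.L_pos.le)

theorem Lg.Py (h : Lg α θ γ η β δ L l R N x y W Wa Wt P0) :
    (P0 : ℝ) * Real.exp ((4 * R + 28) * (β * L)) ≤ y := by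
  have h1 := h.P_facts.1
  have h2 := mul_le_mul_of_nonneg_right h.hβη h.L_pos.le
  calc (P0 : ℝ) * Real.exp ((4 * R + 28) * (β * L))
      ≤ Real.exp ((2 - η) * L) * Real.exp ((4 * R + 28) * (β * L)) :=
        mul_le_mul_of_nonneg_right h1 (Real.exp_pos _).le
    _ = Real.exp ((2 - η) * L + (4 * R + 28) * (β * L)) := by rw [Real.exp_add]
    _ ≤ Real.exp ((2 - η / 2) * L) := Real.exp_le_exp.2 (by linarith)
    _ ≤ y := h.hy

theorem Lg.y_pos (h : Lg α θ γ η β δ L l R N x y W Wa Wt P0) : (0 : ℝ) < y :=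
  (Real.exp_pos _).trans_le h.hy

theorem Lg.Py' (h : Lg α θ γ η β δ L l R N x y W Wa Wt P0) :
    (P0 : ℝ) / y ≤ Real.exp (-(488 * (β * L))) := by
  have h1 := h.Py
  have hR : (115 : ℝ) ≤ R := by exact_mod_cast h.hR
  have hq : 0 ≤ β * L := by linarith [h.hlq, h.hl1]
  rw [div_le_iff₀ h.y_pos]
  have h2 : Real.exp (488 * (β * L)) ≤ Real.exp ((4 * R + 28) * (β * L)) :=
    Real.exp_le_exp.2 (mul_le_mul_of_nonneg_right (by linarith) hq)
  have h3 : (P0 : ℝ) * Real.exp (488 * (β * L)) ≤ y :=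
    (mul_le_mul_of_nonneg_left h2 (Nat.cast_nonneg _)).trans h1
  have h4 := mul_le_mul_of_nonneg_left h3 (Real.exp_pos (-(488 * (β * L)))).le
  have h5 : Real.exp (-(488 * (β * L))) * ((P0 : ℝ) * Real.exp (488 * (β * L))) =
      P0 * (Real.exp (-(488 * (β * L))) * Real.exp (488 * (β * L))) := by ring
  rw [h5, ← Real.exp_add, neg_add_cancel, Real.exp_zero, mul_one] at h4
  exact h4

theorem Lg.FFt (h : Lg α θ γ η β δ L l R N x y W Wa Wt P0) : FF Wt ≤ l + 20 := by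
  have hW := h.Wt_facts
  have h1 := FF_le hW.2.2.2.2
  have h3 : (2 : ℝ) ≤ (Wt : ℝ) := by exact_mod_cast hW.2.2.2.2
  have h4 : 0 < Real.log (Wt : ℝ) := Real.log_pos (by linarith)
  have h5 : Real.log (Wt : ℝ) ≤ L := by
    have h6 : θ * L ≤ 1 * L := mul_le_mul_of_nonneg_right h.hθ.le h.L_pos.le
    linarith [hW.2.2.2.1]
  have h6 := Real.log_le_log h4 h5
  rw [← h.hl] at h6
  linarith

theorem FF_mono {u v : ℕ} (huv : u ≤ v) : FF u ≤ FF v := by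
  have h1 := sum_pw huv
  have h2 : 0 ≤ ∑ p ∈ pw u v, 1 / (p : ℝ) := sum_nonneg fun p _ => by positivity
  linarith

theorem Lg.rsR (h : Lg α θ γ η β δ L l R N x y W Wa Wt P0) :
    rs (lR Wa Wt) = FF Wt - FF Wa ∧ rs (lR Wa Wt) ≤ 2 * l := by
  have e : rs (lR Wa Wt) = FF Wt - FF Wa := by
    unfold lR
    rw [rs_toList, sum_pw h.Wa_le_Wt]
  refine ⟨e, ?_⟩
  rw [e]
  linarith [h.FFt, FF_nonneg Wa, h.hl1]

theorem Lg.L_ge (h : Lg α θ γ η β δ L l R N x y W Wa Wt P0) : 1000 ≤ L := by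
  linarith [h.hl1, h.l_le]

/-- `exp (β L)` is larger than any power needed -/
theorem Lg.big (h : Lg α θ γ η β δ L l R N x y W Wa Wt P0) : L ^ 20 ≤ Real.exp (β * L) := by
  have e1 : L ^ 20 = Real.exp (20 * l) := by
    rw [← h.exp_l, ← Real.exp_nat_mul]
    norm_num
  rw [e1]
  apply Real.exp_le_exp.2
  linarith [h.hlq, h.hl1]

theorem Lg.dl (h : Lg α θ γ η β δ L l R N x y W Wa Wt P0) : 2 ≤ δ * L := by
  have h1 := h.hl2
  have h2 : δ * l ≤ δ * L := mul_le_mul_of_nonneg_left (by linarith [h.l_le]) h.hδ0.le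
  linarith

theorem Lg.rs2R (h : Lg α θ γ η β δ L l R N x y W Wa Wt P0) : rs2 (lR Wa Wt) ≤ δ / 16 := by
  have hW := h.Wa_facts
  have h0 : (2 : ℝ) ≤ Wa := by exact_mod_cast hW.2.2.2.2
  have h1 := rs2_le (w := (Wa : ℝ)) (by positivity) (lR Wa Wt) (fun q hq => by
    have := (mem_lR.1 hq).2.1
    have h2 : ((Wa + 1 : ℕ) : ℝ) ≤ q := by exact_mod_cast this
    push_cast at h2
    exact h2)
  refine h1.trans ?_
  have h2 := h.rsR.2
  have h3 := h.l_le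
  have h4 := h.L_ge
  have h5 := h.big
  have h6 : Real.exp (β * L) ≤ Real.exp (α * L) := by
    apply Real.exp_le_exp.2
    have := h.αL
    linarith [h.hlq, h.hl1]
  have h7 : L ^ 3 ≤ L ^ 20 := pow_le_pow_right₀ (by linarith) (by norm_num)
  have h8 : L ^ 3 ≤ 2 * Wa := by linarith [hW.2.1]
  have h9 := h.dl
  rw [div_le_iff₀ (by positivity)]
  have h10 : δ * L ^ 3 ≤ δ * (2 * Wa) := mul_le_mul_of_nonneg_left h8 h.hδ0.le
  have h11 : 2 * L ^ 2 ≤ δ * L ^ 3 := by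
    have := mul_le_mul_of_nonneg_right h9 (show 0 ≤ L ^ 2 by positivity)
    calc 2 * L ^ 2 ≤ δ * L * L ^ 2 := this
      _ = δ * L ^ 3 := by ring
  have h12 : 1000 * L ≤ L ^ 2 := by nlinarith
  linarith

theorem Lg.VV (h : Lg α θ γ η β δ L l R N x y W Wa Wt P0) :
    Real.exp (-22) / L ≤ PP (lS W) * PP (lR Wa Wt) := by
  have h1 := PP_ge (lS W) fun q hq => (mem_lS.1 hq).1.two_le
  have h2 := PP_ge (lR Wa Wt) fun q hq => (mem_lR.1 hq).1.two_le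
  have h3 : rs2 (lS W) ≤ 1 := rs2_prm _
  have h4 := h.rs2R
  have h5 := h.hδ1
  have h6 : Real.exp (-22) / L = Real.exp (-22 - l) := by
    rw [Real.exp_sub, h.exp_l]
  rw [h6]
  have h7 : rs (lS W) = FF (W ^ 2) := rs_toList _
  have h8 := h.rsR.1
  have h9 := h.FFt
  have h10 := FF_mono h.W2_le_Wa
  calc Real.exp (-22 - l) ≤ Real.exp (-(rs (lS W) + rs2 (lS W)) +
        -(rs (lR Wa Wt) + rs2 (lR Wa Wt))) := Real.exp_le_exp.2 (by linarith)
    _ = Real.exp (-(rs (lS W) + rs2 (lS W))) * Real.exp (-(rs (lR Wa Wt) + rs2 (lR Wa Wt))) :=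
        Real.exp_add _ _
    _ ≤ _ := mul_le_mul h1 h2 (Real.exp_pos _).le PPS_pos.le

theorem Lg.parR (h : Lg α θ γ η β δ L l R N x y W Wa Wt P0) :
    ParR y W Wa Wt P0 (W ^ 2 * ⌈L⌉₊) δ (δ / (32 * l)) := by
  have hl := h.hl1
  have hL := h.L_ge
  have hL0 : 0 < L := by linarith
  have hl0 : 0 < l := by linarith
  have hδ0 := h.hδ0
  have hδ1 := h.hδ1
  have hW := h.W_facts
  have hWa := h.Wa_facts
  have hy := h.y_pos
  have hP := h.P_facts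
  have hCL1 : L ≤ (⌈L⌉₊ : ℝ) := Nat.le_ceil _
  have hCL2 : (⌈L⌉₊ : ℝ) ≤ 2 * L := by
    have := (Nat.ceil_lt_add_one (show 0 ≤ L by linarith)).le
    linarith
  refine ⟨hδ0, hδ1, by positivity, ?_, ?_, h.W2_le_Wa, h.Wa_le_Wt, ?_, ?_, ?_, ?_, ?_, h.rs2R, ?_⟩
  · rw [div_le_one (by linarith)]
    linarith
  · have := hW.2.2.2.2
    omega
  · have := hP.2.2.2.2
    omega
  · exact_mod_cast hy
  · apply Nat.one_le_iff_ne_zero.2
    have h1 := hW.2.2.2.2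
    apply Nat.mul_ne_zero (by positivity)
    have : (0 : ℝ) < (⌈L⌉₊ : ℝ) := by linarith
    have h2 : 0 < ⌈L⌉₊ := by exact_mod_cast this
    omega
  · intro b d c hd hdP hdc
    refine fund (L := L) (l := l) (q := β * L) (R := R) (P0 := P0) hl h.exp_l h.hlq
      ?_ hW.1 hW.2.1 hδ0 h.hl2 h.hR h.hR2 h.Py b c hd hdP hdc
    have := mul_le_mul_of_nonneg_right (show β ≤ 1 by linarith [h.β_le]) hL0.le
    linarith
  · have h1 := h.rsR.2
    have h2 : δ / (32 * l) * rs (lR Wa Wt) ≤ δ / (32 * l) * (2 * l) :=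
      mul_le_mul_of_nonneg_left h1 (by positivity)
    have h3 : δ / (32 * l) * (2 * l) = δ / 16 := by
      field_simp
      norm_num
    linarith
  · -- H4
    have hVV := h.VV
    have hRHS : δ / (32 * l) * (Real.exp (-22) / L) ≤
        δ / (32 * l) * (PP (lS W) * PP (lR Wa Wt)) :=
      mul_le_mul_of_nonneg_left hVV (by positivity)
    refine le_trans ?_ hRHS
    obtain ⟨q, hq⟩ : ∃ q, q = β * L := ⟨_, rfl⟩
    have hlq := h.hlq
    have hαL := h.αL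
    have hPy := h.Py'
    have hW2 := h.W2_le
    have hbig := h.big
    rw [← hq] at hlq hαL hPy hW2 hbig
    have hE : Real.exp (-22) = 1 / Real.exp 22 := by
      rw [Real.exp_neg, inv_eq_one_div]
    have hE0 : 0 < Real.exp 22 := Real.exp_pos _
    have hEL : Real.exp 22 ≤ L := by
      rw [← h.exp_l]
      exact Real.exp_le_exp.2 (by linarith)
    have hk : ((W ^ 2 * ⌈L⌉₊ : ℕ) : ℝ) ≤ Real.exp (2 * q) * (2 * L) := by
      rw [Nat.cast_mul]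
      exact mul_le_mul hW2 hCL2 (Nat.cast_nonneg _) (Real.exp_pos _).le
    have hWa1 : 1 / (Wa : ℝ) ≤ 2 * Real.exp (-(4 * q)) := by
      have h1 : Real.exp (4 * q) ≤ 2 * Wa := (Real.exp_le_exp.2 hαL).trans hWa.2.1
      have h2 : (0 : ℝ) < Wa := by
        have : (2 : ℝ) ≤ Wa := by exact_mod_cast hWa.2.2.2.2
        linarith
      rw [Real.exp_neg, div_le_iff₀ h2, mul_assoc, ← div_eq_inv_mul, ← mul_div_assoc,
        le_div_iff₀ (Real.exp_pos _)]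
      linarith
    have hPy2 : (P0 : ℝ) / y ≤ Real.exp (-(4 * q)) :=
      hPy.trans (Real.exp_le_exp.2 (by linarith))
    have h1 : 16 * ((W ^ 2 * ⌈L⌉₊ : ℕ) : ℝ) * (1 / (Wa : ℝ) + (P0 : ℝ) / y) ≤
        16 * (Real.exp (2 * q) * (2 * L)) * (3 * Real.exp (-(4 * q))) := by
      apply mul_le_mul _ (by linarith) (by positivity) (by positivity)
      linarith
    have h2 : 16 * (Real.exp (2 * q) * (2 * L)) * (3 * Real.exp (-(4 * q))) =
        96 * L * Real.exp (-(2 * q)) := by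
      have : Real.exp (2 * q) * Real.exp (-(4 * q)) = Real.exp (-(2 * q)) := by
        rw [← Real.exp_add]
        congr 1
        ring
      calc _ = 96 * L * (Real.exp (2 * q) * Real.exp (-(4 * q))) := by ring
        _ = _ := by rw [this]
    rw [h2] at h1
    refine h1.trans ?_
    have h3 : Real.exp (-(2 * q)) ≤ 1 / L ^ 20 := by
      have h4 : L ^ 20 ≤ Real.exp (2 * q) := hbig.trans (Real.exp_le_exp.2 (by linarith))
      rw [Real.exp_neg, inv_eq_one_div]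
      exact one_div_le_one_div_of_le (by positivity) h4
    have h4 : 96 * L * Real.exp (-(2 * q)) ≤ 96 * L * (1 / L ^ 20) :=
      mul_le_mul_of_nonneg_left h3 (by positivity)
    refine h4.trans ?_
    have h5 := h.dl
    have hlL := h.l_le
    -- `96 L / L ^ 20 ≤ δ / (32 l) / (e^22 L)`
    have h6 : (2 / L) / (32 * L) * (1 / L / L) ≤ δ / (32 * l) * (Real.exp (-22) / L) := by
      rw [hE]
      apply mul_le_mul _ _ (by positivity) (by positivity)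
      · apply div_le_div₀ hδ0.le _ (by positivity) (by linarith)
        rw [div_le_iff₀ hL0]
        exact h5
      · apply div_le_div_of_nonneg_right _ hL0.le
        exact one_div_le_one_div_of_le hE0 hEL
    refine le_trans ?_ h6
    have h7 : (2 / L) / (32 * L) * (1 / L / L) = 1 / (16 * L ^ 4) := by
      field_simp
      norm_num
    have h8 : 96 * L * (1 / L ^ 20) = 96 / L ^ 19 := by
      field_simp
    rw [h7, h8, div_le_div_iff₀ (by positivity) (by positivity)]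
    have h9 : L ^ 19 = L ^ 15 * L ^ 4 := by ring
    have h10 : (1536 : ℝ) ≤ L ^ 15 := by
      have h11 : L ^ 2 ≤ L ^ 15 := pow_le_pow_right₀ (by linarith) (by norm_num)
      nlinarith
    have h11 : 1536 * L ^ 4 ≤ L ^ 15 * L ^ 4 := mul_le_mul_of_nonneg_right h10 (by positivity)
    rw [h9]
    linarith

theorem Lg.count (h : Lg α θ γ η β δ L l R N x y W Wa Wt P0) (hδL : 64 ≤ δ * L) :
    ((P0 * P0 * 4 ^ W ^ 2 : ℕ) : ℝ) *
      (2 * Real.exp (-(((W ^ 2 * ⌈L⌉₊ : ℕ) : ℝ) * δ / 4))) ≤ Real.exp (-Real.exp (β * L)) := by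
  have hl := h.hl1
  have hL := h.L_ge
  have hL0 : 0 < L := by linarith
  have hδ0 := h.hδ0
  have hW := h.W_facts
  have hP := h.P_facts
  have hbig := h.big
  obtain ⟨F, hF⟩ : ∃ F : ℝ, F = Real.exp (β * L) := ⟨_, rfl⟩
  rw [← hF] at hW hbig ⊢
  have hCL1 : L ≤ (⌈L⌉₊ : ℝ) := Nat.le_ceil _
  obtain ⟨V, hV⟩ : ∃ V : ℝ, V = ((W ^ 2 : ℕ) : ℝ) := ⟨_, rfl⟩
  have hW2 : (2 : ℝ) ≤ W := by exact_mod_cast hW.2.2.2.2
  have hVW : (W : ℝ) ≤ V := by
    rw [hV, Nat.cast_pow]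
    nlinarith
  have hV0 : 0 < V := by linarith
  have hFV : F ≤ 2 * V := by linarith [hW.2.1]
  have hLF : 1000 * L ≤ F := by
    have h1 : L ^ 2 ≤ L ^ 20 := pow_le_pow_right₀ (by linarith) (by norm_num)
    nlinarith
  have e1 : ((4 ^ W ^ 2 : ℕ) : ℝ) ≤ Real.exp (2 * V) := by
    rw [Nat.cast_pow, mul_comm (2 : ℝ), hV, Real.exp_nat_mul]
    refine pow_le_pow_left₀ (by norm_num) ?_ _
    have := Real.add_one_le_exp (1 : ℝ)
    have e2 : Real.exp 2 = Real.exp 1 * Real.exp 1 := by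
      rw [← Real.exp_add]
      norm_num
    rw [e2]
    push_cast
    nlinarith
  have e2 : ((P0 * P0 : ℕ) : ℝ) ≤ Real.exp (4 * L) := by
    have h1 : (P0 : ℝ) ≤ Real.exp (2 * L) := by
      refine hP.1.trans (Real.exp_le_exp.2 ?_)
      exact mul_le_mul_of_nonneg_right (by linarith [h.hη0]) hL0.le
    rw [Nat.cast_mul]
    calc (P0 : ℝ) * P0 ≤ Real.exp (2 * L) * Real.exp (2 * L) :=
          mul_le_mul h1 h1 (Nat.cast_nonneg _) (Real.exp_pos _).le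
      _ = Real.exp (4 * L) := by
          rw [← Real.exp_add]
          congr 1
          ring
  have e3 : V * 64 ≤ ((W ^ 2 * ⌈L⌉₊ : ℕ) : ℝ) * δ := by
    rw [Nat.cast_mul, ← hV]
    have h1 : δ * L ≤ (⌈L⌉₊ : ℝ) * δ := by
      rw [mul_comm]
      exact mul_le_mul_of_nonneg_right hCL1 hδ0.le
    have h2 : V * 64 ≤ V * ((⌈L⌉₊ : ℝ) * δ) :=
      mul_le_mul_of_nonneg_left (by linarith) hV0.le
    linarith
  have e4 : (2 : ℝ) ≤ Real.exp 1 := by
    have := Real.add_one_le_exp (1 : ℝ)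
    linarith
  have e5 : Real.exp (-(((W ^ 2 * ⌈L⌉₊ : ℕ) : ℝ) * δ / 4)) ≤ Real.exp (-(16 * V)) :=
    Real.exp_le_exp.2 (by linarith)
  rw [Nat.cast_mul]
  calc ((P0 * P0 : ℕ) : ℝ) * ((4 ^ W ^ 2 : ℕ) : ℝ) *
        (2 * Real.exp (-(((W ^ 2 * ⌈L⌉₊ : ℕ) : ℝ) * δ / 4)))
      ≤ Real.exp (4 * L) * Real.exp (2 * V) * (Real.exp 1 * Real.exp (-(16 * V))) := by
        apply mul_le_mul (mul_le_mul e2 e1 (Nat.cast_nonneg _) (Real.exp_pos _).le)
          (mul_le_mul e4 e5 (Real.exp_pos _).le (Real.exp_pos _).le) (by positivity)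
          (by positivity)
    _ = Real.exp (4 * L + 2 * V + (1 + -(16 * V))) := by
        rw [Real.exp_add, Real.exp_add, Real.exp_add]
    _ ≤ Real.exp (-F) := by
        apply Real.exp_le_exp.2
        linarith

end Pool.LinSieve
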