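import Pool.Agent.H.MP_0c96e5_nt.LinH

/-!
# The two stages, and the conclusion
-/

set_option autoImplicit false

open Finset

namespace Pool.LinSieve

open Pool.Agent.H.MP_3e6494_nt (prm mem_prm)
open Pool.MP42e49e
open Pool.MP42e49e.R (floor_bounds FF_nonneg exp_neg_le_inv)

/-- thresholds of the first stage -/
noncomputable def w1 (W : ℕ) (α β L : ℝ) (N i : ℕ) : ℕ :=
  if i = 0 then W ^ 2 else ⌊Real.exp ((2 * β + i * ((α - 2 * β) / N)) * L)⌋₊

/-- thresholds of the second stage -/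
noncomputable def w2 (θ L : ℝ) (N i : ℕ) : ℕ := ⌊Real.exp ((θ + i * ((1 - θ) / N)) * L)⌋₊

variable {α θ γ η β δ L l : ℝ} {R N x y W Wa Wt P0 : ℕ}

theorem Lg.N_pos (h : Lg α θ γ η β δ L l R N x y W Wa Wt P0) : (0 : ℝ) < N := by
  exact_mod_cast (show 0 < N by have := h.hN; omega)

theorem Lg.h1_pos (h : Lg α θ γ η β δ L l R N x y W Wa Wt P0) : 0 < (α - 2 * β) / N ∧
    (α - 2 * β) / N ≤ 1 / N := by
  have hN := h.N_pos
  have h1 := h.hβα
  have h2 := h.hβ0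
  have h3 := h.hαθ
  have h4 := h.hθ
  refine ⟨div_pos (by linarith) hN, div_le_div_of_nonneg_right (by linarith) hN.le⟩

theorem Lg.h2_pos (h : Lg α θ γ η β δ L l R N x y W Wa Wt P0) : 0 < (1 - θ) / N ∧
    (1 - θ) / N ≤ 1 / N := by
  have hN := h.N_pos
  have h2 := h.hα
  have h3 := h.hαθ
  have h4 := h.hθ
  refine ⟨div_pos (by linarith) hN, div_le_div_of_nonneg_right (by linarith) hN.le⟩

theorem Lg.lw1 (h : Lg α θ γ η β δ L l R N x y W Wa Wt P0) (i : ℕ) :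
    2 * β + i * ((α - 2 * β) / N) - 2 / L ≤ Real.log (w1 W α β L N i) / L ∧
    Real.log (w1 W α β L N i) / L ≤ 2 * β + i * ((α - 2 * β) / N) ∧ 2 ≤ w1 W α β L N i := by
  have hL := h.L_pos
  have hW := h.W_facts
  unfold w1
  rcases Nat.eq_zero_or_pos i with rfl | hi
  · rw [if_pos rfl, Nat.cast_zero, zero_mul, add_zero, Nat.cast_pow, Real.log_pow]
    push_cast
    refine ⟨?_, ?_, ?_⟩
    · rw [le_div_iff₀ hL, sub_mul, div_mul_cancel₀ _ hL.ne']
      linarith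
    · rw [div_le_iff₀ hL]
      linarith
    · have := hW.2.2.2.2
      nlinarith
  · rw [if_neg (by omega)]
    obtain ⟨t, ht⟩ : ∃ t, t = (2 * β + i * ((α - 2 * β) / N)) * L := ⟨_, rfl⟩
    have h1 : 0 ≤ (i : ℝ) * ((α - 2 * β) / N) := mul_nonneg (Nat.cast_nonneg _) h.h1_pos.1.le
    have ht1 : 1 ≤ t := by
      have h2 : β * L ≤ t := by
        rw [ht]
        exact mul_le_mul_of_nonneg_right (by linarith [h.hβ0]) hL.le
      linarith [h.hlq, h.hl1]
    have h3 := floor_bounds ht1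
    rw [← ht]
    have h4 : 2 * β + i * ((α - 2 * β) / N) = t / L := by
      rw [ht]
      field_simp
    rw [h4]
    refine ⟨?_, div_le_div_of_nonneg_right h3.2.2.2.1 hL.le, h3.2.2.2.2⟩
    rw [← sub_div]
    exact div_le_div_of_nonneg_right (by linarith [h3.2.2.1]) hL.le

theorem Lg.lw2 (h : Lg α θ γ η β δ L l R N x y W Wa Wt P0) (i : ℕ) :
    θ + i * ((1 - θ) / N) - 1 / L ≤ Real.log (w2 θ L N i) / L ∧
    Real.log (w2 θ L N i) / L ≤ θ + i * ((1 - θ) / N) ∧ 2 ≤ w2 θ L N i := by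
  have hL := h.L_pos
  unfold w2
  obtain ⟨t, ht⟩ : ∃ t, t = (θ + i * ((1 - θ) / N)) * L := ⟨_, rfl⟩
  have h1 : 0 ≤ (i : ℝ) * ((1 - θ) / N) := mul_nonneg (Nat.cast_nonneg _) h.h2_pos.1.le
  have ht1 : 1 ≤ t := by
    have h2 : β * L ≤ t := by
      rw [ht]
      refine mul_le_mul_of_nonneg_right ?_ hL.le
      linarith [h.hβ0, h.hβα, h.hαθ]
    linarith [h.hlq, h.hl1]
  have h3 := floor_bounds ht1
  rw [← ht]
  have h4 : θ + i * ((1 - θ) / N) = t / L := by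
    rw [ht]
    field_simp
  rw [h4]
  refine ⟨?_, div_le_div_of_nonneg_right h3.2.2.2.1 hL.le, h3.2.2.2.2⟩
  rw [← sub_div]
  exact div_le_div_of_nonneg_right (by linarith [h3.2.2.1]) hL.le

theorem w1_zero : w1 W α β L N 0 = W ^ 2 := by
  unfold w1
  rw [if_pos rfl]

theorem Lg.w1_N (h : Lg α θ γ η β δ L l R N x y W Wa Wt P0) : w1 W α β L N N = Wa := by
  unfold w1
  rw [if_neg (by have := h.hN; omega), h.hWa]
  congr 3
  have := h.N_pos
  field_simp
  ring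

theorem Lg.w2_0 (h : Lg α θ γ η β δ L l R N x y W Wa Wt P0) : w2 θ L N 0 = Wt := by
  unfold w2
  rw [h.hWt, Nat.cast_zero, zero_mul, add_zero]

theorem Lg.w2_N (h : Lg α θ γ η β δ L l R N x y W Wa Wt P0) : w2 θ L N N = x := by
  unfold w2
  have h1 : (θ + N * ((1 - θ) / N)) * L = L := by
    have := h.N_pos
    field_simp
    ring
  rw [h1, ← h.x_eq, Nat.floor_natCast]

theorem Lg.z0 (h : Lg α θ γ η β δ L l R N x y W Wa Wt P0) :
    3 / 2 * β ≤ Real.log ((W ^ 2 : ℕ) : ℝ) / L ∧ Real.log ((W ^ 2 : ℕ) : ℝ) / L ≤ 1 / 4 := by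
  have h1 := h.lw1 0
  rw [w1_zero, Nat.cast_zero, zero_mul, add_zero] at h1
  have h2 := h.hL6
  have h3 := h.β_le
  have h4 : 2 / L = 4 / L / 2 := by ring
  constructor
  · linarith [h1.1]
  · linarith [h1.2.1]

theorem Lf4_pos : 0 < Lf 4 := by
  have h1 := Lf_strict (le_refl 2) (show (2 : ℝ) < 4 by norm_num)
  have h2 := Lf_nonneg (show (0 : ℝ) < 2 by norm_num)
  linarith

/-- the constant of the iteration -/
noncomputable def AA (W : ℕ) (L : ℝ) : ℝ :=
  Real.log ((W ^ 2 : ℕ) : ℝ) / L / LF (2 / (Real.log ((W ^ 2 : ℕ) : ℝ) / L))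

theorem Lg.A_bounds (h : Lg α θ γ η β δ L l R N x y W Wa Wt P0) :
    3 / 2 * β ≤ AA W L ∧ AA W L ≤ 1 / 4 / Lf 4 := by
  obtain ⟨h1, h2⟩ := h.z0
  have hβ := h.hβ0
  unfold AA
  obtain ⟨z, hz⟩ : ∃ z, z = Real.log ((W ^ 2 : ℕ) : ℝ) / L := ⟨_, rfl⟩
  rw [← hz] at h1 h2 ⊢
  have hz0 : 0 < z := by linarith
  have h3 : 4 ≤ 2 / z := by
    rw [le_div_iff₀ hz0]
    linarith
  have h4 : LF (2 / z) ≤ 1 := LF_le_one (by linarith)
  have h5 : Lf 4 ≤ LF (2 / z) := (Lf_mono (by norm_num) h3).trans (Lf_lt (by linarith)).le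
  have h6 : 0 < LF (2 / z) := LF_pos (by linarith)
  constructor
  · rw [le_div_iff₀ h6]
    calc 3 / 2 * β * LF (2 / z) ≤ 3 / 2 * β * 1 := mul_le_mul_of_nonneg_left h4 (by positivity)
      _ ≤ z := by linarith
  · exact div_le_div₀ (by norm_num) h2 Lf4_pos h5

theorem Lg.zα (h : Lg α θ γ η β δ L l R N x y W Wa Wt P0) :
    α / 2 ≤ Real.log Wa / L ∧ Real.log Wa / L ≤ α := by
  have hW := h.Wa_facts
  have hL := h.L_pos
  have h6 := h.hL6
  have h7 := h.hβα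
  constructor
  · rw [le_div_iff₀ hL]
    rw [div_le_iff₀ hL] at h6
    have := mul_le_mul_of_nonneg_right h7 hL.le
    linarith [hW.2.2.1]
  · rw [div_le_iff₀ hL]
    exact hW.2.2.2.1

theorem Lg.zθ (h : Lg α θ γ η β δ L l R N x y W Wa Wt P0) :
    θ / 2 ≤ Real.log Wt / L ∧ Real.log Wt / L ≤ θ ∧ θ - 1 / L ≤ Real.log Wt / L := by
  have hW := h.Wt_facts
  have hL := h.L_pos
  have h6 := h.hL6
  have h7 := h.hβα
  have h8 := h.hαθ
  refine ⟨?_, ?_, ?_⟩
  · rw [le_div_iff₀ hL]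
    rw [div_le_iff₀ hL] at h6
    have := mul_le_mul_of_nonneg_right (show 4 * β ≤ θ by linarith) hL.le
    linarith [hW.2.2.1]
  · rw [div_le_iff₀ hL]
    exact hW.2.2.2.1
  · rw [le_div_iff₀ hL, sub_mul, div_mul_cancel₀ _ hL.ne']
    linarith [hW.2.2.1]

theorem Lg.zz (h : Lg α θ γ η β δ L l R N x y W Wa Wt P0) :
    Real.log Wa / L ≤ Real.log Wt / L := by
  apply div_le_div_of_nonneg_right _ h.L_pos.le
  have h1 : (2 : ℝ) ≤ Wa := by exact_mod_cast h.Wa_facts.2.2.2.2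
  apply Real.log_le_log (by linarith)
  exact_mod_cast h.Wa_le_Wt

theorem Lg.stage1 (h : Lg α θ γ η β δ L l R N x y W Wa Wt P0) :
    Stage (w1 W α β L N) N L (AA W L) (γ * β) ((α - 2 * β) / N) ∅ := by
  have hL := h.L_pos
  have hN := h.N_pos
  obtain ⟨hh, hh1⟩ := h.h1_pos
  obtain ⟨hz1, hz2⟩ := h.z0
  obtain ⟨hA1, hA2⟩ := h.A_bounds
  have hβ := h.hβ0
  have hγ := h.hγ
  have hf4 := Lf4_pos
  have hA0 : 0 ≤ AA W L := by linarith
  have hαθ := h.hαθ
  have hθ := h.hθ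
  have hα := h.hα
  have hL1 := h.hL1
  have h2L : 2 / L = 4 / L / 2 := by ring
  refine ⟨hL, hA0, by positivity, hh, (h.lw1 0).2.2, ?_, ?_, ?_, ?_, ?_, ?_, ?_, ?_⟩
  · intro i hi
    unfold w1
    rw [if_neg (show i + 1 ≠ 0 by omega)]
    rcases Nat.eq_zero_or_pos i with rfl | hi0
    · rw [if_pos rfl]
      apply Nat.le_floor
      refine h.W2_le.trans (Real.exp_le_exp.2 ?_)
      rw [← mul_assoc]
      apply mul_le_mul_of_nonneg_right _ hL.le
      push_cast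
      linarith
    · rw [if_neg (by omega)]
      apply Nat.floor_mono
      apply Real.exp_le_exp.2
      apply mul_le_mul_of_nonneg_right _ hL.le
      push_cast
      linarith
  · intro i hi
    refine (h.lw1 i).2.1.trans ?_
    have h1 : (i : ℝ) * ((α - 2 * β) / N) ≤ N * ((α - 2 * β) / N) := by
      apply mul_le_mul_of_nonneg_right _ hh.le
      exact_mod_cast hi
    have h2 : (N : ℝ) * ((α - 2 * β) / N) = α - 2 * β := by field_simp
    linarith
  · intro i hi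
    have h1 := (h.lw1 i).2.1
    have h2 := (h.lw1 (i + 1)).1
    push_cast at h2
    linarith
  · intro i hi
    have h1 := (h.lw1 i).1
    have h2 := (h.lw1 (i + 1)).2.1
    push_cast at h2
    linarith
  · rw [w1_zero]
    have h1 := h.hN1
    have h2 : 64 / (N : ℝ) = 64 * (1 / N) := by ring
    linarith
  · rw [w1_zero]
    have h1 : 48 * AA W L * ((α - 2 * β) / N) ≤ 48 * (1 / 4 / Lf 4) * (1 / N) := by
      apply mul_le_mul _ hh1 hh.le (by positivity)
      linarith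
    have h2 : 48 * (1 / 4 / Lf 4) * (1 / (N : ℝ)) ≤ 96 / (Lf 4 * α) / N := by
      have e1 : 48 * (1 / 4 / Lf 4) * (1 / (N : ℝ)) = 12 / Lf 4 / N := by
        field_simp
        norm_num
      rw [e1]
      apply div_le_div_of_nonneg_right _ hN.le
      rw [div_le_div_iff₀ hf4 (by positivity)]
      nlinarith
    have h3 : γ * β ^ 5 ≤ γ * β * (Real.log ((W ^ 2 : ℕ) : ℝ) / L) ^ 4 := by
      have e1 : γ * β ^ 5 = γ * β * β ^ 4 := by ring
      rw [e1]
      apply mul_le_mul_of_nonneg_left _ (by positivity)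
      exact pow_le_pow_left₀ hβ.le (by linarith) 4
    linarith [h.hN2]
  · rw [w1_zero]
    have h1 : β * L ≤ Real.log ((W ^ 2 : ℕ) : ℝ) := by
      rw [le_div_iff₀ hL] at hz1
      have : 0 ≤ β * L := by positivity
      linarith
    have h2 : 12 / Real.log ((W ^ 2 : ℕ) : ℝ) ≤ 12 / (β * L) :=
      div_le_div_of_nonneg_left (by norm_num) (by positivity) h1
    have h3 := h.hL3
    have h4 : 48 / (β * L) = 4 * (12 / (β * L)) := by ring
    linarith
  · intro q hq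
    exact absurd hq (notMem_empty q)

theorem Lg.stage2 (h : Lg α θ γ η β δ L l R N x y W Wa Wt P0) :
    Stage (w2 θ L N) N L (AA W L * (Real.log Wt / L / (Real.log Wa / L))) (γ * β)
      ((1 - θ) / N) (pw (W ^ 2) Wa) := by
  have hL := h.L_pos
  have hN := h.N_pos
  obtain ⟨hh, hh1⟩ := h.h2_pos
  obtain ⟨hA1, hA2⟩ := h.A_bounds
  have hβ := h.hβ0
  have hγ := h.hγ
  have hf4 := Lf4_pos
  have hA0 : 0 ≤ AA W L := by linarith
  have hαθ := h.hαθ
  have hθ := h.hθ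
  have hα := h.hα
  have hL1 := h.hL2
  have h2L : 2 / L = 4 / L / 2 := by ring
  have h1L : 1 / L = 4 / L / 4 := by ring
  have h1L0 : 0 < 1 / L := by positivity
  obtain ⟨a1, a2⟩ := h.zα
  obtain ⟨t1, t2, t3⟩ := h.zθ
  have hzα : 0 < Real.log Wa / L := by linarith
  have hzθ : 0 < Real.log Wt / L := by linarith
  have hA2' : AA W L * (Real.log Wt / L / (Real.log Wa / L)) ≤ 1 / 4 / Lf 4 * (2 / α) := by
    apply mul_le_mul hA2 _ (by positivity) (by positivity)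
    have e1 : Real.log Wt / L / (Real.log Wa / L) ≤ 1 / (α / 2) :=
      div_le_div₀ (by norm_num) (by linarith) (by positivity) a1
    have e2 : 1 / (α / 2) = 2 / α := by field_simp
    linarith
  have hβθ : β ≤ Real.log Wt / L := by linarith [h.hβα]
  refine ⟨hL, by positivity, by positivity, hh, (h.lw2 0).2.2, ?_, ?_, ?_, ?_, ?_, ?_, ?_, ?_⟩
  · intro i hi
    unfold w2
    apply Nat.floor_mono
    apply Real.exp_le_exp.2
    apply mul_le_mul_of_nonneg_right _ hL.le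
    push_cast
    linarith
  · intro i hi
    refine (h.lw2 i).2.1.trans ?_
    have h1 : (i : ℝ) * ((1 - θ) / N) ≤ N * ((1 - θ) / N) := by
      apply mul_le_mul_of_nonneg_right _ hh.le
      exact_mod_cast hi
    have h2 : (N : ℝ) * ((1 - θ) / N) = 1 - θ := by field_simp
    linarith
  · intro i hi
    have h1 := (h.lw2 i).2.1
    have h2 := (h.lw2 (i + 1)).1
    push_cast at h2
    linarith
  · intro i hi
    have h1 := (h.lw2 i).1
    have h2 := (h.lw2 (i + 1)).2.1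
    push_cast at h2
    linarith
  · rw [h.w2_0]
    have h1 := h.hN1
    have h2 : 64 / (N : ℝ) = 64 * (1 / N) := by ring
    linarith
  · rw [h.w2_0]
    have h1 : 48 * (AA W L * (Real.log Wt / L / (Real.log Wa / L))) * ((1 - θ) / N) ≤
        48 * (1 / 4 / Lf 4 * (2 / α)) * (1 / N) := by
      apply mul_le_mul _ hh1 hh.le (by positivity)
      linarith
    have h2 : 48 * (1 / 4 / Lf 4 * (2 / α)) * (1 / (N : ℝ)) ≤ 96 / (Lf 4 * α) / N := by
      have e1 : 48 * (1 / 4 / Lf 4 * (2 / α)) * (1 / (N : ℝ)) = 24 / (Lf 4 * α) / N := by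
        field_simp
        norm_num
      rw [e1]
      apply div_le_div_of_nonneg_right _ hN.le
      apply div_le_div_of_nonneg_right _ (by positivity)
      norm_num
    have h3 : γ * β ^ 5 ≤ γ * β * (Real.log Wt / L) ^ 4 := by
      have e1 : γ * β ^ 5 = γ * β * β ^ 4 := by ring
      rw [e1]
      apply mul_le_mul_of_nonneg_left _ (by positivity)
      exact pow_le_pow_left₀ hβ.le hβθ 4
    linarith [h.hN2]
  · rw [h.w2_0]
    have h1 : β * L ≤ Real.log Wt := by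
      rw [le_div_iff₀ hL] at hβθ
      exact hβθ
    have h2 : 12 / Real.log Wt ≤ 12 / (β * L) :=
      div_le_div_of_nonneg_left (by norm_num) (by positivity) h1
    have h3 := h.hL4
    have h4 : 48 / (β * L) = 4 * (12 / (β * L)) := by ring
    linarith
  · intro q hq
    rw [h.w2_0]
    exact ((mem_pw.1 hq).2.2).trans h.Wa_le_Wt

theorem Lg.bracket (h : Lg α θ γ η β δ L l R N x y W Wa Wt P0) {v : ℝ}
    (hv : v = Real.log P0 / L) : 2 * θ ≤ v ∧ v ≤ 2 ∧ 3 / 2 ≤ v ∧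
    γ ≤ Lf (v / (Real.log Wa / L)) - Lf (v / (Real.log Wt / L)) - 2 * (2 - v) := by
  have hL := h.L_pos
  have hP := h.P_facts
  have hα := h.hα
  have hαθ := h.hαθ
  have hθ := h.hθ
  have hη0 := h.hη0
  have hη1 := h.hη1
  have hη3 := h.hη3
  have hβ0 := h.hβ0
  have hR : (115 : ℝ) ≤ R := by exact_mod_cast h.hR
  have h1L : 1 / L ≤ η := by
    have h1 := h.hL6
    have h2 := h.hβη
    have h3 : 488 * β ≤ (4 * R + 28) * β := mul_le_mul_of_nonneg_right (by linarith) hβ0.le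
    have h4 : 4 / L = 4 * (1 / L) := by ring
    linarith
  have hv1 : 2 - η - 1 / L ≤ v := by
    rw [hv, le_div_iff₀ hL, sub_mul, div_mul_cancel₀ _ hL.ne']
    exact hP.2.2.1
  have hv2 : v ≤ 2 - η := by
    rw [hv, div_le_iff₀ hL]
    exact hP.2.2.2.1
  have hvθ : 2 * θ ≤ v := by linarith
  refine ⟨hvθ, by linarith, by linarith, ?_⟩
  obtain ⟨a1, a2⟩ := h.zα
  obtain ⟨t1, t2, t3⟩ := h.zθ
  obtain ⟨zα, hzα⟩ : ∃ z, z = Real.log Wa / L := ⟨_, rfl⟩
  obtain ⟨zθ, hzθ⟩ : ∃ z, z = Real.log Wt / L := ⟨_, rfl⟩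
  rw [← hzα] at a1 a2 ⊢
  rw [← hzθ] at t1 t2 t3 ⊢
  have hzα0 : 0 < zα := by linarith
  have hzθ0 : 0 < zθ := by linarith
  have hv0 : 0 < v := by linarith
  have hθ0 : 0 < θ := by linarith
  have e1 : Lf (v / α) ≤ Lf (v / zα) :=
    Lf_mono (by positivity) (div_le_div_of_nonneg_left hv0.le hzα0 a2)
  have e2 : Lf (2 / α) ≤ Lf (v / α) + (2 / α - v / α) := by
    apply Lf_lip
    · rw [le_div_iff₀ hα]
      linarith
    · exact div_le_div_of_nonneg_right (by linarith) hα.le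
  have e3 : Lf (v / zθ) ≤ Lf (2 / zθ) :=
    Lf_mono (by positivity) (div_le_div_of_nonneg_right (by linarith) hzθ0.le)
  have e4 : Lf (2 / zθ) ≤ Lf (2 / θ) + (2 / zθ - 2 / θ) := by
    apply Lf_lip
    · rw [le_div_iff₀ hθ0]
      linarith
    · exact div_le_div_of_nonneg_left (by norm_num) hzθ0 t2
  have e5 : 2 / zθ - 2 / θ ≤ 4 / (L * θ ^ 2) := by
    have e6 : 2 / zθ - 2 / θ = 2 * (θ - zθ) / (zθ * θ) := by
      field_simp
    rw [e6, div_le_div_iff₀ (by positivity) (by positivity)]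
    have e7 : (θ - zθ) * L ≤ 1 := by
      have : θ - zθ ≤ 1 / L := by linarith
      rwa [le_div_iff₀ hL] at this
    have e8 : θ * θ ≤ 2 * (zθ * θ) := by nlinarith
    have e9 : 2 * (θ - zθ) * (L * θ ^ 2) = 2 * ((θ - zθ) * L) * θ ^ 2 := by ring
    have e10 : 2 * ((θ - zθ) * L) * θ ^ 2 ≤ 2 * 1 * θ ^ 2 := by
      apply mul_le_mul_of_nonneg_right _ (by positivity)
      linarith
    rw [e9]
    nlinarith
  have e6 : 2 / α - v / α = (2 - v) * (1 / α) := by ring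
  have e7 : (2 - v) * (1 / α + 2) ≤ 2 * η * (1 / α + 2) := by
    apply mul_le_mul_of_nonneg_right _ (by positivity)
    linarith
  have h3 := h.hγ2
  have h4 := h.hL5
  have h5 := h.hη2
  have e8 : (2 - v) * (1 / α + 2) = (2 - v) * (1 / α) + 2 * (2 - v) := by ring
  linarith

theorem Lg.not_cov (h : Lg α θ γ η β δ L l R N x y W Wa Wt P0) {m : ℕ}
    (hm : ¬ BadR y W Wa Wt P0 δ m) : ¬ Cov x y Wa Wt m := by
  rintro ⟨a, ha⟩
  have hd := dist_of_good (x := x) h.parR a hm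
  obtain ⟨v, hv⟩ : ∃ v, v = Real.log P0 / L := ⟨_, rfl⟩
  obtain ⟨b1, b2, b3, b4⟩ := h.bracket hv
  obtain ⟨A1, A2⟩ := h.A_bounds
  obtain ⟨z1, z2⟩ := h.z0
  obtain ⟨c1, c2⟩ := h.zα
  obtain ⟨t1, t2, t3⟩ := h.zθ
  have hL := h.L_pos
  have hβ := h.hβ0
  have hγ := h.hγ
  have hα := h.hα
  have hP := h.P_facts
  have hXX : 0 < XX y W Wa Wt := by
    unfold XX
    have h1 := h.y_pos
    have h2 := PPS_pos (W := W)
    have h3 := PPR_pos (Wa := Wa) (Wt := Wt)
    positivity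
  have h0 : w1 W α β L N 0 = W ^ 2 := w1_zero
  have h1 := h.w1_N
  have h2 := h.w2_0
  have h3 := h.w2_N
  have hQ : Qi (w2 θ L N) (pw (w1 W α β L N 0) (w1 W α β L N N)) N = pw (W ^ 2) Wa ∪ pw Wt x := by
    unfold Qi
    rw [h0, h1, h2, h3]
  have hmain := lin_main (a := a) (δ := 3 * δ) (L := L) (A := AA W L) (κ := γ * β)
    (w1 := w1 W α β L N) (w2 := w2 θ L N) (N1 := N) (N2 := N) (h1 := (α - 2 * β) / N)
    (h2 := (1 - θ) / N) (z0 := Real.log ((W ^ 2 : ℕ) : ℝ) / L) (zα := Real.log Wa / L)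
    (zθ := Real.log Wt / L) (v := v) (by rw [h0]) (by rw [h1]) (by rw [h2]) h.stage1
    (by rw [h0, h1]; exact h.stage2) rfl ?_ h.zz ?_
    (T := T0 a y W Wa Wt m) (X := XX y W Wa Wt) (D := P0) hXX ?_ hv b3 b2 (by linarith) ?_
    (by rw [hQ]; exact hd)
  · rw [hQ, card_pos] at hmain
    obtain ⟨n, hn⟩ := hmain
    rw [mem_Sf] at hn
    obtain ⟨hn1, hn2⟩ := hn
    unfold T0 at hn1
    rw [mem_srv, mem_Sf] at hn1
    obtain ⟨⟨hn3, hn4⟩, hn5⟩ := hn1
    have hcop : Nat.Coprime (m + n) (∏ p ∈ pw Wa Wt, p) := by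
      refine Nat.Coprime.prod_right fun q hq => ?_
      have h4 := mem_pw.1 hq
      rw [Nat.coprime_comm]
      exact (Nat.Prime.coprime_iff_not_dvd h4.1).2 (hn5 q (mem_lR.2 h4))
    obtain ⟨p, hp, hpx, hpQ, hpn⟩ := ha n hn3 hcop
    rcases le_or_gt p (W ^ 2) with h4 | h4
    · exact hn4 p (mem_prm.2 ⟨hp, h4⟩) hpn
    · rcases le_or_gt p Wa with h5 | h5
      · exact hn2 p (mem_union_left _ (mem_pw.2 ⟨hp, h4, h5⟩)) hpn
      · have h6 : Wt < p := by
          by_contra h7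
          exact hpQ (mem_pw.2 ⟨hp, h5, not_lt.1 h7⟩)
        exact hn2 p (mem_union_right _ (mem_pw.2 ⟨hp, h6, hpx⟩)) hpn
  · have h4 : γ * β ^ 3 ≤ γ * β * (Real.log ((W ^ 2 : ℕ) : ℝ) / L) ^ 2 := by
      have e1 : γ * β ^ 3 = γ * β * β ^ 2 := by ring
      rw [e1]
      apply mul_le_mul_of_nonneg_left _ (by positivity)
      exact pow_le_pow_left₀ hβ.le (by linarith) 2
    exact h.hδ.trans h4
  · rw [h3, ← h.hL]
    exact div_self hL.ne'
  · have : (2 : ℝ) ≤ P0 := by exact_mod_cast hP.2.2.2.2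
    linarith
  · have e1 : AA W L ≤ AA W L / (Real.log Wa / L) := by
      rw [le_div_iff₀ (by linarith)]
      have : Real.log Wa / L ≤ 1 := by linarith [h.hαθ, h.hθ]
      exact mul_le_of_le_one_right (by linarith) this
    have e2 : 3 / 2 * β * γ ≤ AA W L / (Real.log Wa / L) *
        (Lf (v / (Real.log Wa / L)) - Lf (v / (Real.log Wt / L)) - 2 * (2 - v)) := by
      apply mul_le_mul _ b4 hγ.le (by linarith)
      linarith
    have e3 : 0 < β * γ := by positivity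
    linarith

theorem Lg.final (h : Lg α θ γ η β δ L l R N x y W Wa Wt P0) (hδL : 64 ≤ δ * L) :
    (({m | m < ∏ p ∈ pw Wa Wt, p ∧ Cov x y Wa Wt m} : Set ℕ).ncard : ℝ) ≤
      ((∏ p ∈ pw Wa Wt, p : ℕ) : ℝ) * Real.exp (-Real.exp (β * L)) := by
  classical
  refine le_trans ?_ ((bad_card h.parR).trans
    (mul_le_mul_of_nonneg_left (h.count hδL) (Nat.cast_nonneg _)))
  have h1 : ({m | m < ∏ p ∈ pw Wa Wt, p ∧ Cov x y Wa Wt m} : Set ℕ) ⊆
      (((range (∏ p ∈ pw Wa Wt, p)).filter (BadR y W Wa Wt P0 δ) : Finset ℕ) : Set ℕ) := by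
    rintro m ⟨h2, h4⟩
    rw [mem_coe, mem_filter, mem_range]
    refine ⟨h2, ?_⟩
    by_contra h5
    exact h.not_cov h5 h4
  have h2 := Set.ncard_le_ncard h1 (finite_toSet _)
  rw [Set.ncard_coe_finset] at h2
  have h3 : (({m | m < ∏ p ∈ pw Wa Wt, p ∧ Cov x y Wa Wt m} : Set ℕ).ncard : ℝ) ≤
      (((range (∏ p ∈ pw Wa Wt, p)).filter (BadR y W Wa Wt P0 δ)).card : ℝ) := by
    exact_mod_cast h2
  convert h3

end Pool.LinSieve
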