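import Pool.Agent.H.MP_0c96e5_nt.LinI
import Pool.Agent.H.MP_0c96e5_nt.KMain

/-!
# The theorem
-/

set_option autoImplicit false

open Finset Filter

namespace Pool.LinSieve

open Pool.Agent.H.MP_3e6494_nt (prm mem_prm)
open Pool.MP42e49e
open Pool.MP42e49e.KN (cov_of_block)

theorem ev_div (k : ℝ) {c : ℝ} (hc : 0 < c) : ∀ᶠ L : ℝ in atTop, k / L ≤ c := by
  filter_upwards [eventually_ge_atTop (k / c), eventually_gt_atTop 0] with L h1 h2
  rw [div_le_iff₀ h2]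
  rw [div_le_iff₀ hc] at h1
  linarith

theorem exists_R {k : ℝ} (hk : 0 < k) : ∃ R : ℕ, 115 ≤ R ∧ (4 * (R : ℝ) + 28) ^ 3 ≤ k * 42 ^ R := by
  have h1 : Tendsto (fun n : ℕ => (n : ℝ) ^ 3 / (42 : ℝ) ^ n) atTop (nhds 0) :=
    tendsto_pow_const_div_const_pow_of_one_lt 3 (by norm_num)
  have h2 : ∀ᶠ n : ℕ in atTop, (n : ℝ) ^ 3 / (42 : ℝ) ^ n ≤ k / 125 :=
    h1.eventually_le_const (by positivity)
  obtain ⟨R, h3, h4⟩ := ((eventually_ge_atTop 115).and h2).exists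
  refine ⟨R, h3, ?_⟩
  have h5 : (115 : ℝ) ≤ R := by exact_mod_cast h3
  rw [div_le_iff₀ (by positivity)] at h4
  calc (4 * (R : ℝ) + 28) ^ 3 ≤ (5 * (R : ℝ)) ^ 3 := pow_le_pow_left₀ (by positivity) (by linarith) 3
    _ = 125 * (R : ℝ) ^ 3 := by ring
    _ ≤ 125 * (k / 125 * 42 ^ R) := by linarith
    _ = k * 42 ^ R := by ring

theorem exists_par {α θ : ℝ} (hα : 0 < α) (hαθ : α < θ) (hθ : θ < 1) :
    ∃ (γ η β δ : ℝ) (R N : ℕ), 0 < β ∧ 0 < η ∧ ∀ᶠ x : ℕ in atTop, ∀ y : ℕ,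
      Real.exp ((2 - η / 2) * Real.log x) ≤ y →
      Lg α θ γ η β δ (Real.log x) (Real.log (Real.log x)) R N x y
        ⌊Real.exp (β * Real.log x)⌋₊ ⌊Real.exp (α * Real.log x)⌋₊
        ⌊Real.exp (θ * Real.log x)⌋₊ ⌊Real.exp ((2 - η) * Real.log x)⌋₊ ∧
      64 ≤ δ * Real.log x := by
  have hθ0 : 0 < θ := hα.trans hαθ
  obtain ⟨γ, hγ⟩ : ∃ γ : ℝ, γ = (Lf (2 / α) - Lf (2 / θ)) / 3 := ⟨_, rfl⟩
  have hγ0 : 0 < γ := by
    have h1 := Lf_strict (s := 2 / θ) (s' := 2 / α) (by rw [le_div_iff₀ hθ0]; linarith)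
      (div_lt_div_of_pos_left (by norm_num) hα hαθ)
    rw [hγ]
    linarith
  obtain ⟨η, hη⟩ : ∃ η : ℝ, η = min (min (1 / 8) (1 - θ)) (γ / (2 * (1 / α + 2))) := ⟨_, rfl⟩
  have hα2 : 0 < 2 * (1 / α + 2) := by positivity
  have hη0 : 0 < η := by
    rw [hη]
    exact lt_min (lt_min (by norm_num) (by linarith)) (div_pos hγ0 hα2)
  have hη1 : η ≤ 1 / 8 := by
    rw [hη]
    exact (min_le_left _ _).trans (min_le_left _ _)
  have hη3 : η ≤ 1 - θ := by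
    rw [hη]
    exact (min_le_left _ _).trans (min_le_right _ _)
  have hη2 : 2 * η * (1 / α + 2) ≤ γ := by
    have h1 : η ≤ γ / (2 * (1 / α + 2)) := by
      rw [hη]
      exact min_le_right _ _
    rw [le_div_iff₀ hα2] at h1
    linarith
  obtain ⟨c, hc⟩ : ∃ c : ℝ, c = min (η / 2) (α / 4) := ⟨_, rfl⟩
  have hc0 : 0 < c := by
    rw [hc]
    exact lt_min (by linarith) (by linarith)
  have hc1 : c ≤ η / 2 := by
    rw [hc]
    exact min_le_left _ _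
  have hc2 : c ≤ α / 4 := by
    rw [hc]
    exact min_le_right _ _
  obtain ⟨R, hR1, hR2⟩ := exists_R (k := γ * c ^ 3 / 180) (by positivity)
  have hR3 : (115 : ℝ) ≤ R := by exact_mod_cast hR1
  have hK0 : (0 : ℝ) < 4 * R + 28 := by positivity
  obtain ⟨β, hβ⟩ : ∃ β : ℝ, β = c / (4 * R + 28) := ⟨_, rfl⟩
  have hβ0 : 0 < β := by
    rw [hβ]
    positivity
  have hβc : (4 * R + 28) * β = c := by
    rw [hβ]
    field_simp
  have hβα : 4 * β ≤ α := by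
    have h1 : 4 * β ≤ (4 * R + 28) * β := mul_le_mul_of_nonneg_right (by linarith) hβ0.le
    linarith
  obtain ⟨δ, hδ⟩ : ∃ δ : ℝ, δ = min (γ * β ^ 3 / 3) (1 / 8) := ⟨_, rfl⟩
  have hδ0 : 0 < δ := by
    rw [hδ]
    exact lt_min (by positivity) (by norm_num)
  have hδ1 : δ ≤ 1 / 8 := by
    rw [hδ]
    exact min_le_right _ _
  have hδ2 : 3 * δ ≤ γ * β ^ 3 := by
    have : δ ≤ γ * β ^ 3 / 3 := by
      rw [hδ]
      exact min_le_left _ _
    linarith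
  have hRδ : 60 ≤ δ * 42 ^ R := by
    rw [hδ, min_mul_of_nonneg _ _ (by positivity)]
    apply le_min
    · have h1 : γ * β ^ 3 / 3 * 42 ^ R = 60 * ((γ * c ^ 3 / 180 * 42 ^ R) / (4 * R + 28) ^ 3) := by
        rw [hβ]
        field_simp
        ring
      rw [h1]
      have h2 : 1 ≤ (γ * c ^ 3 / 180 * 42 ^ R) / (4 * (R : ℝ) + 28) ^ 3 := by
        rw [le_div_iff₀ (by positivity), one_mul]
        exact hR2
      linarith
    · have h1 : (42 : ℝ) ^ 2 ≤ 42 ^ R := pow_le_pow_right₀ (by norm_num) (by omega)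
      linarith
  have hf4 : 0 < 96 / (Lf 4 * α) := by
    have := Lf4_pos
    positivity
  have hκ : 0 < γ * β ^ 5 := by positivity
  obtain ⟨N, hN⟩ : ∃ N : ℕ, N = ⌈64 / β⌉₊ + ⌈96 / (Lf 4 * α) / (γ * β ^ 5)⌉₊ + 1 := ⟨_, rfl⟩
  have hN1 : 1 ≤ N := by omega
  have hNr : (N : ℝ) = (⌈64 / β⌉₊ : ℝ) + (⌈96 / (Lf 4 * α) / (γ * β ^ 5)⌉₊ : ℝ) + 1 := by
    rw [hN]
    push_cast
    ring
  have hN2 : 64 / β ≤ (N : ℝ) := by
    have h1 := Nat.le_ceil (64 / β)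
    have h2 : (0 : ℝ) ≤ (⌈96 / (Lf 4 * α) / (γ * β ^ 5)⌉₊ : ℝ) := Nat.cast_nonneg _
    linarith
  have hN3 : 96 / (Lf 4 * α) / (γ * β ^ 5) ≤ (N : ℝ) := by
    have h1 := Nat.le_ceil (96 / (Lf 4 * α) / (γ * β ^ 5))
    have h2 : (0 : ℝ) ≤ (⌈64 / β⌉₊ : ℝ) := Nat.cast_nonneg _
    linarith
  have hN0 : (0 : ℝ) < N := by
    have : (1 : ℝ) ≤ N := by exact_mod_cast hN1
    linarith
  refine ⟨γ, η, β, δ, R, N, hβ0, hη0, ?_⟩
  have tL : Tendsto (fun x : ℕ => Real.log (x : ℝ)) atTop atTop :=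
    Real.tendsto_log_atTop.comp tendsto_natCast_atTop_atTop
  have tl : Tendsto (fun x : ℕ => Real.log (Real.log (x : ℝ))) atTop atTop :=
    Real.tendsto_log_atTop.comp tL
  have p1 : 0 < (α - 2 * β) / N := div_pos (by linarith) hN0
  have p2 : 0 < (1 - θ) / N := div_pos (by linarith) hN0
  filter_upwards [eventually_ge_atTop 1, tl.eventually_ge_atTop 1000,
    tl.eventually_ge_atTop (2 / δ), tL.eventually (ev_log_pow (300 / β) 1),
    tL.eventually (ev_div 4 p1), tL.eventually (ev_div 4 p2),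
    tL.eventually (ev_div (48 / β) (show 0 < ((α - 2 * β) / N) ^ 2 by positivity)),
    tL.eventually (ev_div (48 / β) (show 0 < ((1 - θ) / N) ^ 2 by positivity)),
    tL.eventually (ev_div (4 / θ ^ 2) hγ0), tL.eventually (ev_div 4 hβ0),
    tL.eventually_ge_atTop (64 / δ)] with x e0 e1 e2 e3 e4 e5 e6 e7 e8 e9 e10
  intro y hy
  rw [div_le_iff₀ hδ0] at e10 e2
  refine ⟨?_, by linarith⟩
  refine
    { hα := hα
      hαθ := hαθ
      hθ := hθ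
      hγ := hγ0
      hγ2 := by rw [hγ]; linarith
      hη0 := hη0
      hη1 := hη1
      hη2 := hη2
      hη3 := hη3
      hβ0 := hβ0
      hβα := hβα
      hβη := by linarith
      hδ0 := hδ0
      hδ := hδ2
      hδ1 := hδ1
      hR := hR1
      hR2 := hRδ
      hN := hN1
      hN1 := ?_
      hN2 := ?_
      hx := e0
      hL := rfl
      hl := rfl
      hl1 := e1
      hl2 := by linarith
      hlq := ?_
      hL1 := e4
      hL2 := e5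
      hL3 := ?_
      hL4 := ?_
      hL5 := ?_
      hL6 := e9
      hW := rfl
      hWa := rfl
      hWt := rfl
      hP := rfl
      hy := hy }
  · rw [div_le_iff₀ hβ0] at hN2
    rw [div_le_iff₀ hN0]
    linarith
  · rw [div_le_iff₀ hκ] at hN3
    rw [div_le_iff₀ hN0]
    linarith
  · rw [pow_one, div_mul_eq_mul_div, div_le_iff₀ hβ0] at e3
    linarith
  · rwa [div_div] at e6
  · rwa [div_div] at e7
  · rw [div_div, mul_comm (θ ^ 2)] at e8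
    exact e8

/-- the theorem for `θ < 1` -/
theorem main_lt {α θ : ℝ} (hα : 0 < α) (hαθ : α < θ) (hθ : θ < 1) :
    ∃ β C x₀ : ℝ, 0 < β ∧ 0 < C ∧ ∀ x y M : ℕ, x₀ ≤ x → (x : ℝ) ^ (2 - C) ≤ y →
      M = ∏ p ∈ (Finset.range (x + 1)).filter
        (fun p : ℕ => p.Prime ∧ (x : ℝ) ^ α < p ∧ (p : ℝ) ≤ (x : ℝ) ^ θ), p →
      (({a : ℕ | a < M ∧ ∃ m : ℤ, m ≡ a [ZMOD (M : ℤ)] ∧
        ∀ n : ℤ, m < n → n ≤ m + y → ¬ IsCoprime n (primorial x : ℤ)} : Set ℕ).ncard : ℝ) ≤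
        Real.exp (-(x : ℝ) ^ β) * M := by
  obtain ⟨γ, η, β, δ, R, N, hβ0, hη0, hev⟩ := exists_par hα hαθ hθ
  obtain ⟨X, hX⟩ := eventually_atTop.1 (hev.and (eventually_ge_atTop 3))
  refine ⟨β, η / 2, X, hβ0, by linarith, ?_⟩
  intro x y M hx hy hM
  obtain ⟨hreg, hx3⟩ := hX x (by exact_mod_cast hx)
  have hx0 : (3 : ℝ) ≤ x := by exact_mod_cast hx3
  have hxp : (0 : ℝ) < x := by linarith
  have hpow : ∀ a : ℝ, (x : ℝ) ^ a = Real.exp (a * Real.log x) := by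
    intro a
    rw [Real.rpow_def_of_pos hxp, mul_comm]
  have hy' : Real.exp ((2 - η / 2) * Real.log x) ≤ y := by
    rw [← hpow]
    exact hy
  obtain ⟨hLg, hδL⟩ := hreg y hy'
  have hfin := hLg.final hδL
  obtain ⟨W, hW⟩ : ∃ W : ℕ, W = ⌊Real.exp (α * Real.log x)⌋₊ := ⟨_, rfl⟩
  obtain ⟨Z, hZ⟩ : ∃ Z : ℕ, Z = ⌊Real.exp (θ * Real.log x)⌋₊ := ⟨_, rfl⟩
  rw [← hW, ← hZ] at hfin
  have hQeq : (Finset.range (x + 1)).filter
      (fun p : ℕ => p.Prime ∧ (x : ℝ) ^ α < p ∧ (p : ℝ) ≤ (x : ℝ) ^ θ) = pw W Z := by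
    ext p
    rw [mem_filter, mem_range, mem_pw, hW, hZ, Nat.floor_lt (Real.exp_pos _).le,
      Nat.le_floor_iff (Real.exp_pos _).le, hpow, hpow]
    constructor
    · rintro ⟨-, h2⟩
      exact h2
    · intro h2
      refine ⟨?_, h2⟩
      have h3 : (p : ℝ) ≤ x := by
        refine h2.2.2.trans ?_
        calc Real.exp (θ * Real.log x) ≤ Real.exp (1 * Real.log x) := by
              apply Real.exp_le_exp.2
              exact mul_le_mul_of_nonneg_right hθ.le (Real.log_nonneg (by linarith))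
          _ = x := by rw [one_mul, Real.exp_log hxp]
      have h4 : p ≤ x := by exact_mod_cast h3
      omega
  rw [hQeq] at hM
  rw [← hM] at hfin
  have hsub : ({a : ℕ | a < M ∧ ∃ m : ℤ, m ≡ a [ZMOD (M : ℤ)] ∧
        ∀ n : ℤ, m < n → n ≤ m + y → ¬ IsCoprime n (primorial x : ℤ)} : Set ℕ) ⊆
      {m | m < M ∧ Cov x y W Z m} := by
    rintro a ⟨ha, m, hm, hb⟩
    refine ⟨ha, cov_of_block ?_ hb⟩
    rw [← hM]
    exact hm
  have hfinite : ({m | m < M ∧ Cov x y W Z m} : Set ℕ).Finite :=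
    (Set.finite_lt_nat _).subset fun m hm => hm.1
  have h5 : ((({a : ℕ | a < M ∧ ∃ m : ℤ, m ≡ a [ZMOD (M : ℤ)] ∧
        ∀ n : ℤ, m < n → n ≤ m + y → ¬ IsCoprime n (primorial x : ℤ)} : Set ℕ).ncard : ℕ) : ℝ) ≤
      (({m | m < M ∧ Cov x y W Z m} : Set ℕ).ncard : ℝ) := by
    exact_mod_cast Set.ncard_le_ncard hsub hfinite
  refine (h5.trans hfin).trans (le_of_eq ?_)
  rw [mul_comm, hpow]

/-- passing to a multiple of the modulus -/
theorem ncard_lift {M' K : ℕ} (B' : Set ℕ) (hB' : ∀ b ∈ B', b < M') {B : Set ℕ}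
    (hB : ∀ a ∈ B, a < M' * K ∧ a % M' ∈ B') : B.ncard ≤ K * B'.ncard := by
  have hfB : B.Finite := (Set.finite_lt_nat (M' * K)).subset fun a ha => (hB a ha).1
  have hfB' : B'.Finite := (Set.finite_lt_nat M').subset fun a ha => hB' a ha
  have h1 : B ⊆ (fun z : ℕ × ℕ => z.2 + M' * z.1) '' ((Set.Iio K) ×ˢ B') := by
    intro a ha
    obtain ⟨h2, h3⟩ := hB a ha
    refine ⟨(a / M', a % M'), ⟨?_, h3⟩, ?_⟩
    · exact Nat.div_lt_of_lt_mul h2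
    · exact Nat.mod_add_div a M'
  have hfin : ((Set.Iio K) ×ˢ B').Finite := (Set.finite_Iio K).prod hfB'
  calc B.ncard ≤ ((fun z : ℕ × ℕ => z.2 + M' * z.1) '' ((Set.Iio K) ×ˢ B')).ncard :=
        Set.ncard_le_ncard h1 (hfin.image _)
    _ ≤ ((Set.Iio K) ×ˢ B').ncard := Set.ncard_image_le hfin
    _ = K * B'.ncard := by
        rw [Set.ncard_prod]
        congr 1
        rw [Set.ncard_eq_toFinset_card', Set.toFinset_Iio, Nat.card_Iio]

/-- **Kanold's bound `x ^ (2 - C)` for some `C > 0`, for almost all residues modulo the product of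
the primes in `(x ^ α, x ^ θ]`.** -/
theorem main {α θ : ℝ} (hα : 0 < α) (hαθ : α < θ) (hθ : θ ≤ 1) :
    ∃ β C x₀ : ℝ, 0 < β ∧ 0 < C ∧ ∀ x y M : ℕ, x₀ ≤ x → (x : ℝ) ^ (2 - C) ≤ y →
      M = ∏ p ∈ (Finset.range (x + 1)).filter
        (fun p : ℕ => p.Prime ∧ (x : ℝ) ^ α < p ∧ (p : ℝ) ≤ (x : ℝ) ^ θ), p →
      (({a : ℕ | a < M ∧ ∃ m : ℤ, m ≡ a [ZMOD (M : ℤ)] ∧
        ∀ n : ℤ, m < n → n ≤ m + y → ¬ IsCoprime n (primorial x : ℤ)} : Set ℕ).ncard : ℝ) ≤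
        Real.exp (-(x : ℝ) ^ β) * M := by
  obtain ⟨β, C, x₀, hβ, hC, h⟩ := main_lt hα (show α < (α + θ) / 2 by linarith)
    (show (α + θ) / 2 < 1 by linarith)
  refine ⟨β, C, max x₀ 1, hβ, hC, ?_⟩
  intro x y M hx hy hM
  have hx0 := (le_max_left _ _).trans hx
  have hx1 := (le_max_right _ _).trans hx
  obtain ⟨M', hM'⟩ : ∃ M' : ℕ, M' = ∏ p ∈ (Finset.range (x + 1)).filter
        (fun p : ℕ => p.Prime ∧ (x : ℝ) ^ α < p ∧ (p : ℝ) ≤ (x : ℝ) ^ ((α + θ) / 2)), p := ⟨_, rfl⟩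
  have h1 := h x y M' hx0 hy hM'
  obtain ⟨K, hK⟩ : M' ∣ M := by
    rw [hM, hM']
    apply prod_dvd_prod_of_subset
    intro p hp
    rw [mem_filter] at hp ⊢
    refine ⟨hp.1, hp.2.1, hp.2.2.1, hp.2.2.2.trans ?_⟩
    exact Real.rpow_le_rpow_of_exponent_le hx1 (by linarith)
  have hM0 : 0 < M' := by
    rw [hM']
    apply prod_pos
    intro p hp
    rw [mem_filter] at hp
    exact hp.2.1.pos
  have h2 := ncard_lift (K := K) {a : ℕ | a < M' ∧ ∃ m : ℤ, m ≡ a [ZMOD (M' : ℤ)] ∧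
        ∀ n : ℤ, m < n → n ≤ m + y → ¬ IsCoprime n (primorial x : ℤ)} (fun b hb => hb.1)
        (B := {a : ℕ | a < M ∧ ∃ m : ℤ, m ≡ a [ZMOD (M : ℤ)] ∧
        ∀ n : ℤ, m < n → n ≤ m + y → ¬ IsCoprime n (primorial x : ℤ)}) ?_
  · have h3 : (({a : ℕ | a < M ∧ ∃ m : ℤ, m ≡ a [ZMOD (M : ℤ)] ∧
        ∀ n : ℤ, m < n → n ≤ m + y → ¬ IsCoprime n (primorial x : ℤ)} : Set ℕ).ncard : ℝ) ≤
        K * (({a : ℕ | a < M' ∧ ∃ m : ℤ, m ≡ a [ZMOD (M' : ℤ)] ∧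
        ∀ n : ℤ, m < n → n ≤ m + y → ¬ IsCoprime n (primorial x : ℤ)} : Set ℕ).ncard : ℝ) := by
      exact_mod_cast h2
    refine h3.trans ?_
    have h4 := mul_le_mul_of_nonneg_left h1 (Nat.cast_nonneg (α := ℝ) K)
    refine h4.trans (le_of_eq ?_)
    rw [hK]
    push_cast
    ring
  · rintro a ⟨ha, m, hm, hb⟩
    refine ⟨by rwa [← hK], Nat.mod_lt _ hM0, m, ?_, hb⟩
    have h3 : m ≡ a [ZMOD (M' : ℤ)] := by
      rw [hK, Nat.cast_mul] at hm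
      exact hm.of_mul_right _
    refine h3.trans ?_
    have h4 := (Nat.mod_modEq a M').symm
    exact (Int.natCast_modEq_iff.2 h4)

end Pool.LinSieve
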