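import Pool.Agent.H.MP_0c96e5_nt.LinD

/-!
# One block of the iteration, when some primes of the block do not sift
-/

set_option autoImplicit false

open Finset MeasureTheory intervalIntegral

namespace Pool.LinSieve

variable {a : ℕ → ℤ} {δ : ℝ} {T P Q : Finset ℕ} {X D : ℝ} {A κ z z' B err L ρ : ℝ}

theorem Lf_le_LF {s s' : ℝ} (h : 0 < s) (h' : 0 < s') : Lf s' ≤ LF s := by
  have h1 : 0 < max s s' := lt_max_of_lt_left h
  exact (Lf_mono h' (le_max_right s s')).trans
    ((Lf_lt h1).le.trans (LF_anti h (le_max_left s s')))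

/-- lower bound, the sum of `1 / p` over the primes of the block which sift is `B - ρ` -/
theorem pstep_lo (H : Bp L z' (B - ρ) P Q) (hρ : 0 ≤ ρ) (K : Blk A κ z z' B err)
    (hU : Up a δ L A (κ * z ^ 2) z Q) (hLo : Lo a δ L A (κ * z ^ 2) z Q) :
    Lo a δ L (A * (1 + ρ * (z' / z))) (κ * z' ^ 2) z' (Q ∪ P) := by
  intro T X D hX hD hD2 hd
  have hz := K.hz
  have hz' : 0 < z' := by linarith [K.hzz]
  have hA := K.hA
  have hκ := K.hκ
  obtain ⟨v, hv⟩ : ∃ v, v = Real.log D / L := ⟨_, rfl⟩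
  rw [← hv]
  rcases le_or_gt v (2 * z') with h1 | h1
  · rw [Gm_zero hz' h1, mul_zero, zero_sub]
    have h2 : 0 ≤ X * (κ * z' ^ 2) := by positivity
    have h3 : (0 : ℝ) ≤ ((Sf a T (Q ∪ P)).card : ℝ) := Nat.cast_nonneg _
    have h4 : X * -(κ * z' ^ 2) = -(X * (κ * z' ^ 2)) := by ring
    rw [h4]
    linarith
  · have h2 := hLo T X D hX hD hD2 (hd.sub subset_union_left)
    have h3 := sum_up H hz K.hA hU hX hD hD2 hd (by rw [← hv]; linarith)
    rw [← hv] at h2 h3
    have h4 := buch_lower (a := a) (T := T) (P := P) (Q := Q)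
    have h5 := K.lower (v := v) (by linarith)
    have hzz := K.hzz
    rw [G1_eq hz' h1.le, G1_eq hz (by linarith)] at h5
    have e1 : z' / z * Gm v z' ≤ Gp (v - z') z := by
      unfold Gm Gp
      rw [div_mul_div_comm, mul_comm z' (Lf _), mul_div_mul_right _ _ hz'.ne']
      exact div_le_div_of_nonneg_right
        (Lf_le_LF (div_pos (by linarith) hz) (div_pos (by linarith) hz')) hz.le
    have e2 : ρ * A * (z' / z * Gm v z') ≤ ρ * A * Gp (v - z') z :=
      mul_le_mul_of_nonneg_left e1 (by positivity)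
    have e3 : 0 ≤ ρ * (κ * z ^ 2) := by positivity
    have h6 : A * (1 + ρ * (z' / z)) * Gm v z' - κ * z' ^ 2 ≤
        A * Gm v z - κ * z ^ 2 - (B - ρ) * (A * Gp (v - z') z + κ * z ^ 2) := by
      have e4 : A * (1 + ρ * (z' / z)) * Gm v z' = A * Gm v z' + ρ * A * (z' / z * Gm v z') := by
        ring
      rw [e4]
      linarith
    have h7 := mul_le_mul_of_nonneg_left h6 hX
    have h8 : X * (A * Gm v z - κ * z ^ 2 - (B - ρ) * (A * Gp (v - z') z + κ * z ^ 2)) =
        X * (A * Gm v z - κ * z ^ 2) - X * ((B - ρ) * (A * Gp (v - z') z + κ * z ^ 2)) := by ring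
    rw [h8] at h7
    linarith

/-- lower bound for a single set -/
theorem pstep_sp (H : Bp L z' (B - ρ) P Q) (hρ : 0 ≤ ρ) (K : Blk A κ z z' B err)
    (hU : Up a δ L A (κ * z ^ 2) z Q)
    {g c : ℝ} (hX : 0 ≤ X) (hD : 1 < D) (hD2 : Real.log D ≤ 2 * L) (hd : Dist a δ T X D (Q ∪ P))
    (hv : z' / 2 ≤ Real.log D / L - z')
    (hc : 0 < ρ → z' / z * G1 (Real.log D / L) z' + c ≤ Gp (Real.log D / L - z') z)
    (hS : X * (A * G1 (Real.log D / L) z + g - κ * z ^ 2) ≤ ((Sf a T Q).card : ℝ)) :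
    X * (A * (1 + ρ * (z' / z)) * G1 (Real.log D / L) z' + (g + ρ * A * c) - κ * z' ^ 2) ≤
      ((Sf a T (Q ∪ P)).card : ℝ) := by
  have hz := K.hz
  have hz' : 0 < z' := by linarith [K.hzz]
  have hA := K.hA
  have hκ := K.hκ
  have h3 := sum_up H hz K.hA hU hX hD hD2 hd (by linarith)
  have h4 := buch_lower (a := a) (T := T) (P := P) (Q := Q)
  have h5 := K.lower hv
  obtain ⟨v, hv'⟩ : ∃ v, v = Real.log D / L := ⟨_, rfl⟩
  rw [← hv'] at h3 h5 hS hc ⊢
  have e2 : ρ * A * (z' / z * G1 v z' + c) ≤ ρ * A * Gp (v - z') z := by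
    rcases hρ.eq_or_lt with h0 | h0
    · rw [← h0, zero_mul, zero_mul, zero_mul]
    · exact mul_le_mul_of_nonneg_left (hc h0) (by positivity)
  have e3 : 0 ≤ ρ * (κ * z ^ 2) := by positivity
  have h6 : A * (1 + ρ * (z' / z)) * G1 v z' + (g + ρ * A * c) - κ * z' ^ 2 ≤
      A * G1 v z + g - κ * z ^ 2 - (B - ρ) * (A * Gp (v - z') z + κ * z ^ 2) := by
    have e4 : A * (1 + ρ * (z' / z)) * G1 v z' + (g + ρ * A * c) =
        A * G1 v z' + g + ρ * A * (z' / z * G1 v z' + c) := by ring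
    rw [e4]
    linarith
  have h7 := mul_le_mul_of_nonneg_left h6 hX
  have h8 : X * (A * G1 v z + g - κ * z ^ 2 - (B - ρ) * (A * Gp (v - z') z + κ * z ^ 2)) =
      X * (A * G1 v z + g - κ * z ^ 2) - X * ((B - ρ) * (A * Gp (v - z') z + κ * z ^ 2)) := by ring
  rw [h8] at h7
  linarith

/-- upper bound -/
theorem pstep_up (H : Bp L z' (B - ρ) P Q) (hρ : 0 ≤ ρ) (K : Blk A κ z z' B err)
    (hU : Up a δ L A (κ * z ^ 2) z Q) (hLo : Lo a δ L A (κ * z ^ 2) z Q) :
    Up a δ L (A * (1 + ρ * (z' / z))) (κ * z' ^ 2) z' (Q ∪ P) := by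
  intro T X D hX hD hD2 hd
  have hz := K.hz
  have hA := K.hA
  have hκ := K.hκ
  have hz' : 0 < z' := by linarith [K.hzz]
  have hzz := K.hzz
  obtain ⟨v, hv⟩ : ∃ v, v = Real.log D / L := ⟨_, rfl⟩
  have hv0 : 0 < v := by
    rw [hv]
    exact div_pos (Real.log_pos hD) H.hL
  have h2 := hU T X D hX hD hD2 (hd.sub subset_union_left)
  rw [← hv] at h2 ⊢
  have hB' : 0 ≤ B - ρ := by
    rw [H.hB]
    exact sum_nonneg fun p _ => by positivity
  have hGp := Gp_nonneg hz' hv0
  have hAA : A * (1 + ρ * (z' / z)) * Gp v z' = A * Gp v z' + ρ * A * (z' / z * Gp v z') := by ring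
  have hGpz : 0 ≤ ρ * A * (z' / z * Gp v z') := by positivity
  rcases lt_or_ge v (3 * z') with h1 | h1
  · have h3 : ((Sf a T (Q ∪ P)).card : ℝ) ≤ ((Sf a T Q).card : ℝ) := by
      exact_mod_cast card_le_card Sf_union_sub
    refine (h3.trans h2).trans (mul_le_mul_of_nonneg_left ?_ hX)
    have := K.gap hv0 h1
    rw [hAA]
    linarith
  · have h4 := buch_upper (a := a) (T := T) (P := P) (Q := Q)
    have h5 := K.upper h1
    -- the first sum
    have s1 : X * ((B - ρ) * (A * Gm (v - z') z - κ * z ^ 2)) ≤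
        ∑ p ∈ P, ((Sf a (Tp a T p) Q).card : ℝ) := by
      have e1 : ∀ p ∈ P, X * (A * Gm (v - z') z - κ * z ^ 2) * (1 / (p : ℝ)) ≤
          ((Sf a (Tp a T p) Q).card : ℝ) := by
        intro p hp
        obtain ⟨h6, h7, h8⟩ := H.log hD hp
        have h9 := hLo (Tp a T p) (X / p) (D / p) (by positivity)
          (H.gt_one hD hp (by rw [← hv]; linarith)) (H.log_le hD hD2 hp) (H.dist hp hd)
        refine le_trans ?_ h9
        rw [h6, ← hv]
        have h10 := (H.hP p hp).2
        have h11 : Gm (v - z') z ≤ Gm (v - Real.log p / L) z :=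
          Gm_mono hz (by linarith) (by linarith)
        have h12 : A * Gm (v - z') z - κ * z ^ 2 ≤ A * Gm (v - Real.log p / L) z - κ * z ^ 2 := by
          have := mul_le_mul_of_nonneg_left h11 hA
          linarith
        refine le_trans (le_of_eq ?_)
          (mul_le_mul_of_nonneg_left h12 (show 0 ≤ X / p by positivity))
        ring
      refine le_trans (le_of_eq ?_) (sum_le_sum e1)
      rw [← mul_sum, ← H.hB]
      ring
    -- the second sum
    have s2 : ∑ t ∈ P.offDiag, ((Sf a (Tp a (Tp a T t.1) t.2) Q).card : ℝ) ≤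
        X * ((B - ρ) ^ 2 * (A / z + κ * z ^ 2)) := by
      have e1 : ∀ t ∈ P.offDiag, ((Sf a (Tp a (Tp a T t.1) t.2) Q).card : ℝ) ≤
          X * (A / z + κ * z ^ 2) * (1 / ((t.1 : ℝ) * t.2)) := by
        intro t ht
        rw [mem_offDiag] at ht
        obtain ⟨hp, hq, hpq⟩ := ht
        obtain ⟨h6, h7, h8⟩ := H.log hD hp
        have hD1 := H.gt_one hD hp (by rw [← hv]; linarith)
        obtain ⟨h6', h7', h8'⟩ := H.log hD1 hq
        have h10 := (H.hP _ hp).2
        have h10' := (H.hP _ hq).2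
        have h12 : Real.log (D / t.1) / L = v - Real.log t.1 / L := by rw [h6, hv]
        have hD2' := H.gt_one hD1 hq (by rw [h12]; linarith)
        have h9 := hU (Tp a (Tp a T t.1) t.2) (X / t.1 / t.2) (D / t.1 / t.2) (by positivity)
          hD2' (H.log_le hD1 (H.log_le hD hD2 hp) hq) (H.dist2 hp hq hpq hd)
        refine h9.trans ?_
        rw [h6', h12]
        have h13 : Gp (v - Real.log t.1 / L - Real.log t.2 / L) z ≤ 1 / z := by
          unfold Gp
          apply div_le_div_of_nonneg_right _ hz.le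
          apply LF_le_one
          rw [le_div_iff₀ hz]
          linarith
        have h14 : A * Gp (v - Real.log t.1 / L - Real.log t.2 / L) z + κ * z ^ 2 ≤
            A / z + κ * z ^ 2 := by
          have h15 := mul_le_mul_of_nonneg_left h13 hA
          have h16 : A * (1 / z) = A / z := by ring
          linarith
        refine (mul_le_mul_of_nonneg_left h14 (show 0 ≤ X / t.1 / t.2 by positivity)).trans
          (le_of_eq ?_)
        have h17 : (t.1 : ℝ) ≠ 0 := h7.ne'
        have h18 : (t.2 : ℝ) ≠ 0 := h7'.ne'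
        field_simp
      refine (sum_le_sum e1).trans ?_
      rw [← mul_sum]
      have e2 : X * ((B - ρ) ^ 2 * (A / z + κ * z ^ 2)) =
          X * (A / z + κ * z ^ 2) * (B - ρ) ^ 2 := by ring
      rw [e2]
      exact mul_le_mul_of_nonneg_left (offDiag_le H) (by positivity)
    have e5 : Gm (v - z') z ≤ z' / z * Gp v z' := by
      unfold Gm Gp
      rw [div_mul_div_comm, mul_comm z' (LF _), mul_div_mul_right _ _ hz'.ne']
      exact div_le_div_of_nonneg_right
        (Lf_le_LF (div_pos (by linarith) hz') (div_pos (by linarith) hz)) hz.le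
    have e6 : ρ * A * Gm (v - z') z ≤ ρ * A * (z' / z * Gp v z') :=
      mul_le_mul_of_nonneg_left e5 (by positivity)
    have e7 : 0 ≤ ρ * (κ * z ^ 2) := by positivity
    have e8 : (B - ρ) ^ 2 * (A / z + κ * z ^ 2) ≤ B ^ 2 * (A / z + κ * z ^ 2) := by
      apply mul_le_mul_of_nonneg_right _ (by positivity)
      exact pow_le_pow_left₀ hB' (by linarith) 2
    have e9 : A * Gp v z + κ * z ^ 2 - (B - ρ) * (A * Gm (v - z') z - κ * z ^ 2) +
        (B - ρ) ^ 2 * (A / z + κ * z ^ 2) ≤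
        A * (1 + ρ * (z' / z)) * Gp v z' + κ * z' ^ 2 := by
      rw [hAA]
      linarith
    have h6 := mul_le_mul_of_nonneg_left e9 hX
    have h7 : X * (A * Gp v z + κ * z ^ 2 - (B - ρ) * (A * Gm (v - z') z - κ * z ^ 2) +
        (B - ρ) ^ 2 * (A / z + κ * z ^ 2)) = X * (A * Gp v z + κ * z ^ 2) -
        X * ((B - ρ) * (A * Gm (v - z') z - κ * z ^ 2)) +
        X * ((B - ρ) ^ 2 * (A / z + κ * z ^ 2)) := by ring
    rw [h7] at h6
    linarith

end Pool.LinSieve
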