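import Pool.Agent.H.MP_0c96e5_nt.LinK
import Pool.Agent.H.MP_0c96e5_nt.LinF

/-!
# The linear sieve when the primes of an arbitrary set do not sift
-/

set_option autoImplicit false

open Finset MeasureTheory intervalIntegral

namespace Pool.LinSieve

open Pool.MP42e49e (pw mem_pw sum_pw FF window)

variable {a : ℕ → ℤ} {δ L A Am κ h : ℝ} {Ra : Finset ℕ} {w : ℕ → ℕ} {N : ℕ}

/-- the primes of a block which sift -/
noncomputable def Pb (Ra : Finset ℕ) (u u' : ℕ) : Finset ℕ := pw u u' \ Ra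

/-- the sum over the primes of a block which do not sift -/
noncomputable def rb (Ra : Finset ℕ) (u u' : ℕ) : ℝ := ∑ p ∈ pw u u' ∩ Ra, 1 / (p : ℝ)

theorem rb_nonneg {u u' : ℕ} : 0 ≤ rb Ra u u' := sum_nonneg fun p _ => by positivity

theorem bq_of {u u' : ℕ} {Q : Finset ℕ} (hL : 0 < L) (hu : 2 ≤ u) (huu : u ≤ u')
    (hQ : ∀ q ∈ Q, q ≤ u) :
    Bp L (Real.log u' / L) (FF u' - FF u - rb Ra u u') (Pb Ra u u') Q := by
  have H := bp_of (L := L) (Q := Q) hL hu huu hQ
  refine ⟨hL, fun p hp => H.hP p (mem_sdiff.1 hp).1, ?_, ?_⟩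
  · exact disjoint_of_subset_left sdiff_subset H.hPQ
  · rw [H.hB]
    unfold rb Pb
    have := sum_inter_add_sum_sdiff (pw u u') Ra (fun p => 1 / (p : ℝ))
    linarith

theorem Blk.mono {z z' B err : ℝ} (K : Blk Am κ z z' B err) (h0 : 0 ≤ A) (h1 : A ≤ Am) :
    Blk A κ z z' B err := by
  refine ⟨h0, K.hκ, K.hz, K.hzz, K.hz1, K.h16, ?_, K.he0, K.he, K.hB0, K.hB1, K.hB2⟩
  refine le_trans ?_ K.h24
  have := K.hzz
  apply mul_le_mul_of_nonneg_right _ (by linarith)
  linarith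

/-- the main constants -/
noncomputable def AS (A L : ℝ) (Ra : Finset ℕ) (w : ℕ → ℕ) : ℕ → ℝ
  | 0 => A
  | i + 1 => AS A L Ra w i *
      (1 + rb Ra (w i) (w (i + 1)) * (Real.log (w (i + 1)) / L / (Real.log (w i) / L)))

/-- the set of the sifting primes -/
noncomputable def Qn (w : ℕ → ℕ) (Ra : Finset ℕ) (i : ℕ) : Finset ℕ := pw (w 0) (w i) \ Ra

theorem Qn_zero : Qn w Ra 0 = ∅ := by
  unfold Qn
  have : pw (w 0) (w 0) = ∅ := by
    ext p
    rw [mem_pw]
    simp only [notMem_empty, iff_false]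
    omega
  rw [this, empty_sdiff]

theorem Stage.pw_succ (H : Stage w N L Am κ h ∅) {i : ℕ} (hi : i < N) :
    pw (w 0) (w (i + 1)) = pw (w 0) (w i) ∪ pw (w i) (w (i + 1)) := by
  have h1 := H.succ hi
  unfold Qi at h1
  rwa [empty_union, empty_union] at h1

theorem Stage.qn_succ (H : Stage w N L Am κ h ∅) {i : ℕ} (hi : i < N) :
    Qn w Ra (i + 1) = Qn w Ra i ∪ Pb Ra (w i) (w (i + 1)) := by
  unfold Qn Pb
  rw [H.pw_succ hi, union_sdiff_distrib]

theorem Stage.bq (H : Stage w N L Am κ h ∅) {i : ℕ} (hi : i < N) :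
    Bp L (Real.log (w (i + 1)) / L) (FF (w (i + 1)) - FF (w i) - rb Ra (w i) (w (i + 1)))
      (Pb Ra (w i) (w (i + 1))) (Qn w Ra i) := by
  refine bq_of H.hL (H.h2.trans (H.ge i hi.le)) (H.mono i hi) ?_
  intro q hq
  unfold Qn at hq
  exact (mem_pw.1 (mem_sdiff.1 hq).1).2.2

theorem Stage.ratio (H : Stage w N L Am κ h ∅) {i : ℕ} (hi : i < N) :
    0 ≤ Real.log (w (i + 1)) / L / (Real.log (w i) / L) ∧
      Real.log (w (i + 1)) / L / (Real.log (w i) / L) ≤ 2 := by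
  have K := H.blk hi
  have hz := K.hz
  have h16 := K.h16
  have hzz := K.hzz
  refine ⟨div_nonneg (by linarith) hz.le, ?_⟩
  rw [div_le_iff₀ hz]
  linarith

theorem Stage.AS_ge (H : Stage w N L Am κ h ∅) (hA : 0 ≤ A) : ∀ i ≤ N, A ≤ AS A L Ra w i := by
  intro i
  induction i with
  | zero => intro _; exact le_rfl
  | succ i ih =>
    intro hi
    have h1 := ih (by omega)
    obtain ⟨h2, -⟩ := H.ratio (show i < N by omega)
    have h3 := rb_nonneg (Ra := Ra) (u := w i) (u' := w (i + 1))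
    rw [AS]
    have h4 : 0 ≤ rb Ra (w i) (w (i + 1)) * (Real.log (w (i + 1)) / L / (Real.log (w i) / L)) :=
      mul_nonneg h3 h2
    have h5 : AS A L Ra w i * 1 ≤ AS A L Ra w i *
      (1 + rb Ra (w i) (w (i + 1)) * (Real.log (w (i + 1)) / L / (Real.log (w i) / L))) :=
      mul_le_mul_of_nonneg_left (by linarith) (hA.trans h1)
    linarith

theorem Stage.AS_le (H : Stage w N L Am κ h ∅) (hA : 0 ≤ A) : ∀ i ≤ N,
    AS A L Ra w i ≤ A * Real.exp (2 * ∑ j ∈ range i, rb Ra (w j) (w (j + 1))) := by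
  intro i
  induction i with
  | zero =>
    intro _
    rw [AS, range_zero, sum_empty, mul_zero, Real.exp_zero, mul_one]
  | succ i ih =>
    intro hi
    have h1 := ih (by omega)
    obtain ⟨h2, h2'⟩ := H.ratio (show i < N by omega)
    have h3 := rb_nonneg (Ra := Ra) (u := w i) (u' := w (i + 1))
    rw [AS, sum_range_succ, mul_add (2 : ℝ), Real.exp_add, ← mul_assoc]
    apply mul_le_mul h1 _ _ (by positivity)
    · have h4 := Real.add_one_le_exp (2 * rb Ra (w i) (w (i + 1)))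
      have h5 := mul_le_mul_of_nonneg_left h2' h3
      linarith
    · have := mul_nonneg h3 h2
      linarith

theorem Stage.sum_rb (H : Stage w N L Am κ h ∅) : ∀ i ≤ N,
    ∑ j ∈ range i, rb Ra (w j) (w (j + 1)) = ∑ p ∈ pw (w 0) (w i) ∩ Ra, 1 / (p : ℝ) := by
  intro i
  induction i with
  | zero =>
    intro _
    have : pw (w 0) (w 0) = ∅ := by
      ext p
      rw [mem_pw]
      simp only [notMem_empty, iff_false]
      omega
    rw [range_zero, sum_empty, this, empty_inter, sum_empty]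
  | succ i ih =>
    intro hi
    rw [sum_range_succ, ih (by omega), H.pw_succ (show i < N by omega), union_inter_distrib_right,
      sum_union]
    · rfl
    · rw [disjoint_left]
      intro p h1 h2
      have h3 := mem_pw.1 (mem_inter.1 h1).1
      have h4 := mem_pw.1 (mem_inter.1 h2).1
      omega

theorem Stage.piter (H : Stage w N L Am κ h ∅) (hA : 0 ≤ A) (hAm : ∀ i ≤ N, AS A L Ra w i ≤ Am)
    (hU : Up a δ L A (κ * (Real.log (w 0) / L) ^ 2) (Real.log (w 0) / L) ∅)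
    (hLo : Lo a δ L A (κ * (Real.log (w 0) / L) ^ 2) (Real.log (w 0) / L) ∅) :
    ∀ i ≤ N, Up a δ L (AS A L Ra w i) (κ * (Real.log (w i) / L) ^ 2) (Real.log (w i) / L)
        (Qn w Ra i) ∧
      Lo a δ L (AS A L Ra w i) (κ * (Real.log (w i) / L) ^ 2) (Real.log (w i) / L)
        (Qn w Ra i) := by
  intro i
  induction i with
  | zero =>
    intro _
    rw [Qn_zero, AS]
    exact ⟨hU, hLo⟩
  | succ i ih =>
    intro hi
    obtain ⟨h1, h2⟩ := ih (by omega)
    have h3 : i < N := by omega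
    have h4 := (H.blk h3).mono (hA.trans (H.AS_ge (Ra := Ra) hA i h3.le)) (hAm i h3.le)
    rw [H.qn_succ h3, AS]
    exact ⟨pstep_up (H.bq h3) rb_nonneg h4 h1 h2, pstep_lo (H.bq h3) rb_nonneg h4 h1 h2⟩

theorem Stage.pspecial (H : Stage w N L Am κ h ∅) (hA : 0 ≤ A)
    (hAm : ∀ i ≤ N, AS A L Ra w i ≤ Am)
    (hU : Up a δ L A (κ * (Real.log (w 0) / L) ^ 2) (Real.log (w 0) / L) ∅)
    (hLo : Lo a δ L A (κ * (Real.log (w 0) / L) ^ 2) (Real.log (w 0) / L) ∅)
    {T : Finset ℕ} {X D v c : ℝ} (hX : 0 ≤ X) (hD : 1 < D) (hD2 : Real.log D ≤ 2 * L)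
    (hvD : v = Real.log D / L)
    (hd : Dist a δ T X D (Qn w Ra N)) (hv : 3 / 2 ≤ v)
    (hc : ∀ i < N, 0 < rb Ra (w i) (w (i + 1)) →
      Real.log (w (i + 1)) / L / (Real.log (w i) / L) * G1 v (Real.log (w (i + 1)) / L) + c ≤
        Gp (v - Real.log (w (i + 1)) / L) (Real.log (w i) / L))
    (hS : X * (A * G1 v (Real.log (w 0) / L) - κ * (Real.log (w 0) / L) ^ 2) ≤
      ((Sf a T ∅).card : ℝ)) :
    ∀ i ≤ N, X * (AS A L Ra w i * G1 v (Real.log (w i) / L) +
      (∑ j ∈ range i, rb Ra (w j) (w (j + 1)) * AS A L Ra w j * c) -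
      κ * (Real.log (w i) / L) ^ 2) ≤ ((Sf a T (Qn w Ra i)).card : ℝ) := by
  intro i
  induction i with
  | zero =>
    intro _
    rw [Qn_zero, AS, range_zero, sum_empty, add_zero]
    exact hS
  | succ i ih =>
    intro hi
    have h1 := ih (by omega)
    have h3 : i < N := by omega
    obtain ⟨h2, -⟩ := H.piter hA hAm hU hLo i h3.le
    have h4 := (H.blk h3).mono (hA.trans (H.AS_ge (Ra := Ra) hA i h3.le)) (hAm i h3.le)
    have hc' := hc i h3
    rw [hvD] at h1 hc' hv ⊢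
    rw [H.qn_succ h3, AS, sum_range_succ]
    refine pstep_sp (H.bq h3) rb_nonneg h4 h2 hX hD hD2 ?_ ?_ hc' h1
    · rw [← H.qn_succ h3]
      apply hd.sub
      unfold Qn
      apply sdiff_subset_sdiff _ le_rfl
      intro p hp
      rw [mem_pw] at hp ⊢
      refine ⟨hp.1, hp.2.1, hp.2.2.trans ?_⟩
      have hmono : ∀ j, i + 1 + j ≤ N → w (i + 1) ≤ w (i + 1 + j) := by
        intro j
        induction j with
        | zero => intro _; exact le_rfl
        | succ j ihj => intro hj; exact (ihj (by omega)).trans (H.mono _ (by omega))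
      have := hmono (N - (i + 1)) (by omega)
      have e : i + 1 + (N - (i + 1)) = N := by omega
      rwa [e] at this
    · have := H.h1 (i + 1) hi
      linarith

/-- **The linear sieve, when the primes of the set `Ra` do not sift.** -/
theorem lin_set {z0 v c σ : ℝ} (H : Stage w N L Am κ h ∅) (hz0 : z0 = Real.log (w 0) / L)
    (hA : A = z0 / LF (2 / z0)) (hδ : δ ≤ κ * z0 ^ 2) (hx : Real.log (w N) / L = 1)
    (hσ : σ = ∑ p ∈ pw (w 0) (w N) ∩ Ra, 1 / (p : ℝ)) (hAm : A * Real.exp (2 * σ) ≤ Am)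
    {T : Finset ℕ} {X D : ℝ} (hX : 0 < X) (hD : 1 < D) (hv : v = Real.log D / L)
    (hv1 : 3 / 2 ≤ v) (hv2 : v ≤ 2) (hz1 : 2 * z0 ≤ v) (hc0 : 0 ≤ c)
    (hc : ∀ i < N, 0 < rb Ra (w i) (w (i + 1)) →
      Real.log (w (i + 1)) / L / (Real.log (w i) / L) * G1 v (Real.log (w (i + 1)) / L) + c ≤
        Gp (v - Real.log (w (i + 1)) / L) (Real.log (w i) / L))
    (hκ : κ < A * (σ * c) - A * Real.exp (2 * σ) * (2 * (2 - v)))
    (hd : Dist a δ T X D (Qn w Ra N)) :
    0 < (Sf a T (Qn w Ra N)).card := by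
  have hL := H.hL
  obtain ⟨hl0, hl1⟩ := H.log_ge (le_refl N)
  have hz0p : 0 < z0 := by
    rw [hz0]
    positivity
  have hAp : 0 < A := by
    rw [hA]
    exact div_pos hz0p (LF_pos (by positivity))
  have hD2 : Real.log D ≤ 2 * L := by
    rw [hv, div_le_iff₀ hL] at hv2
    exact hv2
  have hσi : ∀ i ≤ N, ∑ j ∈ range i, rb Ra (w j) (w (j + 1)) ≤ σ := by
    intro i hi
    rw [hσ, ← H.sum_rb N le_rfl]
    apply sum_le_sum_of_subset_of_nonneg
    · intro j hj
      rw [mem_range] at hj ⊢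
      omega
    · intro j _ _
      exact rb_nonneg
  have hAS : ∀ i ≤ N, AS A L Ra w i ≤ A * Real.exp (2 * σ) := by
    intro i hi
    refine (H.AS_le hAp.le i hi).trans (mul_le_mul_of_nonneg_left ?_ hAp.le)
    apply Real.exp_le_exp.2
    linarith [hσi i hi]
  obtain ⟨b1, b2⟩ := base (a := a) (δ := δ) (L := L) (A := A) (z := z0) (e := κ * z0 ^ 2) hL hz0p
    hA hδ
  have hS : X * (A * G1 v z0 - κ * z0 ^ 2) ≤ ((Sf a T ∅).card : ℝ) := by
    rw [G1_eq hz0p hz1, hv]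
    exact b2 T X D hX.le hD hD2 (hd.sub (empty_subset _))
  rw [hz0] at b1 b2 hS
  have s2 := H.pspecial hAp.le (fun i hi => (hAS i hi).trans hAm) b1 b2 hX.le hD hD2 hv hd hv1 hc
    hS N le_rfl
  rw [hx] at s2
  have e0 : A * (σ * c) ≤ ∑ j ∈ range N, rb Ra (w j) (w (j + 1)) * AS A L Ra w j * c := by
    rw [hσ, ← H.sum_rb N le_rfl, sum_mul, mul_sum]
    refine sum_le_sum fun j hj => ?_
    have h1 := H.AS_ge (Ra := Ra) hAp.le j (mem_range.1 hj).le
    have h2 := rb_nonneg (Ra := Ra) (u := w j) (u' := w (j + 1))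
    have h3 : A * (rb Ra (w j) (w (j + 1)) * c) ≤
        AS A L Ra w j * (rb Ra (w j) (w (j + 1)) * c) :=
      mul_le_mul_of_nonneg_right h1 (mul_nonneg h2 hc0)
    linarith
  have e1 : -(A * Real.exp (2 * σ) * (2 * (2 - v))) ≤ AS A L Ra w N * G1 v 1 := by
    have h1 := G1_one hv1 hv2
    have h2 := hAS N le_rfl
    have h3 : 0 ≤ AS A L Ra w N := hAp.le.trans (H.AS_ge hAp.le N le_rfl)
    have h4 := mul_le_mul_of_nonneg_left h1 h3
    have h5 := mul_le_mul_of_nonneg_right h2 (show 0 ≤ 2 * (2 - v) by linarith)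
    linarith
  have s3 : 0 < AS A L Ra w N * G1 v 1 +
      (∑ j ∈ range N, rb Ra (w j) (w (j + 1)) * AS A L Ra w j * c) - κ * 1 ^ 2 := by
    linarith
  have s4 := mul_pos hX s3
  have s5 : (0 : ℝ) < ((Sf a T (Qn w Ra N)).card : ℝ) := by linarith
  exact_mod_cast s5

end Pool.LinSieve
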