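import Pool.Agent.H.MP_0c96e5_nt.LinN

/-!
# The iteration, and the conclusion for arbitrary sets of random primes
-/

set_option autoImplicit false

open Finset MeasureTheory intervalIntegral

namespace Pool.LinSieve

open Pool.Agent.H.MP_3e6494_nt (prm mem_prm)
open Pool.MP42e49e
open Pool.MP42e49e.R (floor_bounds FF_nonneg exp_neg_le_inv)

/-- thresholds -/
noncomputable def wq (W : ℕ) (β L : ℝ) (N i : ℕ) : ℕ :=
  if i = 0 then W ^ 2 else ⌊Real.exp ((2 * β + i * ((1 - 2 * β) / N)) * L)⌋₊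

/-- the classes of the primes outside `Ra` can be chosen such that each `n` in `[1, y]` for which
`m + n` is prime to all primes of `Ra` is in one of them -/
def CovS (x y : ℕ) (Ra : Finset ℕ) (m : ℕ) : Prop :=
  ∃ a : ℕ → ℤ, ∀ n ∈ Icc 1 y, Nat.Coprime (m + n) (∏ p ∈ Ra, p) →
    ∃ p : ℕ, p.Prime ∧ p ≤ x ∧ p ∉ Ra ∧ (p : ℤ) ∣ (n : ℤ) - a p

variable {α σ γ η β δ L l : ℝ} {R N x y W Wa P0 : ℕ} {Ra : Finset ℕ}

theorem Lq.N_pos (h : Lq α σ γ η β δ L l R N x y W Wa P0 Ra) : (0 : ℝ) < N := by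
  exact_mod_cast (show 0 < N by have := h.hN; omega)

theorem Lq.h1_pos (h : Lq α σ γ η β δ L l R N x y W Wa P0 Ra) : 0 < (1 - 2 * β) / N ∧
    (1 - 2 * β) / N ≤ 1 / N := by
  have hN := h.N_pos
  have h1 := h.β_le
  have h2 := h.hβ0
  refine ⟨div_pos (by linarith) hN, div_le_div_of_nonneg_right (by linarith) hN.le⟩

theorem Lq.lw (h : Lq α σ γ η β δ L l R N x y W Wa P0 Ra) (i : ℕ) :
    2 * β + i * ((1 - 2 * β) / N) - 2 / L ≤ Real.log (wq W β L N i) / L ∧
    Real.log (wq W β L N i) / L ≤ 2 * β + i * ((1 - 2 * β) / N) ∧ 2 ≤ wq W β L N i := by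
  have hL := h.L_pos
  have hW := h.W_facts
  unfold wq
  rcases Nat.eq_zero_or_pos i with rfl | hi
  · rw [if_pos rfl, Nat.cast_zero, zero_mul, add_zero, Nat.cast_pow, Real.log_pow]
    push_cast
    refine ⟨?_, ?_, ?_⟩
    · rw [le_div_iff₀ hL, sub_mul, div_mul_cancel₀ _ hL.ne']
      linarith
    · rw [div_le_iff₀ hL]
      linarith
    · have := hW.2.2.2.2
      nlinarith
  · rw [if_neg (by omega)]
    obtain ⟨t, ht⟩ : ∃ t, t = (2 * β + i * ((1 - 2 * β) / N)) * L := ⟨_, rfl⟩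
    have h1 : 0 ≤ (i : ℝ) * ((1 - 2 * β) / N) := mul_nonneg (Nat.cast_nonneg _) h.h1_pos.1.le
    have ht1 : 1 ≤ t := by
      have h2 : β * L ≤ t := by
        rw [ht]
        exact mul_le_mul_of_nonneg_right (by linarith [h.hβ0]) hL.le
      linarith [h.hlq, h.hl1]
    have h3 := floor_bounds ht1
    rw [← ht]
    have h4 : 2 * β + i * ((1 - 2 * β) / N) = t / L := by
      rw [ht]
      field_simp
    rw [h4]
    refine ⟨?_, div_le_div_of_nonneg_right h3.2.2.2.1 hL.le, h3.2.2.2.2⟩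
    rw [← sub_div]
    exact div_le_div_of_nonneg_right (by linarith [h3.2.2.1]) hL.le

theorem wq_zero : wq W β L N 0 = W ^ 2 := by
  unfold wq
  rw [if_pos rfl]

theorem Lq.wq_N (h : Lq α σ γ η β δ L l R N x y W Wa P0 Ra) : wq W β L N N = x := by
  unfold wq
  rw [if_neg (by have := h.hN; omega)]
  have h1 : (2 * β + N * ((1 - 2 * β) / N)) * L = L := by
    have := h.N_pos
    field_simp
    ring
  rw [h1, ← h.x_eq, Nat.floor_natCast]

theorem Lq.z0 (h : Lq α σ γ η β δ L l R N x y W Wa P0 Ra) :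
    3 / 2 * β ≤ Real.log ((W ^ 2 : ℕ) : ℝ) / L ∧ Real.log ((W ^ 2 : ℕ) : ℝ) / L ≤ 1 / 4 := by
  have h1 := h.lw 0
  rw [wq_zero, Nat.cast_zero, zero_mul, add_zero] at h1
  have h2 := h.hL6
  have h3 := h.β_le
  have h4 : 2 / L = 4 / L / 2 := by ring
  constructor
  · linarith [h1.1]
  · linarith [h1.2.1]

theorem Lq.A_bounds (h : Lq α σ γ η β δ L l R N x y W Wa P0 Ra) :
    3 / 2 * β ≤ AA W L ∧ AA W L ≤ 1 / 4 / Lf 4 := by
  obtain ⟨h1, h2⟩ := h.z0
  have hβ := h.hβ0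
  unfold AA
  obtain ⟨z, hz⟩ : ∃ z, z = Real.log ((W ^ 2 : ℕ) : ℝ) / L := ⟨_, rfl⟩
  rw [← hz] at h1 h2 ⊢
  have hz0 : 0 < z := by linarith
  have h3 : 4 ≤ 2 / z := by
    rw [le_div_iff₀ hz0]
    linarith
  have h4 : LF (2 / z) ≤ 1 := LF_le_one (by linarith)
  have h5 : Lf 4 ≤ LF (2 / z) := (Lf_mono (by norm_num) h3).trans (Lf_lt (by linarith)).le
  have h6 : 0 < LF (2 / z) := LF_pos (by linarith)
  constructor
  · rw [le_div_iff₀ h6]
    calc 3 / 2 * β * LF (2 / z) ≤ 3 / 2 * β * 1 := mul_le_mul_of_nonneg_left h4 (by positivity)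
      _ ≤ z := by linarith
  · exact div_le_div₀ (by norm_num) h2 Lf4_pos h5

theorem Lq.zα (h : Lq α σ γ η β δ L l R N x y W Wa P0 Ra) :
    α - α / 16 ≤ Real.log Wa / L ∧ Real.log Wa / L ≤ α := by
  have hW := h.Wa_facts
  have hL := h.L_pos
  have h6 := h.hL6
  have h7 := h.hβα
  constructor
  · rw [le_div_iff₀ hL]
    rw [div_le_iff₀ hL] at h6
    have := mul_le_mul_of_nonneg_right h7 hL.le
    linarith [hW.2.2.1]
  · rw [div_le_iff₀ hL]
    exact hW.2.2.2.1

/-- the sum over the random primes is bounded -/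
theorem Lq.exp_rs (h : Lq α σ γ η β δ L l R N x y W Wa P0 Ra) :
    Real.exp (2 * ∑ p ∈ Ra, 1 / (p : ℝ)) ≤ 2 / α ^ 2 := by
  obtain ⟨h1, h2, -⟩ := h.rsR
  rw [h1] at h2
  have hL := h.L_pos
  have hα := h.hα
  have hW := h.Wa_facts
  obtain ⟨h3, -⟩ := h.zα
  have h4 := (window (v := Wa) (x := x) hW.2.2.2.2 h.Wa_le_x).1
  rw [h.log_x] at h4
  have hαL := h.αL
  have hlq := h.hlq
  have hl1 := h.hl1
  have hlW : 1200000 - 1 ≤ Real.log Wa := by linarith [hW.2.2.1]
  have hlW0 : 0 < Real.log Wa := by linarith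
  have h5 : 12 / Real.log Wa ≤ 1 / 20 := by
    rw [div_le_iff₀ hlW0]
    linarith
  have h6 : Real.log L - Real.log (Real.log Wa) ≤ Real.log (16 / (15 * α)) := by
    rw [← Real.log_div hL.ne' hlW0.ne']
    apply Real.log_le_log (by positivity)
    rw [div_le_div_iff₀ hlW0 (by positivity)]
    rw [le_div_iff₀ hL] at h3
    linarith
  have h7 : Real.log (16 / (15 * α)) = Real.log (16 / 15) + Real.log (1 / α) := by
    rw [← Real.log_mul (by norm_num) (by positivity)]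
    congr 1
    field_simp
  have h8 : Real.log (16 / 15) ≤ 1 / 15 := by
    have := Real.log_le_sub_one_of_pos (show (0 : ℝ) < 16 / 15 by norm_num)
    linarith
  have h9 : 2 * ∑ p ∈ Ra, 1 / (p : ℝ) ≤ 2 * Real.log (1 / α) + 1 / 4 := by linarith
  have h10 : Real.exp (2 * Real.log (1 / α) + 1 / 4) ≤ 2 / α ^ 2 := by
    rw [Real.exp_add]
    have e1 : Real.exp (2 * Real.log (1 / α)) = 1 / α ^ 2 := by
      rw [mul_comm, Real.exp_mul, Real.exp_log (by positivity)]
      norm_num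
    have e2 : Real.exp (1 / 4) ≤ 2 := by
      have e3 : Real.exp (1 / 4) ≤ Real.exp (Real.log 2) := by
        apply Real.exp_le_exp.2
        have := Real.log_two_gt_d9
        linarith
      rwa [Real.exp_log (by norm_num)] at e3
    rw [e1]
    calc 1 / α ^ 2 * Real.exp (1 / 4) ≤ 1 / α ^ 2 * 2 :=
          mul_le_mul_of_nonneg_left e2 (by positivity)
      _ = 2 / α ^ 2 := by ring
  exact (Real.exp_le_exp.2 h9).trans h10

/-- the constant of the error terms -/
noncomputable def kq (γ σ β : ℝ) : ℝ := γ * σ * β / 2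

theorem Lq.stage (h : Lq α σ γ η β δ L l R N x y W Wa P0 Ra) :
    Stage (wq W β L N) N L (AA W L * (2 / α ^ 2)) (kq γ σ β) ((1 - 2 * β) / N) ∅ := by
  have hL := h.L_pos
  have hN := h.N_pos
  obtain ⟨hh, hh1⟩ := h.h1_pos
  obtain ⟨hz1, hz2⟩ := h.z0
  obtain ⟨hA1, hA2⟩ := h.A_bounds
  have hβ := h.hβ0
  have hγ := h.hγ
  have hσ := h.hσ
  have hf4 := Lf4_pos
  have hA0 : 0 ≤ AA W L := by linarith
  have hα := h.hα
  have hL1 := h.hL1
  have h2L : 2 / L = 4 / L / 2 := by ring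
  have hkq : 0 ≤ kq γ σ β := by
    unfold kq
    positivity
  refine ⟨hL, by positivity, hkq, hh, (h.lw 0).2.2, ?_, ?_, ?_, ?_, ?_, ?_, ?_, ?_⟩
  · intro i hi
    unfold wq
    rw [if_neg (show i + 1 ≠ 0 by omega)]
    rcases Nat.eq_zero_or_pos i with rfl | hi0
    · rw [if_pos rfl]
      apply Nat.le_floor
      refine h.W2_le.trans (Real.exp_le_exp.2 ?_)
      rw [← mul_assoc]
      apply mul_le_mul_of_nonneg_right _ hL.le
      push_cast
      linarith
    · rw [if_neg (by omega)]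
      apply Nat.floor_mono
      apply Real.exp_le_exp.2
      apply mul_le_mul_of_nonneg_right _ hL.le
      push_cast
      linarith
  · intro i hi
    refine (h.lw i).2.1.trans ?_
    have h1 : (i : ℝ) * ((1 - 2 * β) / N) ≤ N * ((1 - 2 * β) / N) := by
      apply mul_le_mul_of_nonneg_right _ hh.le
      exact_mod_cast hi
    have h2 : (N : ℝ) * ((1 - 2 * β) / N) = 1 - 2 * β := by field_simp
    linarith
  · intro i hi
    have h1 := (h.lw i).2.1
    have h2 := (h.lw (i + 1)).1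
    push_cast at h2
    linarith
  · intro i hi
    have h1 := (h.lw i).1
    have h2 := (h.lw (i + 1)).2.1
    push_cast at h2
    linarith
  · rw [wq_zero]
    have h1 := h.hN1
    have h2 : 64 / (N : ℝ) = 64 * (1 / N) := by ring
    linarith
  · rw [wq_zero]
    have h1 : 48 * (AA W L * (2 / α ^ 2)) * ((1 - 2 * β) / N) ≤
        48 * (1 / 4 / Lf 4 * (2 / α ^ 2)) * (1 / N) := by
      apply mul_le_mul _ hh1 hh.le (by positivity)
      apply mul_le_mul_of_nonneg_left _ (by norm_num)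
      exact mul_le_mul_of_nonneg_right hA2 (by positivity)
    have h2 : 48 * (1 / 4 / Lf 4 * (2 / α ^ 2)) * (1 / (N : ℝ)) =
        48 / (Lf 4 * α ^ 2) / N / 2 := by
      field_simp
      norm_num
    have h3 : γ * σ * β ^ 5 / 2 ≤ kq γ σ β * (Real.log ((W ^ 2 : ℕ) : ℝ) / L) ^ 4 := by
      have e1 : γ * σ * β ^ 5 / 2 = kq γ σ β * β ^ 4 := by
        unfold kq
        ring
      rw [e1]
      apply mul_le_mul_of_nonneg_left _ hkq
      exact pow_le_pow_left₀ hβ.le (by linarith) 4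
    linarith [h.hN2]
  · rw [wq_zero]
    have h1 : β * L ≤ Real.log ((W ^ 2 : ℕ) : ℝ) := by
      rw [le_div_iff₀ hL] at hz1
      have : 0 ≤ β * L := by positivity
      linarith
    have h2 : 12 / Real.log ((W ^ 2 : ℕ) : ℝ) ≤ 12 / (β * L) :=
      div_le_div_of_nonneg_left (by norm_num) (by positivity) h1
    have h3 := h.hL3
    have h4 : 48 / (β * L) = 4 * (12 / (β * L)) := by ring
    linarith
  · intro q hq
    exact absurd hq (notMem_empty q)

theorem Lq.v_bounds (h : Lq α σ γ η β δ L l R N x y W Wa P0 Ra) {v : ℝ}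
    (hv : v = Real.log P0 / L) : 2 - 2 * η ≤ v ∧ v ≤ 2 ∧ 3 / 2 ≤ v := by
  have hP := h.P_facts
  have hL := h.L_pos
  have hη0 := h.hη0
  have hη1 := h.hη1
  have h1 : 2 - 2 * η ≤ v := by
    rw [hv, le_div_iff₀ hL]
    have h2 : 1 ≤ η * L := by
      -- `β ≤ η`
      have h3 : β ≤ η := by
        have h4 := h.hβη
        have h5 : β ≤ (4 * R + 28) * β := by
          have h6 := h.hβ0
          have h7 : (115 : ℝ) ≤ R := by exact_mod_cast h.hR
          have h8 : 1 * β ≤ (4 * R + 28) * β := mul_le_mul_of_nonneg_right (by linarith) h6.le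
          linarith
        linarith
      have h4 : β * L ≤ η * L := mul_le_mul_of_nonneg_right h3 hL.le
      linarith [h.hlq, h.hl1]
    linarith [hP.2.2.1]
  refine ⟨h1, ?_, by linarith⟩
  rw [hv, div_le_iff₀ hL]
  have := mul_le_mul_of_nonneg_right (show 2 - η ≤ 2 by linarith) hL.le
  linarith [hP.2.2.2.1]

theorem G1_nonpos {v z : ℝ} (hz : 0 < z) (h1 : 3 / 2 * z ≤ v) (h2 : v ≤ 2 * z) : G1 v z ≤ 0 := by
  have hv : 0 < v := by linarith
  have e1 : 3 / 2 ≤ v / z := by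
    rw [le_div_iff₀ hz]
    exact h1
  have e2 : v / z ≤ 2 := by
    rw [div_le_iff₀ hz]
    exact h2
  unfold G1
  rw [integral_symm, neg_div]
  have h3 : 0 * (1 - (v / z - 1)) ≤ ∫ t in (v / z - 1)..1, La t * wt t := by
    apply int_ge Law_cont (by linarith)
    intro t ht1 ht2
    rw [La_wt (by linarith)]
    exact (LF_pos (by linarith)).le
  rw [zero_mul] at h3
  have := div_nonneg h3 hv.le
  linarith

/-- the gain from a block which contains a random prime -/
theorem gain {α z z' v c : ℝ} (hα : 0 < α) (hα1 : α ≤ 1 / 2) (hz : 0 < z) (hzz : z ≤ z')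
    (hz1 : z' ≤ 1) (hzα : α - α / 16 ≤ z') (hv1 : 3 / 2 ≤ v) (hv2 : v ≤ 2)
    (hc : c ≤ Lf (4 / α) - Lf (3 / α)) : z' / z * G1 v z' + c ≤ Gp (v - z') z := by
  have hz' : 0 < z' := by linarith
  have hz1' : z ≤ 1 := hzz.trans hz1
  have hLF : Lf (4 / α) ≤ LF ((v - z') / z) :=
    Lf_le_LF (div_pos (by linarith) hz) (by positivity)
  have hLf4 : 0 ≤ Lf (4 / α) := Lf_nonneg (by positivity)
  have hLf3 : 0 ≤ Lf (3 / α) := Lf_nonneg (by positivity)
  have hLFz : LF ((v - z') / z) ≤ LF ((v - z') / z) / z := by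
    rw [le_div_iff₀ hz]
    exact mul_le_of_le_one_right (hLf4.trans hLF) hz1'
  rcases le_or_gt v (2 * z') with h1 | h1
  · have h2 : G1 v z' ≤ 0 := G1_nonpos hz' (by linarith) h1
    have h3 : z' / z * G1 v z' ≤ 0 := mul_nonpos_of_nonneg_of_nonpos (by positivity) h2
    unfold Gp
    linarith
  · rw [G1_eq hz' h1.le]
    unfold Gm Gp
    have e1 : z' / z * (Lf (v / z') / z') = Lf (v / z') / z := by
      field_simp
    rw [e1]
    have h2 : Lf (v / z') ≤ Lf (3 / α) := by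
      apply Lf_mono (by positivity)
      rw [div_le_div_iff₀ hz' hα]
      nlinarith
    have h3 : 0 ≤ LF ((v - z') / z) - Lf (v / z') := by
      have := Lf_le_LF (s := (v - z') / z) (s' := v / z') (div_pos (by linarith) hz) (by positivity)
      linarith
    have h4 : LF ((v - z') / z) - Lf (v / z') ≤ (LF ((v - z') / z) - Lf (v / z')) / z := by
      rw [le_div_iff₀ hz]
      exact mul_le_of_le_one_right h3 hz1'
    have e2 : (LF ((v - z') / z) - Lf (v / z')) / z = LF ((v - z') / z) / z - Lf (v / z') / z :=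
      sub_div _ _ _
    linarith

theorem Lq.not_cov (h : Lq α σ γ η β δ L l R N x y W Wa P0 Ra) {m : ℕ}
    (hm : ¬ BadQ y W Ra P0 δ m) : ¬ CovS x y Ra m := by
  rintro ⟨a, ha⟩
  have hd := dist_of_good' (x := x) h.parR a hm
  obtain ⟨v, hv⟩ : ∃ v, v = Real.log P0 / L := ⟨_, rfl⟩
  obtain ⟨b1, b2, b3⟩ := h.v_bounds hv
  obtain ⟨A1, A2⟩ := h.A_bounds
  obtain ⟨z1, z2⟩ := h.z0
  obtain ⟨c1, c2⟩ := h.zα
  have hL := h.L_pos
  have hβ := h.hβ0
  have hγ := h.hγ
  have hσ := h.hσ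
  have hα := h.hα
  have hα1 := h.hα1
  have hP := h.P_facts
  have hXX : 0 < XA y W Ra := by
    unfold XA
    have h1 := h.y_pos
    have h2 := PPS_pos (W := W)
    have h3 := PPQ_pos (Wa := Wa) fun q hq => ⟨(h.hRa q hq).1, (h.hRa q hq).2.1⟩
    positivity
  have h0 : wq W β L N 0 = W ^ 2 := wq_zero
  have h1 := h.wq_N
  have hQ : Qn (wq W β L N) Ra N = pw (W ^ 2) x \ Ra := by
    unfold Qn
    rw [h0, h1]
  have hW2 := h.W2_le_Wa
  have hσ' : ∑ p ∈ Ra, 1 / (p : ℝ) =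
      ∑ p ∈ pw (wq W β L N 0) (wq W β L N N) ∩ Ra, 1 / (p : ℝ) := by
    rw [h0, h1]
    congr 1
    ext p
    rw [mem_inter, mem_pw]
    constructor
    · intro hp
      have := h.hRa p hp
      exact ⟨⟨this.1, by omega, this.2.2⟩, hp⟩
    · exact fun hp => hp.2
  have hA0 : 0 < AA W L := by linarith
  have hmain := lin_set (a := a) (δ := 3 * δ) (L := L) (A := AA W L) (κ := kq γ σ β)
    (Ra := Ra) (z0 := Real.log ((W ^ 2 : ℕ) : ℝ) / L) (v := v) (c := γ) h.stage (by rw [h0]) rfl ?_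
    (by rw [h1, h.log_x]; exact div_self hL.ne') hσ'
    (mul_le_mul_of_nonneg_left h.exp_rs hA0.le)
    (T := TA a y W Ra m) (X := XA y W Ra) (D := P0) hXX ?_ hv b3 b2 (by linarith) hγ.le ?_ ?_
    (by rw [hQ]; exact hd)
  · rw [hQ, card_pos] at hmain
    obtain ⟨n, hn⟩ := hmain
    rw [mem_Sf] at hn
    obtain ⟨hn1, hn2⟩ := hn
    unfold TA at hn1
    rw [mem_srv, mem_Sf] at hn1
    obtain ⟨⟨hn3, hn4⟩, hn5⟩ := hn1
    have hcop : Nat.Coprime (m + n) (∏ p ∈ Ra, p) := by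
      refine Nat.Coprime.prod_right fun q hq => ?_
      rw [Nat.coprime_comm]
      exact (Nat.Prime.coprime_iff_not_dvd (h.hRa q hq).1).2 (hn5 q (mem_toList.2 hq))
    obtain ⟨p, hp, hpx, hpQ, hpn⟩ := ha n hn3 hcop
    rcases le_or_gt p (W ^ 2) with h4 | h4
    · exact hn4 p (mem_prm.2 ⟨hp, h4⟩) hpn
    · exact hn2 p (mem_sdiff.2 ⟨mem_pw.2 ⟨hp, h4, hpx⟩, hpQ⟩) hpn
  · have h4 : γ * σ * β ^ 3 / 2 ≤ kq γ σ β * (Real.log ((W ^ 2 : ℕ) : ℝ) / L) ^ 2 := by
      have e1 : γ * σ * β ^ 3 / 2 = kq γ σ β * β ^ 2 := by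
        unfold kq
        ring
      rw [e1]
      apply mul_le_mul_of_nonneg_left _ (by unfold kq; positivity)
      exact pow_le_pow_left₀ hβ.le (by linarith) 2
    linarith [h.hδ]
  · have : (2 : ℝ) ≤ P0 := by exact_mod_cast hP.2.2.2.2
    linarith
  · intro i hi hrb
    have K := h.stage.blk hi
    -- the block contains a random prime
    have h4 : Wa < wq W β L N (i + 1) := by
      by_contra h5
      have h6 : pw (wq W β L N i) (wq W β L N (i + 1)) ∩ Ra = ∅ := by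
        ext p
        rw [mem_inter, mem_pw]
        constructor
        · rintro ⟨h7, h8⟩
          have := (h.hRa p h8).2.1
          omega
        · intro h7
          exact absurd h7 (notMem_empty p)
      unfold rb at hrb
      rw [h6, sum_empty] at hrb
      exact lt_irrefl _ hrb
    have h5 : Real.log Wa / L ≤ Real.log (wq W β L N (i + 1)) / L := by
      apply div_le_div_of_nonneg_right _ hL.le
      apply Real.log_le_log
      · have : (2 : ℝ) ≤ Wa := by exact_mod_cast h.Wa_facts.2.2.2.2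
        linarith
      · exact_mod_cast h4.le
    exact gain hα hα1 K.hz K.hzz K.hz1 (by linarith) b3 b2 h.hγ2
  · have e1 := h.exp_rs
    have e2 : AA W L * Real.exp (2 * ∑ p ∈ Ra, 1 / (p : ℝ)) * (2 * (2 - v)) ≤
        AA W L * (2 / α ^ 2) * (4 * η) := by
      apply mul_le_mul (mul_le_mul_of_nonneg_left e1 hA0.le) (by linarith) (by linarith)
      positivity
    have e3 : (2 / α ^ 2) * (4 * η) ≤ γ * σ / 3 := by
      have h4 := h.hη2
      rw [div_mul_eq_mul_div, div_le_iff₀ (by positivity)]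
      linarith
    have e4 : AA W L * (2 / α ^ 2) * (4 * η) ≤ AA W L * (γ * σ / 3) := by
      rw [mul_assoc]
      exact mul_le_mul_of_nonneg_left e3 hA0.le
    have e5 : AA W L * (σ * γ) ≤ AA W L * ((∑ p ∈ Ra, 1 / (p : ℝ)) * γ) := by
      apply mul_le_mul_of_nonneg_left _ hA0.le
      exact mul_le_mul_of_nonneg_right h.hσ2 hγ.le
    have e6 : kq γ σ β ≤ AA W L * (γ * σ / 3) := by
      unfold kq
      have : 3 / 2 * β * (γ * σ / 3) ≤ AA W L * (γ * σ / 3) :=
        mul_le_mul_of_nonneg_right A1 (by positivity)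
      linarith
    have e7 : 0 < AA W L * (γ * σ / 3) := by positivity
    linarith

theorem Lq.final (h : Lq α σ γ η β δ L l R N x y W Wa P0 Ra) (hδL : 64 ≤ δ * L) :
    (({m | m < ∏ p ∈ Ra, p ∧ CovS x y Ra m} : Set ℕ).ncard : ℝ) ≤
      ((∏ p ∈ Ra, p : ℕ) : ℝ) * Real.exp (-Real.exp (β * L)) := by
  classical
  refine le_trans ?_ ((bad_card' h.parR).trans
    (mul_le_mul_of_nonneg_left (h.count hδL) (Nat.cast_nonneg _)))
  have h1 : ({m | m < ∏ p ∈ Ra, p ∧ CovS x y Ra m} : Set ℕ) ⊆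
      (((range (∏ p ∈ Ra, p)).filter (BadQ y W Ra P0 δ) : Finset ℕ) : Set ℕ) := by
    rintro m ⟨h2, h4⟩
    rw [mem_coe, mem_filter, mem_range]
    refine ⟨h2, ?_⟩
    by_contra h5
    exact h.not_cov h5 h4
  have h2 := Set.ncard_le_ncard h1 (finite_toSet _)
  rw [Set.ncard_coe_finset] at h2
  have h3 : (({m | m < ∏ p ∈ Ra, p ∧ CovS x y Ra m} : Set ℕ).ncard : ℝ) ≤
      (((range (∏ p ∈ Ra, p)).filter (BadQ y W Ra P0 δ)).card : ℝ) := by
    exact_mod_cast h2
  convert h3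

end Pool.LinSieve
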