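import Pool.Agent.H.MP_0c96e5_nt.LinO
import Pool.Agent.H.MP_0c96e5_nt.LinJ

/-!
# The theorem for arbitrary sets of random primes
-/

set_option autoImplicit false

open Finset Filter

namespace Pool.LinSieve

open Pool.Agent.H.MP_3e6494_nt (prm mem_prm)
open Pool.MP42e49e

theorem exists_par' {α σ : ℝ} (hα : 0 < α) (hα1 : α ≤ 1 / 2) (hσ : 0 < σ) :
    ∃ (γ η β δ : ℝ) (R N : ℕ), 0 < β ∧ 0 < η ∧ ∀ᶠ x : ℕ in atTop, ∀ (y : ℕ) (Ra : Finset ℕ),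
      (∀ p ∈ Ra, p.Prime ∧ Real.exp (α * Real.log x) < p ∧ p ≤ x) →
      σ ≤ ∑ p ∈ Ra, 1 / (p : ℝ) → Real.exp ((2 - η / 2) * Real.log x) ≤ y →
      Lq α σ γ η β δ (Real.log x) (Real.log (Real.log x)) R N x y
        ⌊Real.exp (β * Real.log x)⌋₊ ⌊Real.exp (α * Real.log x)⌋₊
        ⌊Real.exp ((2 - η) * Real.log x)⌋₊ Ra ∧
      64 ≤ δ * Real.log x := by
  obtain ⟨γ, hγ⟩ : ∃ γ : ℝ, γ = Lf (4 / α) - Lf (3 / α) := ⟨_, rfl⟩
  have hγ0 : 0 < γ := by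
    have h1 := Lf_strict (s := 3 / α) (s' := 4 / α) (by rw [le_div_iff₀ hα]; linarith)
      (div_lt_div_of_pos_right (by norm_num) hα)
    rw [hγ]
    linarith
  obtain ⟨η, hη⟩ : ∃ η : ℝ, η = min (1 / 8) (γ * σ * α ^ 2 / 24) := ⟨_, rfl⟩
  have hη0 : 0 < η := by
    rw [hη]
    exact lt_min (by norm_num) (by positivity)
  have hη1 : η ≤ 1 / 8 := by
    rw [hη]
    exact min_le_left _ _
  have hη2 : 24 * η ≤ γ * σ * α ^ 2 := by
    have h1 : η ≤ γ * σ * α ^ 2 / 24 := by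
      rw [hη]
      exact min_le_right _ _
    linarith
  obtain ⟨c, hc⟩ : ∃ c : ℝ, c = min (η / 2) (α / 4) := ⟨_, rfl⟩
  have hc0 : 0 < c := by
    rw [hc]
    exact lt_min (by linarith) (by linarith)
  have hc1 : c ≤ η / 2 := by
    rw [hc]
    exact min_le_left _ _
  have hc2 : c ≤ α / 4 := by
    rw [hc]
    exact min_le_right _ _
  obtain ⟨R, hR1, hR2⟩ := exists_R (k := γ * σ * c ^ 3 / 360) (by positivity)
  have hR3 : (115 : ℝ) ≤ R := by exact_mod_cast hR1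
  have hK0 : (0 : ℝ) < 4 * R + 28 := by positivity
  obtain ⟨β, hβ⟩ : ∃ β : ℝ, β = c / (4 * R + 28) := ⟨_, rfl⟩
  have hβ0 : 0 < β := by
    rw [hβ]
    positivity
  have hβc : (4 * R + 28) * β = c := by
    rw [hβ]
    field_simp
  have hβα : 4 * β ≤ α := by
    have h1 : 4 * β ≤ (4 * R + 28) * β := mul_le_mul_of_nonneg_right (by linarith) hβ0.le
    linarith
  obtain ⟨δ, hδ⟩ : ∃ δ : ℝ, δ = min (γ * σ * β ^ 3 / 6) (1 / 8) := ⟨_, rfl⟩
  have hδ0 : 0 < δ := by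
    rw [hδ]
    exact lt_min (by positivity) (by norm_num)
  have hδ1 : δ ≤ 1 / 8 := by
    rw [hδ]
    exact min_le_right _ _
  have hδ2 : 6 * δ ≤ γ * σ * β ^ 3 := by
    have : δ ≤ γ * σ * β ^ 3 / 6 := by
      rw [hδ]
      exact min_le_left _ _
    linarith
  have hRδ : 60 ≤ δ * 42 ^ R := by
    rw [hδ, min_mul_of_nonneg _ _ (by positivity)]
    apply le_min
    · have h1 : γ * σ * β ^ 3 / 6 * 42 ^ R =
          60 * ((γ * σ * c ^ 3 / 360 * 42 ^ R) / (4 * R + 28) ^ 3) := by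
        rw [hβ]
        field_simp
        ring
      rw [h1]
      have h2 : 1 ≤ (γ * σ * c ^ 3 / 360 * 42 ^ R) / (4 * (R : ℝ) + 28) ^ 3 := by
        rw [le_div_iff₀ (by positivity), one_mul]
        exact hR2
      linarith
    · have h1 : (42 : ℝ) ^ 2 ≤ 42 ^ R := pow_le_pow_right₀ (by norm_num) (by omega)
      linarith
  have hf4 : 0 < 48 / (Lf 4 * α ^ 2) := by
    have := Lf4_pos
    positivity
  have hκ : 0 < γ * σ * β ^ 5 := by positivity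
  obtain ⟨N, hN⟩ : ∃ N : ℕ,
    N = ⌈64 / β⌉₊ + ⌈48 / (Lf 4 * α ^ 2) / (γ * σ * β ^ 5)⌉₊ + 1 := ⟨_, rfl⟩
  have hN1 : 1 ≤ N := by omega
  have hNr : (N : ℝ) =
      (⌈64 / β⌉₊ : ℝ) + (⌈48 / (Lf 4 * α ^ 2) / (γ * σ * β ^ 5)⌉₊ : ℝ) + 1 := by
    rw [hN]
    push_cast
    ring
  have hN2 : 64 / β ≤ (N : ℝ) := by
    have h1 := Nat.le_ceil (64 / β)
    have h2 : (0 : ℝ) ≤ (⌈48 / (Lf 4 * α ^ 2) / (γ * σ * β ^ 5)⌉₊ : ℝ) := Nat.cast_nonneg _
    linarith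
  have hN3 : 48 / (Lf 4 * α ^ 2) / (γ * σ * β ^ 5) ≤ (N : ℝ) := by
    have h1 := Nat.le_ceil (48 / (Lf 4 * α ^ 2) / (γ * σ * β ^ 5))
    have h2 : (0 : ℝ) ≤ (⌈64 / β⌉₊ : ℝ) := Nat.cast_nonneg _
    linarith
  have hN0 : (0 : ℝ) < N := by
    have : (1 : ℝ) ≤ N := by exact_mod_cast hN1
    linarith
  refine ⟨γ, η, β, δ, R, N, hβ0, hη0, ?_⟩
  have tL : Tendsto (fun x : ℕ => Real.log (x : ℝ)) atTop atTop :=
    Real.tendsto_log_atTop.comp tendsto_natCast_atTop_atTop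
  have tl : Tendsto (fun x : ℕ => Real.log (Real.log (x : ℝ))) atTop atTop :=
    Real.tendsto_log_atTop.comp tL
  have p1 : 0 < (1 - 2 * β) / N := div_pos (by linarith) hN0
  filter_upwards [eventually_ge_atTop 1, tl.eventually_ge_atTop 1000,
    tl.eventually_ge_atTop (2 / δ), tL.eventually (ev_log_pow (300 / β) 1),
    tL.eventually (ev_div 4 p1),
    tL.eventually (ev_div (48 / β) (show 0 < ((1 - 2 * β) / N) ^ 2 by positivity)),
    tL.eventually (ev_div 4 hβ0),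
    tL.eventually_ge_atTop (64 / δ)] with x e0 e1 e2 e3 e4 e6 e9 e10
  intro y Ra hRa hσR hy
  rw [div_le_iff₀ hδ0] at e10 e2
  refine ⟨?_, by linarith⟩
  refine
    { hα := hα
      hα1 := hα1
      hσ := hσ
      hσ2 := hσR
      hRa := ?_
      hγ := hγ0
      hγ2 := hγ.le
      hη0 := hη0
      hη1 := hη1
      hη2 := hη2
      hβ0 := hβ0
      hβα := hβα
      hβη := by linarith
      hδ0 := hδ0
      hδ := hδ2
      hδ1 := hδ1
      hR := hR1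
      hR2 := hRδ
      hN := hN1
      hN1 := ?_
      hN2 := ?_
      hx := e0
      hL := rfl
      hl := rfl
      hl1 := e1
      hl2 := by linarith
      hlq := ?_
      hL1 := e4
      hL3 := ?_
      hL6 := e9
      hW := rfl
      hWa := rfl
      hP := rfl
      hy := hy }
  · intro p hp
    obtain ⟨h1, h2, h3⟩ := hRa p hp
    exact ⟨h1, (Nat.floor_lt (Real.exp_pos _).le).2 h2, h3⟩
  · rw [div_le_iff₀ hβ0] at hN2
    rw [div_le_iff₀ hN0]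
    linarith
  · rw [div_le_iff₀ hκ] at hN3
    rw [div_le_iff₀ hN0]
    linarith
  · rw [pow_one, div_mul_eq_mul_div, div_le_iff₀ hβ0] at e3
    linarith
  · rwa [div_div] at e6

/-- a residue `a` such that some block of `y` integers, beginning after an integer congruent to
`a`, has no integer prime to the primorial -/
theorem covS_of_block {x y a : ℕ} {Ra : Finset ℕ} {m : ℤ}
    (hm : m ≡ a [ZMOD ((∏ p ∈ Ra, p : ℕ) : ℤ)])
    (hb : ∀ n : ℤ, m < n → n ≤ m + y → ¬ IsCoprime n (primorial x : ℤ)) : CovS x y Ra a := by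
  refine ⟨fun _ => -m, fun n hn hcop => ?_⟩
  rw [mem_Icc] at hn
  have h1 := hb (m + n) (by omega) (by omega)
  rw [Int.isCoprime_iff_nat_coprime, Int.natAbs_natCast] at h1
  obtain ⟨p, hp, hpn, hpx⟩ := Nat.Prime.not_coprime_iff_dvd.1 h1
  have hpx' : p ≤ x := by
    unfold primorial at hpx
    obtain ⟨r, hr, hpr⟩ := (Prime.dvd_finsetProd_iff hp.prime _).1 hpx
    rw [mem_filter, mem_range] at hr
    have := (Nat.prime_dvd_prime_iff_eq hp hr.2).1 hpr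
    omega
  have hdvd : (p : ℤ) ∣ m + n := Int.natCast_dvd.2 hpn
  refine ⟨p, hp, hpx', ?_, ?_⟩
  · intro hpQ
    have h2 : (p : ℤ) ∣ ((∏ p ∈ Ra, p : ℕ) : ℤ) := by
      exact_mod_cast dvd_prod_of_mem (fun p => p) hpQ
    have h3 : (p : ℤ) ∣ a - m := h2.trans hm.dvd
    have h4 : (p : ℤ) ∣ ((a + n : ℕ) : ℤ) := by
      have h5 := dvd_add h3 hdvd
      push_cast
      have h6 : (a : ℤ) + n = a - m + (m + n) := by ring
      rwa [h6]
    have h5 : p ∣ a + n := by exact_mod_cast h4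
    have h6 : p ∣ ∏ p ∈ Ra, p := dvd_prod_of_mem _ hpQ
    have h7 := Nat.dvd_gcd h5 h6
    rw [hcop] at h7
    exact hp.one_lt.ne' (Nat.dvd_one.1 h7)
  · have h6 : (n : ℤ) - -m = m + n := by ring
    rw [h6]
    exact hdvd

theorem main_half {α σ : ℝ} (hα : 0 < α) (hα1 : α ≤ 1 / 2) (hσ : 0 < σ) :
    ∃ β C x₀ : ℝ, 0 < β ∧ 0 < C ∧ ∀ (x y : ℕ) (R : Finset ℕ), x₀ ≤ x → (x : ℝ) ^ (2 - C) ≤ y →
      (∀ p ∈ R, p.Prime ∧ (x : ℝ) ^ α < p ∧ p ≤ x) → σ ≤ ∑ p ∈ R, 1 / (p : ℝ) →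
      (({a : ℕ | a < ∏ p ∈ R, p ∧ ∃ m : ℤ, m ≡ a [ZMOD ((∏ p ∈ R, p : ℕ) : ℤ)] ∧
        ∀ n : ℤ, m < n → n ≤ m + y → ¬ IsCoprime n (primorial x : ℤ)} : Set ℕ).ncard : ℝ) ≤
        Real.exp (-(x : ℝ) ^ β) * ((∏ p ∈ R, p : ℕ) : ℝ) := by
  obtain ⟨γ, η, β, δ, R0, N, hβ0, hη0, hev⟩ := exists_par' hα hα1 hσ
  obtain ⟨X, hX⟩ := eventually_atTop.1 (hev.and (eventually_ge_atTop 3))
  refine ⟨β, η / 2, X, hβ0, by linarith, ?_⟩
  intro x y R hx hy hR hσR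
  obtain ⟨hreg, hx3⟩ := hX x (by exact_mod_cast hx)
  have hx0 : (3 : ℝ) ≤ x := by exact_mod_cast hx3
  have hxp : (0 : ℝ) < x := by linarith
  have hpow : ∀ a : ℝ, (x : ℝ) ^ a = Real.exp (a * Real.log x) := by
    intro a
    rw [Real.rpow_def_of_pos hxp, mul_comm]
  obtain ⟨hLq, hδL⟩ := hreg y R (fun p hp => by
    obtain ⟨h1, h2, h3⟩ := hR p hp
    rw [hpow] at h2
    exact ⟨h1, h2, h3⟩) hσR (by
    rw [← hpow]
    exact hy)
  have hfin := hLq.final hδL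
  have hsub : ({a : ℕ | a < ∏ p ∈ R, p ∧ ∃ m : ℤ, m ≡ a [ZMOD ((∏ p ∈ R, p : ℕ) : ℤ)] ∧
        ∀ n : ℤ, m < n → n ≤ m + y → ¬ IsCoprime n (primorial x : ℤ)} : Set ℕ) ⊆
      {m | m < ∏ p ∈ R, p ∧ CovS x y R m} := by
    rintro a ⟨ha, m, hm, hb⟩
    exact ⟨ha, covS_of_block hm hb⟩
  have hfinite : ({m | m < ∏ p ∈ R, p ∧ CovS x y R m} : Set ℕ).Finite :=
    (Set.finite_lt_nat _).subset fun m hm => hm.1
  have h5 := (Nat.cast_le (α := ℝ)).2 (Set.ncard_le_ncard hsub hfinite)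
  refine (h5.trans hfin).trans (le_of_eq ?_)
  rw [mul_comm, hpow]

/-- **Kanold's bound `x ^ (2 - C)` for some `C > 0`, for almost all residues modulo the product of
the primes in a set of positive logarithmic size.** -/
theorem main_sets {α σ : ℝ} (hα : 0 < α) (hσ : 0 < σ) :
    ∃ β C x₀ : ℝ, 0 < β ∧ 0 < C ∧ ∀ (x y M : ℕ) (R : Finset ℕ), x₀ ≤ x →
      (x : ℝ) ^ (2 - C) ≤ y →
      (∀ p ∈ R, p.Prime ∧ (x : ℝ) ^ α < p ∧ p ≤ x) → σ ≤ ∑ p ∈ R, 1 / (p : ℝ) →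
      M = ∏ p ∈ R, p →
      (({a : ℕ | a < M ∧ ∃ m : ℤ, m ≡ a [ZMOD (M : ℤ)] ∧
        ∀ n : ℤ, m < n → n ≤ m + y → ¬ IsCoprime n (primorial x : ℤ)} : Set ℕ).ncard : ℝ) ≤
        Real.exp (-(x : ℝ) ^ β) * M := by
  obtain ⟨β, C, x₀, hβ, hC, h⟩ := main_half (α := min α (1 / 2)) (lt_min hα (by norm_num))
    (min_le_right _ _) hσ
  refine ⟨β, C, max x₀ 1, hβ, hC, ?_⟩
  intro x y M R hx hy hR hσR hM
  have hx0 := (le_max_left _ _).trans hx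
  have hx1 := (le_max_right _ _).trans hx
  rw [hM]
  refine h x y R hx0 hy (fun p hp => ?_) hσR
  obtain ⟨h1, h2, h3⟩ := hR p hp
  exact ⟨h1, (Real.rpow_le_rpow_of_exponent_le hx1 (min_le_left _ _)).trans_lt h2, h3⟩

end Pool.LinSieve
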